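import Pool.Agent.H39.CN.Tab.T0
import Pool.Agent.H39.CN.Tab.T1
import Pool.Agent.H39.CN.Tab.T2
import Pool.Agent.H39.CN.Tab.T3
import Pool.Agent.H39.CN.Tab.T4
import Pool.Agent.H39.CN.Tab.T5
import Pool.Agent.H39.CN.Tab.T6
import Pool.Agent.H39.CN.Tab.T7
import Pool.Agent.H39.CN.Tab.T8
import Pool.Agent.H39.CN.Tab.T9
import Pool.Agent.H39.CN.Tab.T10

namespace H39.CN

universe u

/-- there is no reduced structure with `4 ≤ n ≤ 42` -/
theorem no_structure {n N : ℕ} (h4 : 4 ≤ n) (h42 : n ≤ 42) (hN2 : 2 ≤ N)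
    (hN : N * (n + 1) ≤ 3 * (n + 3)) (R : RG.{u} n N) : False := by
  have hN4 : N ≤ 4 := by nlinarith
  interval_cases n <;> interval_cases N
  · exact no4_2 R
  · exact no4_3 R
  · exact no4_4 R
  · exact no5_2 R
  · exact no5_3 R
  · exact no5_4 R
  · exact no6_2 R
  · exact no6_3 R
  · omega
  · exact no7_2 R
  · exact no7_3 R
  · omega
  · exact no8_2 R
  · exact no8_3 R
  · omega
  · exact no9_2 R
  · exact no9_3 R
  · omega
  · exact no10_2 R
  · exact no10_3 R
  · omega
  · exact no11_2 R
  · exact no11_3 R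
  · omega
  · exact no12_2 R
  · exact no12_3 R
  · omega
  · exact no13_2 R
  · exact no13_3 R
  · omega
  · exact no14_2 R
  · exact no14_3 R
  · omega
  · exact no15_2 R
  · exact no15_3 R
  · omega
  · exact no16_2 R
  · exact no16_3 R
  · omega
  · exact no17_2 R
  · exact no17_3 R
  · omega
  · exact no18_2 R
  · exact no18_3 R
  · omega
  · exact no19_2 R
  · exact no19_3 R
  · omega
  · exact no20_2 R
  · exact no20_3 R
  · omega
  · exact no21_2 R
  · exact no21_3 R
  · omega
  · exact no22_2 R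
  · exact no22_3 R
  · omega
  · exact no23_2 R
  · exact no23_3 R
  · omega
  · exact no24_2 R
  · exact no24_3 R
  · omega
  · exact no25_2 R
  · exact no25_3 R
  · omega
  · exact no26_2 R
  · exact no26_3 R
  · omega
  · exact no27_2 R
  · exact no27_3 R
  · omega
  · exact no28_2 R
  · exact no28_3 R
  · omega
  · exact no29_2 R
  · exact no29_3 R
  · omega
  · exact no30_2 R
  · exact no30_3 R
  · omega
  · exact no31_2 R
  · exact no31_3 R
  · omega
  · exact no32_2 R
  · exact no32_3 R
  · omega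
  · exact no33_2 R
  · exact no33_3 R
  · omega
  · exact no34_2 R
  · exact no34_3 R
  · omega
  · exact no35_2 R
  · exact no35_3 R
  · omega
  · exact no36_2 R
  · exact no36_3 R
  · omega
  · exact no37_2 R
  · exact no37_3 R
  · omega
  · exact no38_2 R
  · exact no38_3 R
  · omega
  · exact no39_2 R
  · exact no39_3 R
  · omega
  · exact no40_2 R
  · exact no40_3 R
  · omega
  · exact no41_2 R
  · exact no41_3 R
  · omega
  · exact no42_2 R
  · exact no42_3 R
  · omega

end H39.CN
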