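import Pool.Agent.H39.CN.XR
import Pool.Agent.H39.CN.NoRG

namespace H39.CN

open Finset Classical

universe u

section grade

variable {E : Type u}

/-- the shift embedding -/
noncomputable def shm (s : ZMod 3) (f : E →₀ ℕ) : (E × ZMod 3) →₀ ℕ :=
  f.mapDomain fun v => (v, s)

lemma shm_inj (s : ZMod 3) : Function.Injective fun v : E => (v, s) := fun _ _ e =>
  (Prod.ext_iff.1 e).1

lemma shm_apply (s : ZMod 3) (f : E →₀ ℕ) (v : E) (t : ZMod 3) :
    shm s f (v, t) = if t = s then f v else 0 := by
  unfold shm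
  split_ifs with h
  · rw [h]
    exact Finsupp.mapDomain_apply (shm_inj s) f v
  · apply Finsupp.mapDomain_of_notMem_range
    rintro ⟨w, hw⟩
    exact h (Prod.ext_iff.1 hw).2.symm

lemma shm_sum (s : ZMod 3) (f : E →₀ ℕ) (F : E × ZMod 3 → ℕ) :
    ((shm s f).sum fun w k => k * F w) = f.sum fun w k => k * F (w, s) := by
  unfold shm
  exact Finsupp.sum_mapDomain_index_inj (shm_inj s)

lemma shm_single (s : ZMod 3) (v : E) :
    shm s (Finsupp.single v 1) = Finsupp.single (v, s) 1 := by
  unfold shm
  exact Finsupp.mapDomain_single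

lemma shm_fst (s : ZMod 3) (f : E →₀ ℕ) : (shm s f).mapDomain Prod.fst = f := by
  unfold shm
  rw [← Finsupp.mapDomain_comp]
  exact Finsupp.mapDomain_id

/-- grading a structure by the integers modulo three -/
noncomputable def XM.grade (S : XM E) : XM (E × ZMod 3) where
  m u := shm (u.2 + 1) (S.m u.1)
  c u := (S.c u.1, - u.2)
  d u := S.d u.1
  c_c u := by rw [S.c_c, neg_neg]
  m_c u v := by
    obtain ⟨u, s⟩ := u
    obtain ⟨v, t⟩ := v
    rw [shm_apply, shm_apply, S.m_c]
    have : (-s = -t + 1) ↔ (t = s + 1) := by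
      constructor
      · intro e; linear_combination e
      · intro e; linear_combination e
    simp only [this]
  d_pos u := S.d_pos u.1
  d_c u := S.d_c u.1
  deg u := by
    rw [shm_sum]
    exact S.deg u.1
  comm u v := by
    obtain ⟨u, s⟩ := u
    obtain ⟨v, t⟩ := v
    rw [shm_sum, shm_sum]
    simp only [shm_apply, add_left_inj, neg_inj]
    by_cases h : s = t
    · simp only [if_pos h]
      exact S.comm u v
    · simp only [if_neg h, mul_zero, Finsupp.sum, sum_const_zero]

lemma XM.grade_arr {S : XM E} {n : ℕ} (h4 : 4 ≤ n) {V : ℕ → ℕ → E} (h : S.Arr n V) :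
    S.grade.GArr n (fun a b => (V a b, (a : ZMod 3) - (b : ZMod 3))) (fun u => u.2) where
  V_d := h.V_d
  V_c a b hab := by
    change (S.c (V a b), - ((a : ZMod 3) - b)) = _
    rw [h.V_c a b hab, neg_sub]
  V_rec a b hab := by
    change shm ((a : ZMod 3) - b + 1) (S.m (V a b)) = _
    have e : ∀ f f' : E →₀ ℕ, shm ((a : ZMod 3) - b + 1) (f + f') =
        shm ((a : ZMod 3) - b + 1) f + shm ((a : ZMod 3) - b + 1) f' := fun f f' =>
      Finsupp.mapDomain_add
    have e0 : shm ((a : ZMod 3) - b + 1) (0 : E →₀ ℕ) = 0 := Finsupp.mapDomain_zero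
    have h3 : (3 : ZMod 3) = 0 := rfl
    rw [h.V_rec a b hab, e, e]
    congr 1
    · congr 1
      · rw [shm_single]
        congr 2
        push_cast
        ring
      · by_cases ha : a = 0
        · rw [if_pos ha, if_pos ha, e0]
        · rw [if_neg ha, if_neg ha, shm_single]
          congr 2
          rw [Nat.cast_sub (by omega)]
          push_cast
          linear_combination h3
    · by_cases hb : b = 0
      · rw [if_pos hb, if_pos hb, e0]
      · rw [if_neg hb, if_neg hb, shm_single]
        congr 2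
        rw [Nat.cast_sub (by omega)]
        push_cast
        ring
  n4 := h4
  g_m u v huv := by
    obtain ⟨u, s⟩ := u
    obtain ⟨v, t⟩ := v
    change shm (s + 1) (S.m u) (v, t) ≠ 0 at huv
    rw [shm_apply] at huv
    by_contra hne
    rw [if_neg hne] at huv
    exact huv rfl
  g_c u := rfl
  V_g a b hab := rfl

lemma XM.ungrade {S : XM E} {n : ℕ} {V : ℕ → ℕ → E × ZMod 3} (h : S.grade.Arr n V) :
    S.Arr n (fun a b => (V a b).1) where
  V_d := h.V_d
  V_c a b hab := congrArg Prod.fst (h.V_c a b hab)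
  V_rec a b hab := by
    have h1 := congrArg (Finsupp.mapDomain Prod.fst) (h.V_rec a b hab)
    have e : ∀ (p : Prop) [Decidable p] (w : E × ZMod 3), Finsupp.mapDomain Prod.fst
        (if p then 0 else Finsupp.single w 1 : E × ZMod 3 →₀ ℕ) =
        (if p then 0 else Finsupp.single w.1 1 : E →₀ ℕ) := by
      intro p _ w
      split_ifs
      · exact Finsupp.mapDomain_zero
      · exact Finsupp.mapDomain_single
    rw [Finsupp.mapDomain_add, Finsupp.mapDomain_add, Finsupp.mapDomain_single, e, e] at h1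
    change Finsupp.mapDomain Prod.fst (shm ((V a b).2 + 1) (S.m (V a b).1)) = _ at h1
    rw [shm_fst] at h1
    exact h1

/-- every array of level at most 42 can be prolonged -/
theorem XM.extend {S : XM E} {n : ℕ} (h4 : 4 ≤ n) (h42 : n ≤ 42) {V : ℕ → ℕ → E}
    (h : S.Arr n V) : ∃ V' : ℕ → ℕ → E, S.Arr (n + 1) V' ∧
      ∀ a b, a + b ≤ n → V' a b = V a b := by
  by_contra hne
  obtain ⟨N, h1, h2, ⟨R⟩⟩ := (XM.grade_arr h4 h).main (by
    rintro ⟨V', hV', h'⟩
    apply hne
    refine ⟨fun a b => (V' a b).1, XM.ungrade hV', fun a b hab => ?_⟩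
    exact congrArg Prod.fst (h' a b hab))
  exact no_structure h4 h42 h1 h2 R

end grade

end H39.CN
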