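import Pool.Agent.H39.CN.Def
import Pool.Agent.H39.CN.XGr

namespace H39.CNITA

open Finset Classical H39.CN

universe u v

/-- natural number part of a complex number -/
noncomputable def nf (z : ℂ) : ℕ := ⌊z.re⌋₊

lemma nf_zero : nf 0 = 0 := by unfold nf; simp

lemma nf_nat (k : ℕ) : nf (k : ℂ) = k := by unfold nf; simp

lemma mapRange_nf {ι : Type u} {f : ι →₀ ℂ} {g : ι →₀ ℕ} (h : ∀ v, f v = (g v : ℂ)) :
    f.mapRange nf nf_zero = g := by
  ext v
  rw [Finsupp.mapRange_apply, h, nf_nat]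

lemma sum_nf {ι : Type u} {f : ι →₀ ℂ} (h : ∀ v, ∃ k : ℕ, f v = (k : ℂ)) (F : ι → ℕ) :
    (((f.mapRange nf nf_zero).sum fun w k => k * F w : ℕ) : ℂ) = f.sum fun w z => z * (F w : ℂ) := by
  rw [Finsupp.sum_mapRange_index (by intro a; ring)]
  unfold Finsupp.sum
  push_cast
  refine sum_congr rfl fun w _ => ?_
  obtain ⟨k, hk⟩ := h w
  rw [hk, nf_nat]

namespace TableAlgebra

variable {ι : Type u} {A : Type v} [CommRing A] [Algebra ℂ A] (T : TableAlgebra ι A)

/-- the coefficient of the identity -/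
noncomputable def tau : A →ₗ[ℂ] ℂ := T.B.coord T.one

lemma tau_apply (a : A) : T.tau a = T.B.repr a T.one := rfl

lemma bar_bar (i : ι) : T.bar (T.bar i) = i := by
  apply T.B.injective
  rw [← T.conj_B, ← T.conj_B, T.conj_conj]

lemma bar_inj {i j : ι} (h : T.bar i = T.bar j) : i = j := by
  rw [← T.bar_bar i, h, T.bar_bar]

lemma bar_one : T.bar T.one = T.one := by
  apply T.B.injective
  rw [← T.conj_B, T.B_one, map_one]

lemma repr_B (i j : ι) : T.B.repr (T.B i) j = if i = j then 1 else 0 := by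
  rw [T.B.repr_self, Finsupp.single_apply]

lemma tau_conj (a : A) : T.tau (T.conj a) = T.tau a := by
  have h : T.tau ∘ₗ T.conj.toLinearMap = T.tau := by
    apply T.B.ext
    intro i
    change T.tau (T.conj (T.B i)) = T.tau (T.B i)
    rw [T.conj_B, tau_apply, tau_apply, T.repr_B, T.repr_B]
    have : T.bar i = T.one ↔ i = T.one := by
      constructor
      · intro e; apply T.bar_inj; rw [e, T.bar_one]
      · intro e; rw [e, T.bar_one]
    simp only [this]
  exact LinearMap.congr_fun h a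

variable {T}

lemma IsCNITA.tau_mul (h : T.IsCNITA) (i j : ι) :
    T.tau (T.B i * T.B j) = if i = T.bar j then 1 else 0 := by
  obtain ⟨g, hg, h3⟩ := T.ta3
  have key : ∀ j, T.tau (T.B i * T.B j) = (g i T.one : ℂ) * if i = T.bar j then 1 else 0 := by
    intro j
    rw [tau_apply, h3, T.B_one, mul_one, T.repr_B]
    congr 1
    simp only [eq_comm]
  have h1 := h.unit i
  rw [← tau_apply, key, T.bar_bar, if_pos rfl, mul_one] at h1
  rw [key, h1, one_mul]

lemma IsCNITA.coeff (h : T.IsCNITA) (a : A) (m : ι) :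
    T.B.repr a m = T.tau (a * T.B (T.bar m)) := by
  have h1 : T.B.coord m = T.tau ∘ₗ LinearMap.mulRight ℂ (T.B (T.bar m)) := by
    apply T.B.ext
    intro i
    change T.B.repr (T.B i) m = T.tau (T.B i * T.B (T.bar m))
    rw [h.tau_mul, T.bar_bar, T.repr_B]
  exact LinearMap.congr_fun h1 a

/-- expansion of a linear functional -/
lemma expand (φ : A →ₗ[ℂ] ℂ) (a : A) :
    φ a = (T.B.repr a).sum fun w z => z * φ (T.B w) := by
  conv_lhs => rw [← T.B.linearCombination_repr a, Finsupp.linearCombination_apply]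
  rw [map_finsuppSum]
  apply Finsupp.sum_congr
  intro w _
  rw [map_smul, smul_eq_mul]

/-- inner product of two elements -/
lemma IsCNITA.inner (h : T.IsCNITA) (a b : A) :
    ((T.B.repr a).sum fun w z => z * T.B.repr b w) = T.tau (b * T.conj a) := by
  have h1 := expand (T := T) (T.tau ∘ₗ LinearMap.mulLeft ℂ b ∘ₗ T.conj.toLinearMap) a
  change T.tau (b * T.conj a) = _ at h1
  rw [h1]
  apply Finsupp.sum_congr
  intro w _
  change _ = _ * T.tau (b * T.conj (T.B w))
  rw [T.conj_B, h.coeff b w]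

/-- the row of multiplication by `b₃` -/
noncomputable def row (T : TableAlgebra ι A) (i₃ u : ι) : ι →₀ ℕ :=
  (T.B.repr (T.B i₃ * T.B u)).mapRange nf nf_zero

lemma IsCNITA.row_apply (h : T.IsCNITA) (i₃ u w : ι) :
    (T.row i₃ u w : ℂ) = T.B.repr (T.B i₃ * T.B u) w := by
  unfold row
  rw [Finsupp.mapRange_apply]
  obtain ⟨k, hk⟩ := h.coeff_nat i₃ u w
  rw [hk, nf_nat]

/-- degree as a natural number -/
noncomputable def dg (T : TableAlgebra ι A) (u : ι) : ℕ := nf (T.deg (T.B u))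

lemma IsCNITA.dg_eq (h : T.IsCNITA) (u : ι) : (T.dg u : ℂ) = T.deg (T.B u) := by
  unfold dg
  obtain ⟨d, _, hd⟩ := h.deg_nat u
  rw [hd, nf_nat]

lemma IsCNITA.row_sum (h : T.IsCNITA) (i₃ u : ι) (F : ι → ℕ) :
    (((T.row i₃ u).sum fun w k => k * F w : ℕ) : ℂ) =
      (T.B.repr (T.B i₃ * T.B u)).sum fun w z => z * (F w : ℂ) :=
  sum_nf (fun w => h.coeff_nat i₃ u w) F

/-- the abstract data of multiplication by `b₃` -/
noncomputable def toXM {i₃ : ι} (hs : T.Setting i₃) : XM ι where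
  m u := T.row i₃ u
  c := T.bar
  d := T.dg
  c_c := T.bar_bar
  m_c u v := by
    have h := hs.cnita
    have h1 : (T.row i₃ (T.bar v) (T.bar u) : ℂ) = (T.row i₃ u v : ℂ) := by
      rw [h.row_apply, h.row_apply, h.coeff, h.coeff, T.bar_bar]
      congr 1
      ring
    exact_mod_cast h1
  d_pos u := by
    have h := hs.cnita
    obtain ⟨d, hd, hd2⟩ := h.deg_nat u
    unfold dg
    rw [hd2, nf_nat]
    exact hd
  d_c u := by
    obtain ⟨r, -, h1, h2⟩ := T.deg_B u
    unfold dg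
    rw [h1, h2]
  deg u := by
    have h := hs.cnita
    have h1 : (((T.row i₃ u).sum fun w k => k * T.dg w : ℕ) : ℂ) = ((3 * T.dg u : ℕ) : ℂ) := by
      rw [h.row_sum]
      simp only [h.dg_eq]
      have h2 := expand (T := T) T.deg.toLinearMap (T.B i₃ * T.B u)
      change T.deg (T.B i₃ * T.B u) = _ at h2
      push_cast
      rw [h.dg_eq, ← hs.degree, ← map_mul T.deg, h2]
      rfl
    exact_mod_cast h1
  comm u v := by
    have h := hs.cnita
    have h1 : (((T.row i₃ u).sum fun w k => k * T.row i₃ v w : ℕ) : ℂ) =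
        (((T.row i₃ (T.bar u)).sum fun w k => k * T.row i₃ (T.bar v) w : ℕ) : ℂ) := by
      rw [h.row_sum, h.row_sum]
      simp only [h.row_apply]
      rw [h.inner, h.inner, ← T.tau_conj]
      congr 1
      simp only [map_mul, T.conj_B, T.bar_bar]
      ring
    exact_mod_cast h1

lemma toXM_m {i₃ : ι} (hs : T.Setting i₃) (u : ι) : (toXM hs).m u = T.row i₃ u := rfl

/-- the entries of an array in coordinates -/
lemma entry_eqs (bb : ℤ → ℤ → ι) (V : ℕ → ℕ → ι)
    (hV : ∀ a b : ℕ, bb (2 * b + 1) (a + b + 1) = V a b) (a b : ℕ) :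
    T.entry bb (2 * b + 1 - 2) (a + b + 1 - 1) = (if b = 0 then 0 else T.B (V a (b - 1))) ∧
    T.entry bb (2 * b + 1 + 2) (a + b + 1) = (if a = 0 then 0 else T.B (V (a - 1) (b + 1))) ∧
    T.entry bb (2 * b + 1) (a + b + 1 + 1) = T.B (V (a + 1) b) := by
  refine ⟨?_, ?_, ?_⟩
  · unfold entry
    rcases b with _ | b
    · rw [if_pos (show (0 : ℕ) = 0 from rfl), if_neg]
      rintro ⟨h1, -⟩
      omega
    · rw [if_pos (by push_cast; omega), if_neg (by omega), ← hV]
      congr 2 <;> push_cast <;> ring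
  · unfold entry
    rcases a with _ | a
    · rw [if_pos (show (0 : ℕ) = 0 from rfl), if_neg (by push_cast; omega)]
    · rw [if_pos (by push_cast; omega), if_neg (by omega), ← hV]
      congr 2 <;> push_cast <;> ring
  · unfold entry
    rw [if_pos (by omega), ← hV]
    congr 2
    push_cast
    ring

/-- the relation in coordinates -/
lemma rel_iff {i₃ : ι} (h : T.IsCNITA) (V : ℕ → ℕ → ι) (a b : ℕ) :
    (T.B i₃ * T.B (V a b) = (if b = 0 then 0 else T.B (V a (b - 1))) +
      (if a = 0 then 0 else T.B (V (a - 1) (b + 1))) + T.B (V (a + 1) b)) ↔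
    (T.row i₃ (V a b) = Finsupp.single (V (a + 1) b) 1 +
      (if a = 0 then 0 else Finsupp.single (V (a - 1) (b + 1)) 1) +
      (if b = 0 then 0 else Finsupp.single (V a (b - 1)) 1)) := by
  have hr : ∀ v, T.B.repr ((if b = 0 then 0 else T.B (V a (b - 1))) +
      (if a = 0 then 0 else T.B (V (a - 1) (b + 1))) + T.B (V (a + 1) b)) v =
      ((Finsupp.single (V (a + 1) b) 1 +
      (if a = 0 then 0 else Finsupp.single (V (a - 1) (b + 1)) 1) +
      (if b = 0 then 0 else Finsupp.single (V a (b - 1)) 1) : ι →₀ ℕ) v : ℂ) := by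
    intro v
    have e : ∀ (p : Prop) [Decidable p] (w : ι), T.B.repr (if p then 0 else T.B w) v =
        (((if p then 0 else Finsupp.single w 1 : ι →₀ ℕ) v : ℕ) : ℂ) := by
      intro p _ w
      split_ifs
      · simp
      · rw [T.repr_B, Finsupp.single_apply]
        push_cast
        rfl
    rw [map_add, map_add, Finsupp.add_apply, Finsupp.add_apply, Finsupp.add_apply,
      Finsupp.add_apply, e, e, T.repr_B, Finsupp.single_apply]
    push_cast
    ring
  constructor
  · intro he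
    unfold row
    rw [he]
    exact mapRange_nf hr
  · intro he
    apply T.B.repr.injective
    ext v
    rw [hr, ← he, h.row_apply]

lemma toArr {i₃ : ι} (hs : T.Setting i₃) {t : ℕ} {bb : ℤ → ℤ → ι} (hb : T.IsArray i₃ t bb) :
    (toXM hs).Arr t (fun a b => bb (2 * b + 1) (a + b + 1)) where
  V_d := by
    change T.dg (bb (2 * (0 : ℕ) + 1) ((0 : ℕ) + (0 : ℕ) + 1)) = 1
    have : bb (2 * (0 : ℕ) + 1) ((0 : ℕ) + (0 : ℕ) + 1) = T.one := by
      rw [← hb.b_one]
      norm_num
    rw [this]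
    unfold dg
    rw [T.B_one, map_one]
    exact_mod_cast nf_nat 1
  V_c a b hab := by
    change T.bar (bb (2 * b + 1) (a + b + 1)) = bb (2 * a + 1) (b + a + 1)
    rw [hb.b_conj (2 * a + 1) (b + a + 1) (by omega) (by omega) ⟨a, rfl⟩ (by omega)
      (by omega)]
    congr 2 <;> ring
  V_rec a b hab := by
    rw [toXM_m]
    rw [← rel_iff hs.cnita (fun a b => bb (2 * b + 1) (a + b + 1)) a b]
    by_cases h0 : a + b = 0
    · obtain ⟨rfl, rfl⟩ : a = 0 ∧ b = 0 := by omega
      rw [if_pos rfl, if_pos rfl, zero_add, zero_add]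
      have e1 : bb (2 * (0 : ℕ) + 1) ((0 : ℕ) + (0 : ℕ) + 1) = T.one := by
        rw [← hb.b_one]
        norm_num
      have e2 : bb (2 * (0 : ℕ) + 1) ((0 + 1 : ℕ) + (0 : ℕ) + 1) = i₃ := by
        rw [← hb.b_three]
        norm_num
      rw [e1, e2, T.B_one, mul_one]
    · obtain ⟨e1, e2, e3⟩ := entry_eqs (T := T) bb (fun a b => bb (2 * b + 1) (a + b + 1))
        (fun _ _ => rfl) a b
      rw [← e1, ← e2, ← e3]
      exact hb.mul_b (2 * b + 1) (a + b + 1) (by omega) (by omega) ⟨b, rfl⟩ (by omega) (by omega)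

lemma ofArr {i₃ : ι} (hs : T.Setting i₃) {t : ℕ} {V : ℕ → ℕ → ι} (h : (toXM hs).Arr t V)
    (h0 : V 0 0 = T.one) (h1 : V 1 0 = i₃) : T.HasArray i₃ t := by
  set bb : ℤ → ℤ → ι := fun k i => V ((2 * i - k - 1) / 2).toNat ((k - 1) / 2).toNat with hbb
  have hV : ∀ a b : ℕ, bb (2 * b + 1) (a + b + 1) = V a b := by
    intro a b
    rw [hbb]
    beta_reduce
    congr 1 <;> omega
  have cover : ∀ k i : ℤ, 1 ≤ i → Odd k → 1 ≤ k → k ≤ 2 * i - 1 → ∃ a b : ℕ,
      k = 2 * b + 1 ∧ i = a + b + 1 := by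
    intro k i hi hk hk1 hk2
    obtain ⟨l, rfl⟩ := hk
    exact ⟨(i - l - 1).toNat, l.toNat, by omega, by omega⟩
  refine ⟨bb, ?_, ?_, ?_, ?_⟩
  · rw [← h0, ← hV]
    norm_num
  · rw [← h1, ← hV]
    norm_num
  · intro k i hi hit hk hk1 hk2
    obtain ⟨a, b, rfl, rfl⟩ := cover k i hi hk hk1 hk2
    have e : (2 * ((a : ℤ) + b + 1) - (2 * b + 1)) = 2 * a + 1 := by ring
    rw [e, hV, show (a : ℤ) + b + 1 = b + a + 1 by ring, hV]
    exact (h.V_c b a (by omega)).symm
  · intro k i hi hit hk hk1 hk2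
    obtain ⟨a, b, rfl, rfl⟩ := cover k i (by omega) hk hk1 hk2
    obtain ⟨e1, e2, e3⟩ := entry_eqs (T := T) bb V hV a b
    rw [hV, e1, e2, e3, rel_iff hs.cnita V a b]
    exact h.V_rec a b (by omega)

/-- the main theorem: there is no C-NITA as in the problem with stopping number `4 ≤ n ≤ 42` -/
theorem no_stopping (T : TableAlgebra ι A) {i₃ : ι} (hs : T.Setting i₃) {n : ℕ} (h4 : 4 ≤ n) (h42 : n ≤ 42) :
    ¬ T.StoppingNumber i₃ n := by
  rintro ⟨-, ⟨bb, hbb⟩, hno⟩
  obtain ⟨V', hV', he⟩ := XM.extend h4 h42 (toArr hs hbb)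
  apply hno
  apply ofArr hs hV'
  · rw [he 0 0 (by omega), ← hbb.b_one]
    norm_num
  · rw [he 1 0 (by omega), ← hbb.b_three]
    norm_num

end TableAlgebra

end H39.CNITA
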