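/-
Certificate checker (kernel friendly: everything is packed in natural numbers and
only accelerated natural number operations and recursors are used).
-/
namespace H39.CN

/-- parameters of a run -/
structure Prm where
  n : Nat
  N : Nat
  NV : Nat
  OFF : Nat
  HM : Nat

/-- state of a run -/
structure St where
  nn : Nat
  nv : Nat
  c : Nat
  vr : Nat
  gr : Nat
  ex : Nat
  exc : Nat
  M : Nat
  D : Nat
  A : Nat

/-- bit test -/
noncomputable def tb (X i : Nat) : Bool := Nat.beq (Nat.mod (Nat.shiftRight X i) 2) 1

/-- boolean and -/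
noncomputable def bnd (a b : Bool) : Bool := Bool.rec (motive := fun _ => Bool) false b a

/-- boolean or -/
noncomputable def bor (a b : Bool) : Bool := Bool.rec (motive := fun _ => Bool) b true a

/-- boolean not -/
noncomputable def bno (a : Bool) : Bool := Bool.rec (motive := fun _ => Bool) true false a

/-- base four digit -/
noncomputable def dg (X k : Nat) : Nat := Nat.mod (Nat.shiftRight X (Nat.mul 2 k)) 4

/-- index of a matrix entry -/
noncomputable def ix (i j : Nat) : Nat := Nat.add (Nat.mul 128 i) j

/-- conjugate name -/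
noncomputable def cj (s : St) (i : Nat) : Nat :=
  Nat.mod (Nat.shiftRight s.c (Nat.mul 8 i)) 256

/-- degree variable of a name -/
noncomputable def vr (s : St) (i : Nat) : Nat :=
  Nat.mod (Nat.shiftRight s.vr (Nat.mul 8 i)) 256

/-- grade of a name -/
noncomputable def gr (s : St) (i : Nat) : Nat := dg s.gr i

/-- row of a matrix -/
noncomputable def row (X i : Nat) : Nat :=
  Nat.mod (Nat.shiftRight X (Nat.mul 256 i)) (Nat.pow 2 256)

/-- upper bound of an entry, from its row data -/
noncomputable def hiAt (xq : Bool) (exc rl rd t : Nat) : Nat :=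
  Bool.rec (motive := fun _ => Nat) (Nat.sub 3 (dg rd t)) (dg rl t) (bor xq (tb exc t))

/-- upper bound of an entry -/
noncomputable def hi (s : St) (i j : Nat) : Nat :=
  Bool.rec (motive := fun _ => Nat) (Nat.sub 3 (dg s.D (ix i j))) (dg s.M (ix i j))
    (bor (tb s.ex i) (tb s.exc j))

/-- the constant degrees -/
noncomputable def dV (n b : Nat) : Nat :=
  Nat.div (Nat.mul (Nat.mul (Nat.sub (Nat.succ n) b) (Nat.succ b)) (Nat.succ (Nat.succ n))) 2

/-- sum over the increasing list `X` (with `k` members) of products -/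
noncomputable def dotL (rp rq k X : Nat) : Nat :=
  Nat.rec (motive := fun _ => Nat → Nat → Nat → Nat) (fun _ _ acc => acc)
    (fun _ ih X b acc =>
      ih (Nat.shiftRight X 7) (Nat.succ (Nat.add b (Nat.mod X 128)))
        (Nat.add acc (Nat.mul (dg rp (Nat.add b (Nat.mod X 128)))
          (dg rq (Nat.add b (Nat.mod X 128)))))) k X 0 0

/-- the part of the row `rp` at the increasing list `X` -/
noncomputable def suppL (rp k X : Nat) : Nat :=
  Nat.rec (motive := fun _ => Nat → Nat → Nat → Nat) (fun _ _ acc => acc)
    (fun _ ih X b acc =>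
      ih (Nat.shiftRight X 7) (Nat.succ (Nat.add b (Nat.mod X 128)))
        (Nat.add acc (Nat.shiftLeft (dg rp (Nat.add b (Nat.mod X 128)))
          (Nat.mul 2 (Nat.add b (Nat.mod X 128)))))) k X 0 0

/-- sum over the increasing list `X` of `rp * h` -/
noncomputable def dotH (h : Nat → Nat) (rp k X : Nat) : Nat :=
  Nat.rec (motive := fun _ => Nat → Nat → Nat → Nat) (fun _ _ acc => acc)
    (fun _ ih X b acc =>
      ih (Nat.shiftRight X 7) (Nat.succ (Nat.add b (Nat.mod X 128)))
        (Nat.add acc (Nat.mul (dg rp (Nat.add b (Nat.mod X 128)))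
          (h (Nat.add b (Nat.mod X 128)))))) k X 0 0

/-- lower bound of an inner product -/
noncomputable def dL (s : St) (p q k X : Nat) : Nat := dotL (row s.M p) (row s.M q) k X

/-- the list `X` contains the support of the row `p` -/
noncomputable def full (s : St) (p k X : Nat) : Bool :=
  Nat.beq (suppL (row s.M p) k X) (row s.M p)

/-- upper bound of an inner product, `p` exact -/
noncomputable def dU (s : St) (p q k X : Nat) : Nat :=
  dotH (hiAt (tb s.ex q) s.exc (row s.M q) (row s.D q)) (row s.M p) k X

/-- norm of the row of `V_i` -/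
noncomputable def nrm (p : Prm) (i : Nat) : Nat :=
  Bool.rec (motive := fun _ => Nat) (Nat.succ p.N) p.N (Nat.ble p.n i)

/-- packed degree of a name -/
noncomputable def unit (p : Prm) (s : St) (j : Nat) : Nat :=
  Bool.rec (motive := fun _ => Nat) (Nat.shiftLeft 1 (Nat.mul 48 (vr s j)))
    (Nat.shiftLeft (dV p.n j) (Nat.mul 48 p.NV)) (Nat.ble j p.n)

/-- stride of the packed rows -/
noncomputable def sa (p : Prm) : Nat := Nat.mul 48 (Nat.succ p.NV)

/-- packed row inequality -/
noncomputable def aRow (p : Prm) (s : St) (i : Nat) : Nat :=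
  Nat.mod (Nat.shiftRight s.A (Nat.mul (sa p) i)) (Nat.pow 2 (sa p))

/-- add to the lower bounds and the packed rows -/
noncomputable def updMA (s : St) (dM dA : Nat) : St :=
  St.rec (motive := fun _ => St)
    (fun nn nv c vr gr ex exc M D A =>
      ⟨nn, nv, c, vr, gr, ex, exc, Nat.add M dM, D, Nat.add A dA⟩) s

/-- raise a lower bound by `d` -/
noncomputable def loAdd2 (p : Prm) (s : St) (i j ci cj d : Nat) : St :=
  updMA s
    (Nat.add (Nat.shiftLeft d (Nat.mul 2 (ix i j))) (Nat.shiftLeft d (Nat.mul 2 (ix cj ci))))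
    (Nat.add (Nat.shiftLeft (Nat.mul d (unit p s j)) (Nat.mul (sa p) i))
      (Nat.shiftLeft (Nat.mul d (unit p s ci)) (Nat.mul (sa p) cj)))

/-- raise a lower bound by `d`, symmetric entry -/
noncomputable def loAdd1 (p : Prm) (s : St) (i j d : Nat) : St :=
  updMA s (Nat.shiftLeft d (Nat.mul 2 (ix i j)))
    (Nat.shiftLeft (Nat.mul d (unit p s j)) (Nat.mul (sa p) i))

/-- set a lower bound -/
noncomputable def setLo (p : Prm) (s : St) (i j v : Nat) : St :=
  Bool.rec (motive := fun _ => St)
    (Bool.rec (motive := fun _ => St)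
      (loAdd2 p s i j (cj s i) (cj s j) (Nat.sub v (dg s.M (ix i j))))
      (loAdd1 p s i j (Nat.sub v (dg s.M (ix i j))))
      (Nat.beq (cj s j) i)) s (Nat.ble v (dg s.M (ix i j)))

/-- add to the deficits -/
noncomputable def updD (s : St) (dD : Nat) : St :=
  St.rec (motive := fun _ => St)
    (fun nn nv c vr gr ex exc M D A =>
      ⟨nn, nv, c, vr, gr, ex, exc, M, Nat.add D dD, A⟩) s

/-- raise a deficit by `d` -/
noncomputable def hiAdd (s : St) (i j ci cj d : Nat) : St :=
  updD s (Bool.rec (motive := fun _ => Nat)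
      (Nat.add (Nat.shiftLeft d (Nat.mul 2 (ix i j))) (Nat.shiftLeft d (Nat.mul 2 (ix cj ci))))
      (Nat.shiftLeft d (Nat.mul 2 (ix i j))) (Nat.beq cj i))

/-- set an upper bound (given by its deficit `v`) -/
noncomputable def setHi (s : St) (i j v : Nat) : St :=
  Bool.rec (motive := fun _ => St)
    (hiAdd s i j (cj s i) (cj s j) (Nat.sub v (dg s.D (ix i j)))) s
    (Nat.ble v (dg s.D (ix i j)))

/-- add to the masks -/
noncomputable def updE (s : St) (d1 d2 : Nat) : St :=
  St.rec (motive := fun _ => St)
    (fun nn nv c vr gr ex exc M D A =>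
      ⟨nn, nv, c, vr, gr, Nat.add ex d1, Nat.add exc d2, M, D, A⟩) s

/-- mark a row exact -/
noncomputable def setEx (s : St) (i : Nat) : St :=
  Bool.rec (motive := fun _ => St)
    (updE s (Nat.shiftLeft 1 i) (Nat.shiftLeft 1 (cj s i))) s (tb s.ex i)

/-- packed inequality of a new name -/
noncomputable def newA (p : Prm) (v : Nat) : Nat :=
  Nat.sub p.OFF (Nat.shiftLeft 3 (Nat.mul 48 v))

/-- add a conjugate pair of new names, first one of grade `g` -/
noncomputable def new2 (p : Prm) (s : St) (g : Nat) : St :=
  St.rec (motive := fun _ => St)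
    (fun nn nv c vr gr ex exc M D A =>
      ⟨Nat.add nn 2, Nat.add nv 1,
        Nat.add c (Nat.shiftLeft (Nat.add (Nat.add nn 1) (Nat.mul 256 nn)) (Nat.mul 8 nn)),
        Nat.add vr (Nat.shiftLeft (Nat.mul 257 nv) (Nat.mul 8 nn)),
        Nat.add gr (Nat.shiftLeft (Nat.add g (Nat.mul 4 (Nat.mod (Nat.sub 3 g) 3)))
          (Nat.mul 2 nn)), ex, exc, M, D,
        Nat.add A (Nat.add (Nat.shiftLeft (newA p nv) (Nat.mul (sa p) nn))
          (Nat.shiftLeft (newA p nv) (Nat.mul (sa p) (Nat.succ nn))))⟩) s

/-- add a real new name (grade 0) -/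
noncomputable def new1 (p : Prm) (s : St) : St :=
  St.rec (motive := fun _ => St)
    (fun nn nv c vr gr ex exc M D A =>
      ⟨Nat.add nn 1, Nat.add nv 1, Nat.add c (Nat.shiftLeft nn (Nat.mul 8 nn)),
        Nat.add vr (Nat.shiftLeft nv (Nat.mul 8 nn)), gr, ex, exc, M, D,
        Nat.add A (Nat.shiftLeft (newA p nv) (Nat.mul (sa p) nn))⟩) s

/-- upper bound of the inner product over the names of grade `g` -/
noncomputable def uSum (s : St) (g : Nat) (h1 h2 : Nat → Nat) : Nat :=
  Nat.rec (motive := fun _ => Nat) 0
    (fun t acc => Bool.rec (motive := fun _ => Nat) acc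
      (Nat.add acc (Nat.mul (h1 t) (h2 t))) (Nat.beq (gr s t) g)) s.nn

/-- all entries of row `i` at names of grade `g` are closed -/
noncomputable def closed (s : St) (g i : Nat) : Bool :=
  Nat.rec (motive := fun _ => Bool) true
    (fun t acc => bnd acc (Bool.rec (motive := fun _ => Bool) true
      (Nat.ble (hi s i t) (dg s.M (ix i t))) (Nat.beq (gr s t) g))) s.nn

/-- the final comparison of the linear programming certificate -/
noncomputable def lpFin2 (p : Prm) (Z Pt Qt : Nat) : Bool :=
  bnd (Nat.beq (Nat.land Z p.HM) p.HM)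
    (Nat.ble (Nat.succ Qt)
      (Nat.add Pt (Nat.mod (Nat.sub Z p.HM) 281474976710655)))

/-- the final comparison of the linear programming certificate -/
noncomputable def lpFin1 (p : Prm) (T P Q : Nat) : Bool :=
  lpFin2 p (Nat.sub (Nat.add (Nat.mod P (Nat.shiftLeft 1 T)) p.HM)
      (Nat.mod Q (Nat.shiftLeft 1 T)))
    (Nat.shiftRight P T) (Nat.shiftRight Q T)

/-- the final comparison of the linear programming certificate -/
noncomputable def lpFin (p : Prm) (P L Q U : Nat) : Bool :=
  bnd (Nat.ble (Nat.mul 16 (Nat.add L U)) 140737488355327)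
    (lpFin1 p (Nat.mul 48 p.NV) (Nat.add P (Nat.mul U p.OFF)) (Nat.add Q (Nat.mul L p.OFF)))

/-- loop over the rows used as lower bounds -/
noncomputable def lpGE (p : Prm) (s : St) (b P L k X : Nat) : Bool :=
  Nat.rec (motive := fun _ => Nat → Nat → Nat → Bool)
    (fun _ Q U => lpFin p P L Q U)
    (fun _ ih X Q U => bnd (tb s.ex (Nat.mod X 128))
      (ih (Nat.shiftRight X b)
        (Nat.add Q (Nat.mul (Nat.shiftRight (Nat.mod X (Nat.shiftLeft 1 b)) 7)
          (aRow p s (Nat.mod X 128))))
        (Nat.add U (Nat.shiftRight (Nat.mod X (Nat.shiftLeft 1 b)) 7)))) k X 0 0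

/-- loop over the rows used as upper bounds -/
noncomputable def lpLE (p : Prm) (s : St) (b k2 k X P L : Nat) : Bool :=
  Nat.rec (motive := fun _ => Nat → Nat → Nat → Bool)
    (fun X P L => lpGE p s b P L k2 X)
    (fun _ ih X P L =>
      ih (Nat.shiftRight X b)
        (Nat.add P (Nat.mul (Nat.shiftRight (Nat.mod X (Nat.shiftLeft 1 b)) 7)
          (aRow p s (Nat.mod X 128))))
        (Nat.add L (Nat.shiftRight (Nat.mod X (Nat.shiftLeft 1 b)) 7))) k X P L

/-- drop the state if the test succeeds -/
noncomputable def leaf (s : St) (r : List St) (b : Bool) : List St :=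
  Bool.rec (motive := fun _ => List St) (List.cons s r) r b

/-- `f` if the test succeeds -/
noncomputable def ifs (s : St) (r : List St) (b : Bool) (f : List St) : List St :=
  Bool.rec (motive := fun _ => List St) (List.cons s r) f b

/-- field of a word -/
noncomputable def fi (w k : Nat) : Nat := Nat.mod (Nat.shiftRight w k) 128

/-- short field of a word -/
noncomputable def f4 (w k : Nat) : Nat := Nat.mod (Nat.shiftRight w k) 16

/-- split on an entry -/
noncomputable def opS (p : Prm) (s : St) (r : List St) (i j k : Nat) : List St :=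
  ifs s r (bnd (Nat.ble (Nat.succ i) s.nn) (bnd (Nat.ble (Nat.succ j) s.nn) (Nat.ble k 2)))
    (List.cons (setLo p s i j (Nat.succ k)) (List.cons (setHi s i j (Nat.sub 3 k)) r))

/-- linear programming leaf; word: rows from bit 22 -/
noncomputable def opL (p : Prm) (s : St) (r : List St) (w : Nat) : List St :=
  leaf s r (lpLE p s (Nat.add 7 (Nat.mod (Nat.shiftRight w 4) 256))
    (Nat.mod (Nat.shiftRight w 17) 32) (Nat.mod (Nat.shiftRight w 12) 32)
    (Nat.shiftRight w 22) 0 0)

/-- exactness by linear programming, after decoding -/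
noncomputable def opP2 (p : Prm) (s : St) (i b k1 k2 al be X : Nat) : Bool :=
  lpLE p s (Nat.add 7 b) k2 k1 X
    (Nat.add (Nat.mul (Nat.add (Nat.mul 3 al) be) (aRow p s i))
      (Nat.add (Nat.mul al (unit p s i)) (Nat.shiftLeft be (Nat.mul 48 p.NV))))
    (Nat.add (Nat.mul 3 al) be)

/-- exactness by linear programming -/
noncomputable def opP1 (p : Prm) (s : St) (i b k1 k2 X : Nat) : Bool :=
  opP2 p s i b k1 k2 (Nat.mod X (Nat.shiftLeft 1 b))
    (Nat.mod (Nat.shiftRight X b) (Nat.shiftLeft 1 b)) (Nat.shiftRight X (Nat.mul 2 b))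

/-- exactness by linear programming -/
noncomputable def opP (p : Prm) (s : St) (r : List St) (w i : Nat) : List St :=
  ifs s r (bnd (Nat.ble (Nat.succ i) s.nn) (opP1 p s i (Nat.mod (Nat.shiftRight w 11) 256)
    (Nat.mod (Nat.shiftRight w 19) 32) (Nat.mod (Nat.shiftRight w 24) 32)
    (Nat.shiftRight w 29))) (List.cons (setEx s i) r)

/-- comparison of inner products, `p` exact -/
noncomputable def eqn (s : St) (p q ku kl X : Nat) : Bool :=
  bnd (bnd (tb s.ex p) (full s p ku X))
    (Nat.ble (Nat.succ (dU s p q ku X)) (dL s (cj s p) (cj s q) kl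
      (Nat.shiftRight X (Nat.mul 7 ku))))

/-- comparison of inner products -/
noncomputable def opE (pr : Prm) (s : St) (r : List St) (p q w : Nat) : List St :=
  leaf s r (bnd (bnd (Nat.ble (Nat.succ p) s.nn) (Nat.ble (Nat.succ q) s.nn))
    (bnd (bor (Nat.ble (Nat.succ pr.n) p) (bno (Nat.beq p q)))
      (eqn s p q (f4 w 18) (f4 w 22) (Nat.shiftRight w 26))))

/-- exactness by norm -/
noncomputable def opN (p : Prm) (s : St) (r : List St) (i w : Nat) : List St :=
  ifs s r (bnd (Nat.ble (Nat.succ i) s.nn) (Bool.rec (motive := fun _ => Bool)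
    (bnd (bnd (tb s.ex (cj s i)) (full s (cj s i) (f4 w 18) (Nat.shiftRight w 26)))
      (Nat.ble (dL s (cj s i) (cj s i) (f4 w 18) (Nat.shiftRight w 26))
        (dL s i i (f4 w 22) (Nat.shiftRight w (Nat.add 26 (Nat.mul 7 (f4 w 18)))))))
    (Nat.ble (nrm p i) (dL s i i (f4 w 22) (Nat.shiftRight w 26))) (Nat.ble i p.n)))
    (List.cons (setEx s i) r)

/-- norm too large -/
noncomputable def opH (p : Prm) (s : St) (r : List St) (i w : Nat) : List St :=
  leaf s r (bnd (Nat.ble i p.n) (Nat.ble (Nat.succ (nrm p i))
    (dL s i i (f4 w 22) (Nat.shiftRight w 26))))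

/-- norm too small -/
noncomputable def opO (p : Prm) (s : St) (r : List St) (i w : Nat) : List St :=
  leaf s r (bnd (bnd (Nat.ble i p.n) (tb s.ex i))
    (bnd (full s i (f4 w 22) (Nat.shiftRight w 26))
      (Nat.ble (Nat.succ (dL s i i (f4 w 22) (Nat.shiftRight w 26))) (nrm p i))))

/-- contradictory bounds -/
noncomputable def opX (s : St) (r : List St) (i j : Nat) : List St :=
  leaf s r (bnd (bnd (Nat.ble (Nat.succ i) s.nn) (Nat.ble (Nat.succ j) s.nn))
    (Nat.ble (Nat.succ (hi s i j)) (dg s.M (ix i j))))

/-- contradictory bounds through the link -/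
noncomputable def opK (p : Prm) (s : St) (r : List St) (i j : Nat) : List St :=
  leaf s r (bnd (bnd (bnd (Nat.ble 1 i) (Nat.ble i p.n))
      (bnd (Nat.ble (Nat.succ p.n) j) (Nat.ble (Nat.succ j) s.nn)))
    (Nat.ble (Nat.succ (hi s (Nat.sub (Nat.succ p.n) i) (cj s j))) (dg s.M (ix i j))))

/-- upper bound of an inner product over the names of grade `g` -/
noncomputable def uS (s : St) (g i j : Nat) : Nat :=
  uSum s g (hiAt (tb s.ex i) s.exc (row s.M i) (row s.D i))
    (hiAt (tb s.ex j) s.exc (row s.M j) (row s.D j))

/-- the test for a forced new common neighbour -/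
noncomputable def tC (p : Prm) (s : St) (g i j isn w : Nat) : Bool :=
  Bool.rec (motive := fun _ => Bool)
    (bnd (bor (Nat.ble (Nat.succ p.n) i) (bno (Nat.beq i j)))
      (Nat.ble (Nat.succ (uS s g i j))
        (dL s (cj s i) (cj s j) (f4 w 22) (Nat.shiftRight w 26))))
    (bnd (bnd (Nat.beq i j) (Nat.ble i p.n)) (Nat.ble (Nat.succ (uS s g i j)) (nrm p i)))
    (Nat.beq isn 1)

/-- room for new names -/
noncomputable def room (p : Prm) (s : St) (i j : Nat) : Bool :=
  bnd (bnd (Nat.ble (Nat.succ i) s.nn) (Nat.ble (Nat.succ j) s.nn))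
    (bnd (Nat.ble (Nat.add s.nn 2) 128) (Nat.ble (Nat.succ s.nv) p.NV))

/-- the state with a new pair joined to `i` and `j` -/
noncomputable def join2 (p : Prm) (s : St) (g i j : Nat) : St :=
  setLo p (setLo p (new2 p s g) i s.nn 1) j s.nn 1

/-- the state with a new real name joined to `i` and `j` -/
noncomputable def join1 (p : Prm) (s : St) (i j : Nat) : St :=
  setLo p (setLo p (new1 p s) i s.nn 1) j s.nn 1

/-- forced new common neighbour -/
noncomputable def opC1 (p : Prm) (s : St) (r : List St) (g i j isn w : Nat) : List St :=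
  ifs s r (bnd (room p s i j) (tC p s g i j isn w))
    (Bool.rec (motive := fun _ => List St) (List.cons (join2 p s g i j) r)
      (List.cons (join2 p s 0 i j) (List.cons (join1 p s i j) r)) (Nat.beq g 0))

/-- forced new common neighbour -/
noncomputable def opC (p : Prm) (s : St) (r : List St) (i j isn w : Nat) : List St :=
  opC1 p s r (Nat.mod (Nat.succ (gr s i)) 3) i j isn w

/-- exact or new neighbour -/
noncomputable def opB1 (p : Prm) (s : St) (r : List St) (g i : Nat) : List St :=
  ifs s r (bnd (room p s i i) (closed s g i))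
    (Bool.rec (motive := fun _ => List St)
      (List.cons (join2 p s g i i) (List.cons (setEx s i) r))
      (List.cons (join2 p s 0 i i) (List.cons (join1 p s i i) (List.cons (setEx s i) r)))
      (Nat.beq g 0))

/-- exact or new neighbour -/
noncomputable def opB (p : Prm) (s : St) (r : List St) (i : Nat) : List St :=
  opB1 p s r (Nat.mod (Nat.succ (gr s i)) 3) i

/-- one step; the opcode is `o` -/
noncomputable def step1 (p : Prm) (s : St) (r : List St) (w i j o : Nat) : List St :=
  Nat.rec (motive := fun _ => List St) (opS p s r i j (f4 w 18))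
  (fun o _ => Nat.rec (motive := fun _ => List St) (opL p s r w)
  (fun o _ => Nat.rec (motive := fun _ => List St) (opE p s r i j w)
  (fun o _ => Nat.rec (motive := fun _ => List St) (opP p s r w i)
  (fun o _ => Nat.rec (motive := fun _ => List St) (opC p s r i j (f4 w 18) w)
  (fun o _ => Nat.rec (motive := fun _ => List St) (opN p s r i w)
  (fun o _ => Nat.rec (motive := fun _ => List St) (opK p s r i j)
  (fun o _ => Nat.rec (motive := fun _ => List St) (opH p s r i w)
  (fun o _ => Nat.rec (motive := fun _ => List St) (opX s r i j)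
  (fun o _ => Nat.rec (motive := fun _ => List St) (opB p s r i)
  (fun _ _ => opO p s r i w) o) o) o) o) o) o) o) o) o) o

/-- one step of the checker -/
noncomputable def step (p : Prm) (w : Nat) (s : St) (r : List St) : List St :=
  step1 p s r w (fi w 4) (fi w 11) (Nat.mod w 16)

/-- run the checker on a list of words -/
noncomputable def execP (p : Prm) (l : List Nat) (stk : List St) : List St :=
  List.rec (motive := fun _ => List St → List St) (fun stk => stk)
    (fun w _ ih stk => List.rec (motive := fun _ => List St) []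
      (fun s rest _ => ih (step p w s rest)) stk) l stk

/-- unpack a certificate page: 12 bits of length, then the word -/
noncomputable def unp (k X : Nat) : List Nat :=
  Nat.rec (motive := fun _ => Nat → List Nat) (fun _ => [])
    (fun _ ih X => Bool.rec (motive := fun _ => List Nat)
      (List.cons (Nat.mod (Nat.shiftRight X 12) (Nat.shiftLeft 1 (Nat.mod X 4096)))
        (ih (Nat.shiftRight X (Nat.add 12 (Nat.mod X 4096))))) [] (Nat.beq X 0)) k X

/-- run the checker on a list of pages -/
noncomputable def exec (p : Prm) (l : List Nat) (stk : List St) : Bool :=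
  List.rec (motive := fun _ => List St → Bool)
    (fun stk => List.rec (motive := fun _ => Bool) true (fun _ _ _ => false) stk)
    (fun X _ ih stk => ih (execP p (unp 64 X) stk)) l stk

/-- equality of states -/
noncomputable def eqSt (a b : St) : Bool :=
  bnd (bnd (bnd (Nat.beq a.nn b.nn) (Nat.beq a.nv b.nv)) (bnd (Nat.beq a.c b.c)
    (Nat.beq a.vr b.vr))) (bnd (bnd (Nat.beq a.gr b.gr) (Nat.beq a.ex b.ex))
    (bnd (bnd (Nat.beq a.exc b.exc) (Nat.beq a.M b.M)) (bnd (Nat.beq a.D b.D) (Nat.beq a.A b.A))))

/-- run a skeleton on a list of words; the word `15` compares the current state with the next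
expected one -/
noncomputable def execRP (p : Prm) (l : List Nat) (pr : List St × List St) :
    List St × List St :=
  List.rec (motive := fun _ => List St × List St → List St × List St) (fun pr => pr)
    (fun w _ ih pr => Prod.rec (motive := fun _ => List St × List St)
      (fun stk outs => List.rec (motive := fun _ => List St × List St) (Prod.mk [] outs)
        (fun s r _ => Bool.rec (motive := fun _ => List St × List St)
          (ih (Prod.mk (step p w s r) outs))
          (List.rec (motive := fun _ => List St × List St) (Prod.mk (List.cons s r) outs)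
            (fun o os _ => Bool.rec (motive := fun _ => List St × List St)
              (Prod.mk (List.cons s r) (List.cons o os)) (ih (Prod.mk r os)) (eqSt s o)) outs)
          (Nat.beq w 15)) stk) pr) l pr

/-- run a skeleton on a list of pages -/
noncomputable def execR (p : Prm) (l : List Nat) (stk outs : List St) : Bool :=
  List.rec (motive := fun _ => List St × List St → Bool)
    (fun pr => Prod.rec (motive := fun _ => Bool) (fun stk _ =>
      List.rec (motive := fun _ => Bool) true (fun _ _ _ => false) stk) pr)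
    (fun X _ ih pr => ih (execRP p (unp 64 X) pr)) l (Prod.mk stk outs)

end H39.CN
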