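import Mathlib

/-! Countable table algebras, C-NITAs, arrays and the stopping number. -/

namespace H39.CNITA

universe u v

/-- A countable table algebra `(A, B)`: an associative commutative `ℂ`-algebra with identity and a
finite or countably infinite basis `B` (indexed by `ι`) containing the identity, subject to
(TA1)-(TA4). The coefficient `b_{ijm}` is `B.repr (B i * B j) m`. -/
structure TableAlgebra (ι : Type u) (A : Type v) [CommRing A] [Algebra ℂ A] where
  /-- the index set is finite or countably infinite -/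
  countable : Countable ι
  /-- the basis -/
  B : Module.Basis ι ℂ A
  /-- the index of the identity -/
  one : ι
  B_one : B one = 1
  /-- (TA1): the structure constants are nonnegative real numbers -/
  ta1 : ∀ i j m, ∃ r : ℝ, 0 ≤ r ∧ B.repr (B i * B j) m = (r : ℂ)
  /-- (TA2): the automorphism `a ↦ ā` -/
  conj : A ≃ₐ[ℂ] A
  conj_conj : ∀ a, conj (conj a) = a
  /-- the induced map `i ↦ ī` on indices -/
  bar : ι → ι
  conj_B : ∀ i, conj (B i) = B (bar i)
  /-- (TA3) -/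
  ta3 : ∃ g : ι → ι → ℝ, (∀ i m, 0 < g i m) ∧
    ∀ i j m, B.repr (B i * B j) m = (g i m : ℂ) * B.repr (B (bar j) * B m) i
  /-- (TA4): the degree homomorphism -/
  deg : A →ₐ[ℂ] ℂ
  deg_B : ∀ i, ∃ r : ℝ, 0 < r ∧ deg (B i) = (r : ℂ) ∧ deg (B (bar i)) = (r : ℂ)
  deg_unique : ∀ φ : A →ₐ[ℂ] ℂ,
    (∀ i, ∃ r : ℝ, 0 < r ∧ φ (B i) = (r : ℂ) ∧ φ (B (bar i)) = (r : ℂ)) → φ = deg

namespace TableAlgebra

variable {ι : Type u} {A : Type v} [CommRing A] [Algebra ℂ A] (T : TableAlgebra ι A)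

/-- `(A, B)` is a C-NITA: `b_{i ī 1} = 1`, all degrees are positive integers, all structure
constants are nonnegative integers. -/
structure IsCNITA : Prop where
  unit : ∀ i, T.B.repr (T.B i * T.B (T.bar i)) T.one = 1
  deg_nat : ∀ i, ∃ d : ℕ, 0 < d ∧ T.deg (T.B i) = (d : ℂ)
  coeff_nat : ∀ i j m, ∃ k : ℕ, T.B.repr (T.B i * T.B j) m = (k : ℂ)

/-- The basis element `B i` is faithful: each basis element occurs in some power of it. -/
def Faithful (i : ι) : Prop := ∀ j, ∃ m : ℕ, T.B.repr (T.B i ^ m) j ≠ 0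

/-- The standing assumptions of the problem: `(A, B)` is a C-NITA, `b₃ = B i₃` is faithful,
non-real, of degree 3, and `b₃² = b̄₃ + b₆` with `b₆ ∈ B`. -/
structure Setting (i₃ : ι) : Prop where
  cnita : T.IsCNITA
  faithful : T.Faithful i₃
  nonreal : T.bar i₃ ≠ i₃
  degree : T.deg (T.B i₃) = 3
  square : ∃ i₆, T.B i₃ ^ 2 = T.B (T.bar i₃) + T.B i₆

/-- The element `b_(k,i)` of `A`, with the convention `b_(-1,i) = b_(2i+1,i) = 0`. -/
noncomputable def entry (b : ℤ → ℤ → ι) (k i : ℤ) : A :=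
  if 1 ≤ k ∧ k ≤ 2 * i - 1 then T.B (b k i) else 0

/-- The family `b_(k,i)` (`1 ≤ i ≤ t + 1`, `k` odd, `1 ≤ k ≤ 2 i - 1`) is an array `C_t`.
Values of `b` at other indices are irrelevant. -/
structure IsArray (i₃ : ι) (t : ℕ) (b : ℤ → ℤ → ι) : Prop where
  b_one : b 1 1 = T.one
  b_three : b 1 2 = i₃
  b_conj : ∀ k i : ℤ, 1 ≤ i → i ≤ t + 1 → Odd k → 1 ≤ k → k ≤ 2 * i - 1 →
    b k i = T.bar (b (2 * i - k) i)
  mul_b : ∀ k i : ℤ, 2 ≤ i → i ≤ t → Odd k → 1 ≤ k → k ≤ 2 * i - 1 →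
    T.B i₃ * T.B (b k i) = T.entry b (k - 2) (i - 1) + T.entry b (k + 2) i + T.entry b k (i + 1)

/-- There is an array `C_t`. -/
def HasArray (i₃ : ι) (t : ℕ) : Prop := ∃ b : ℤ → ℤ → ι, T.IsArray i₃ t b

/-- The stopping number is `n`: an array `C_n` exists but no array `C_{n+1}` does. -/
def StoppingNumber (i₃ : ι) (n : ℕ) : Prop := 2 ≤ n ∧ T.HasArray i₃ n ∧ ¬ T.HasArray i₃ (n + 1)

end TableAlgebra

end H39.CNITA
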