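import Pool.Agent.H39.CN.RG

namespace H39.CN

open Finset

/-- the parameters fit the problem -/
structure PrmOK (p : Prm) (n N : ℕ) : Prop where
  good : GoodP p
  n_eq : p.n = n
  N_eq : p.N = N
  n_le : n ≤ 42

/-- static data of the names -/
structure Base (p : Prm) {n N : ℕ} (R : RG n N) (s : St) (val : ℕ → R.E) (x : ℕ → ℕ) : Prop where
  n_lt : n < s.nn
  nn_le : s.nn ≤ 128
  nv_le : s.nv ≤ p.NV
  nv_le' : s.nv ≤ s.nn
  inj : ∀ i < s.nn, ∀ j < s.nn, val i = val j → i = j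
  valV : ∀ i ≤ n, val i = R.V i
  cj_lt : ∀ i < s.nn, cj s i < s.nn
  val_cj : ∀ i < s.nn, val (cj s i) = R.c (val i)
  val_g : ∀ i < s.nn, R.g (val i) = gr s i
  vr_lt : ∀ i < s.nn, n < i → vr s i < s.nv
  val_d : ∀ i < s.nn, n < i → R.d (val i) = x (vr s i)
  x_pos : ∀ v, 1 ≤ x v
  c0 : ∀ i, s.nn ≤ i → dgt 8 s.c i = 0
  vr0 : ∀ i, s.nn ≤ i → dgt 8 s.vr i = 0
  gr0 : ∀ i, s.nn ≤ i → dgt 2 s.gr i = 0

/-- meaning of a packed row -/
def ARep (p : Prm) {n N : ℕ} (R : RG n N) (s : St) (val : ℕ → R.E) (x : ℕ → ℕ) (i : ℕ) : Prop :=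
  ∃ f c, aRow p s i = pk p.NV f c ∧
    (∀ v < p.NV, f v ≤ 3 + ∑ t ∈ range s.nn, dg s.M (ix i t)) ∧
    (∀ v < p.NV, s.nv ≤ v → f v = 3) ∧
    c ≤ 131072 + 16384 * ∑ t ∈ range s.nn, dg s.M (ix i t) ∧
    ev p.NV x f c + 3 * R.d (val i) =
      evO p.NV x + ∑ t ∈ range s.nn, dg s.M (ix i t) * R.d (val t) + R.hd (val i)

/-- the state describes the structure -/
structure Holds (p : Prm) {n N : ℕ} (R : RG n N) (s : St) (val : ℕ → R.E) (x : ℕ → ℕ) : Prop where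
  base : Base p R s val x
  lo : ∀ i < s.nn, ∀ j < s.nn, dg s.M (ix i j) ≤ R.m (val i) (val j)
  los : ∀ i < s.nn, ∀ j < s.nn, dg s.M (ix (cj s j) (cj s i)) = dg s.M (ix i j)
  lo0 : ∀ i < 128, ∀ j < 128, (s.nn ≤ i ∨ s.nn ≤ j) → dg s.M (ix i j) = 0
  hi : ∀ i < s.nn, ∀ j < s.nn, R.m (val i) (val j) + dg s.D (ix i j) ≤ 3
  his : ∀ i < s.nn, ∀ j < s.nn, dg s.D (ix (cj s j) (cj s i)) = dg s.D (ix i j)
  hi0 : ∀ i < 128, ∀ j < 128, (s.nn ≤ i ∨ s.nn ≤ j) → dg s.D (ix i j) = 0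
  ex1 : ∀ i < s.nn, tb s.ex i = true → ∀ j < s.nn, R.m (val i) (val j) = dg s.M (ix i j)
  ex2 : ∀ i < s.nn, tb s.ex i = true → ∀ w, (∀ j < s.nn, val j ≠ w) → R.m (val i) w = 0
  exc : ∀ j < s.nn, tb s.exc j = true → tb s.ex (cj s j) = true
  ex0 : ∀ i, s.nn ≤ i → tb s.ex i = false
  exc0 : ∀ i, s.nn ≤ i → tb s.exc i = false
  A : ∀ i < s.nn, ARep p R s val x i
  A0 : ∀ i, s.nn ≤ i → aRow p s i = 0

lemma dV_le {n j : ℕ} (hn : n ≤ 42) (hj : j ≤ n) : dV n j ≤ 16384 := by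
  show (n + 1 - j) * (j + 1) * (n + 1 + 1) / 2 ≤ 16384
  apply Nat.div_le_of_le_mul
  obtain ⟨k, rfl⟩ := Nat.exists_eq_add_of_le hj
  have h1 : j + k + 1 - j = k + 1 := by omega
  rw [h1]
  have h2 : (k + 1) * (j + 1) ≤ 484 := by nlinarith [sq_nonneg ((k:ℤ) - j)]
  nlinarith

lemma nat_shl (a b : ℕ) : Nat.shiftLeft a b = a * 2 ^ b := by
  show a <<< b = _
  rw [Nat.shiftLeft_eq]

variable {p : Prm} {n N : ℕ} {R : RG n N} {s : St} {val : ℕ → R.E} {x : ℕ → ℕ}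

lemma Base.cj_cj (h : Base p R s val x) {i : ℕ} (hi : i < s.nn) : cj s (cj s i) = i := by
  apply h.inj _ (h.cj_lt _ (h.cj_lt _ hi)) _ hi
  rw [h.val_cj _ (h.cj_lt _ hi), h.val_cj _ hi, R.c_c]

lemma Base.not_V (h : Base p R s val x) {i : ℕ} (hi : i < s.nn) (hni : n < i) :
    ∀ b ≤ n, val i ≠ R.V b := by
  intro b hb e
  rw [← h.valV b hb] at e
  have := h.n_lt
  have := h.inj _ hi _ (by omega) e
  omega

lemma Base.m_sym (h : Base p R s val x) {i j : ℕ} (hi : i < s.nn) (hj : j < s.nn) :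
    R.m (val (cj s j)) (val (cj s i)) = R.m (val i) (val j) := by
  rw [h.val_cj _ hi, h.val_cj _ hj, R.m_c]

/-- meaning of the packed degree of a name -/
lemma unit_rep (hp : PrmOK p n N) (h : Base p R s val x) {j : ℕ} (hj : j < s.nn) :
    ∃ f c, unit p s j = pk p.NV f c ∧ (∀ v, f v ≤ 1) ∧ (∀ v, s.nv ≤ v → f v = 0) ∧
      c ≤ 16384 ∧ ev p.NV x f c = R.d (val j) := by
  unfold unit
  by_cases hjn : j ≤ n
  · have hb : Nat.ble j p.n = true := Nat.ble_eq_true_of_le (by rw [hp.n_eq]; exact hjn)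
    rw [hb]
    refine ⟨fun _ => 0, dV n j, ?_, by simp, by simp, dV_le hp.n_le hjn, ?_⟩
    · show Nat.shiftLeft (dV p.n j) (48 * p.NV) = _
      rw [nat_shl, hp.n_eq, pow_mul]; simp [pk]
    · rw [h.valV j hjn, R.V_d j hjn]; simp [ev]
  · have hb : Nat.ble j p.n = false := by
      rw [hp.n_eq]
      rcases hh : Nat.ble j n with _ | _
      · rfl
      · exact absurd (Nat.le_of_ble_eq_true hh) hjn
    rw [hb]
    push Not at hjn
    have hv := h.vr_lt j hj hjn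
    have hv2 := h.nv_le
    refine ⟨fun v => if v = vr s j then 1 else 0, 0, ?_, fun v => ?_, fun v hv => ?_, by simp, ?_⟩
    · show Nat.shiftLeft 1 (48 * vr s j) = _
      rw [nat_shl, pow_mul]
      simp only [pk, zero_mul, add_zero, ite_mul, one_mul]
      rw [sum_ite_eq' (range p.NV) (vr s j), if_pos (mem_range.2 (by omega))]
    · show (if v = vr s j then 1 else 0) ≤ 1
      split_ifs <;> simp
    · show (if v = vr s j then 1 else 0) = 0
      rw [if_neg]; omega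
    · rw [h.val_d j hj hjn]
      simp only [ev, add_zero, ite_mul, zero_mul, one_mul]
      rw [sum_ite_eq' (range p.NV) (vr s j), if_pos (mem_range.2 (by omega))]

lemma pk_sum (m k : ℕ) (a : ℕ → ℕ) (F : ℕ → ℕ → ℕ) (C : ℕ → ℕ) :
    ∑ t ∈ range k, a t * pk m (F t) (C t) =
      pk m (fun v => ∑ t ∈ range k, a t * F t v) (∑ t ∈ range k, a t * C t) := by
  induction k with
  | zero => simp [pk]
  | succ k ih =>
    rw [sum_range_succ, ih, pk_smul, pk_add]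
    simp only [sum_range_succ]

lemma ev_sum (m k : ℕ) (a : ℕ → ℕ) (F : ℕ → ℕ → ℕ) (C : ℕ → ℕ) :
    ev m x (fun v => ∑ t ∈ range k, a t * F t v) (∑ t ∈ range k, a t * C t) =
      ∑ t ∈ range k, a t * ev m x (F t) (C t) := by
  induction k with
  | zero => simp [ev]
  | succ k ih =>
    rw [sum_range_succ (fun t => a t * ev m x (F t) (C t)), ← ih, ← ev_smul, ← ev_add]
    simp only [sum_range_succ]

/-- row sums are at most nine -/
lemma Base.row_sum (h : Base p R s val x) {L : ℕ → ℕ} {i : ℕ}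
    (hL : ∀ t < s.nn, L t ≤ R.m (val i) (val t)) : ∑ t ∈ range s.nn, L t ≤ 9 := by
  refine le_trans ?_ (R.row_le (val i))
  have := R.sum_le h.inj (val i) (fun _ => 1)
  simp only [mul_one] at this
  exact le_trans (sum_le_sum fun t ht => hL t (mem_range.1 ht)) this

/-- adding units to a packed row -/
lemma arep_add (hp : PrmOK p n N) (h : Holds p R s val x) {i : ℕ} (hi : i < s.nn) (δ : ℕ → ℕ) :
    ∃ f c, aRow p s i + ∑ t ∈ range s.nn, δ t * unit p s t = pk p.NV f c ∧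
    (∀ v < p.NV, f v ≤ 3 + ∑ t ∈ range s.nn, (dg s.M (ix i t) + δ t)) ∧
    (∀ v < p.NV, s.nv ≤ v → f v = 3) ∧
    c ≤ 131072 + 16384 * ∑ t ∈ range s.nn, (dg s.M (ix i t) + δ t) ∧
    ev p.NV x f c + 3 * R.d (val i) =
      evO p.NV x + ∑ t ∈ range s.nn, (dg s.M (ix i t) + δ t) * R.d (val t) + R.hd (val i) := by
  obtain ⟨f, c, h1, h2, h3, h4, h5⟩ := h.A i hi
  have hu : ∀ t, ∃ f c, t < s.nn → unit p s t = pk p.NV f c ∧ (∀ v, f v ≤ 1) ∧
      (∀ v, s.nv ≤ v → f v = 0) ∧ c ≤ 16384 ∧ ev p.NV x f c = R.d (val t) := fun t => by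
    by_cases ht : t < s.nn
    · obtain ⟨f, c, h⟩ := unit_rep hp h.base ht
      exact ⟨f, c, fun _ => h⟩
    · exact ⟨fun _ => 0, 0, fun h => absurd h ht⟩
  choose F C hFC using hu
  have e1 : ∑ t ∈ range s.nn, δ t * unit p s t = ∑ t ∈ range s.nn, δ t * pk p.NV (F t) (C t) :=
    sum_congr rfl fun t ht => by rw [(hFC t (mem_range.1 ht)).1]
  refine ⟨fun v => f v + ∑ t ∈ range s.nn, δ t * F t v,
    c + ∑ t ∈ range s.nn, δ t * C t, ?_, ?_, ?_, ?_, ?_⟩
  · rw [e1, pk_sum, h1, pk_add]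
  · intro v hv
    rw [sum_add_distrib]
    have := h2 v hv
    have h6 : ∑ t ∈ range s.nn, δ t * F t v ≤ ∑ t ∈ range s.nn, δ t :=
      sum_le_sum fun t ht => by
        have := (hFC t (mem_range.1 ht)).2.1 v
        calc δ t * F t v ≤ δ t * 1 := Nat.mul_le_mul_left _ this
          _ = δ t := mul_one _
    show f v + ∑ t ∈ range s.nn, δ t * F t v ≤ _
    omega
  · intro v hv hv2
    have h6 : ∑ t ∈ range s.nn, δ t * F t v = 0 :=
      sum_eq_zero fun t ht => by rw [(hFC t (mem_range.1 ht)).2.2.1 v hv2, mul_zero]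
    show f v + ∑ t ∈ range s.nn, δ t * F t v = _
    rw [h6, h3 v hv hv2]
  · rw [sum_add_distrib]
    have h6 : ∑ t ∈ range s.nn, δ t * C t ≤ 16384 * ∑ t ∈ range s.nn, δ t := by
      rw [mul_sum]
      exact sum_le_sum fun t ht => by
        have := (hFC t (mem_range.1 ht)).2.2.2.1
        calc δ t * C t ≤ δ t * 16384 := Nat.mul_le_mul_left _ this
          _ = _ := mul_comm _ _
    omega
  · rw [ev_add, ev_sum]
    simp only [add_mul, sum_add_distrib]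
    have h6 : ∑ t ∈ range s.nn, δ t * ev p.NV x (F t) (C t) =
        ∑ t ∈ range s.nn, δ t * R.d (val t) :=
      sum_congr rfl fun t ht => by rw [(hFC t (mem_range.1 ht)).2.2.2.2]
    omega

lemma pk_lt_sa {f : ℕ → ℕ} {c : ℕ} (hf : ∀ v < p.NV, f v < 2 ^ 48) (hc : c < 2 ^ 48) :
    pk p.NV f c < 2 ^ sa p := by
  have h1 := pk_lt f p.NV hf
  have e : 2 ^ sa p = 2 ^ 48 * (2 ^ 48) ^ p.NV := by
    show 2 ^ (48 * (p.NV + 1)) = _
    rw [mul_add, pow_add, pow_mul]; ring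
  rw [e]
  unfold pk
  calc _ < (2 ^ 48) ^ p.NV + c * (2 ^ 48) ^ p.NV := by omega
    _ = (c + 1) * (2 ^ 48) ^ p.NV := by ring
    _ ≤ 2 ^ 48 * (2 ^ 48) ^ p.NV := Nat.mul_le_mul_right _ hc

/-- no overflow when adding units -/
lemma arow_lt (hp : PrmOK p n N) (h : Holds p R s val x) {i : ℕ} (hi : i < s.nn) (δ : ℕ → ℕ)
    (hδ : ∀ t < s.nn, dg s.M (ix i t) + δ t ≤ R.m (val i) (val t)) :
    aRow p s i + ∑ t ∈ range s.nn, δ t * unit p s t < 2 ^ sa p := by
  obtain ⟨f, c, h1, h2, -, h4, -⟩ := arep_add hp h hi δ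
  have h9 := h.base.row_sum hδ
  rw [h1]
  apply pk_lt_sa
  · intro v hv
    have := h2 v hv
    have e : (2:ℕ) ^ 48 = 281474976710656 := by norm_num
    omega
  · have e : (2:ℕ) ^ 48 = 281474976710656 := by norm_num
    omega

@[simp] lemma updMA_nn (a b : ℕ) : (updMA s a b).nn = s.nn := rfl
@[simp] lemma updMA_nv (a b : ℕ) : (updMA s a b).nv = s.nv := rfl
@[simp] lemma updMA_c (a b : ℕ) : (updMA s a b).c = s.c := rfl
@[simp] lemma updMA_vr (a b : ℕ) : (updMA s a b).vr = s.vr := rfl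
@[simp] lemma updMA_gr (a b : ℕ) : (updMA s a b).gr = s.gr := rfl
@[simp] lemma updMA_ex (a b : ℕ) : (updMA s a b).ex = s.ex := rfl
@[simp] lemma updMA_exc (a b : ℕ) : (updMA s a b).exc = s.exc := rfl
@[simp] lemma updMA_M (a b : ℕ) : (updMA s a b).M = s.M + a := rfl
@[simp] lemma updMA_D (a b : ℕ) : (updMA s a b).D = s.D := rfl
@[simp] lemma updMA_A (a b : ℕ) : (updMA s a b).A = s.A + b := rfl

/-- the static data only depend on the static fields -/
lemma Base.congr {s' : St} (h : Base p R s val x) (h1 : s'.nn = s.nn) (h2 : s'.nv = s.nv)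
    (h3 : s'.c = s.c) (h4 : s'.vr = s.vr) (h5 : s'.gr = s.gr) : Base p R s' val x := by
  have e1 : ∀ i, cj s' i = cj s i := fun i => by rw [cj_eq, cj_eq, h3]
  have e2 : ∀ i, vr s' i = vr s i := fun i => by rw [vr_eq, vr_eq, h4]
  have e3 : ∀ i, gr s' i = gr s i := fun i => by rw [gr_eq, gr_eq, h5]
  constructor
  · rw [h1]; exact h.n_lt
  · rw [h1]; exact h.nn_le
  · rw [h2]; exact h.nv_le
  · rw [h1, h2]; exact h.nv_le'
  · rw [h1]; exact h.inj
  · exact h.valV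
  · simp only [h1, e1]; exact h.cj_lt
  · simp only [h1, e1]; exact h.val_cj
  · simp only [h1, e3]; exact h.val_g
  · simp only [h1, h2, e2]; exact h.vr_lt
  · simp only [h1, e2]; exact h.val_d
  · exact h.x_pos
  · rw [h1, h3]; exact h.c0
  · rw [h1, h4]; exact h.vr0
  · rw [h1, h5]; exact h.gr0

/-- general update of the lower bounds -/
lemma holds_MA (hp : PrmOK p n N) (h : Holds p R s val x) (a b : ℕ) (δ : ℕ → ℕ → ℕ)
    (h1 : ∀ i < 128, ∀ j < 128, dg (s.M + a) (ix i j) = dg s.M (ix i j) + δ i j)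
    (h2 : ∀ i < s.nn, ∀ j < s.nn, dg s.M (ix i j) + δ i j ≤ R.m (val i) (val j))
    (h3 : ∀ i < s.nn, ∀ j < s.nn, δ (cj s j) (cj s i) = δ i j)
    (h4 : ∀ i < 128, ∀ j < 128, (s.nn ≤ i ∨ s.nn ≤ j) → δ i j = 0)
    (h5 : ∀ i < s.nn, aRow p (updMA s a b) i = aRow p s i + ∑ t ∈ range s.nn, δ i t * unit p s t)
    (h6 : ∀ i, s.nn ≤ i → aRow p (updMA s a b) i = 0) :
    Holds p R (updMA s a b) val x := by
  have hnn := h.base.nn_le
  have hM : ∀ i < s.nn, ∀ j < s.nn, dg (updMA s a b).M (ix i j) = dg s.M (ix i j) + δ i j :=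
    fun i hi j hj => h1 i (by omega) j (by omega)
  constructor
  · exact h.base.congr rfl rfl rfl rfl rfl
  · intro i hi j hj
    rw [hM i hi j hj]
    exact h2 i hi j hj
  · intro i hi j hj
    change dg (updMA s a b).M (ix (cj s j) (cj s i)) = _
    rw [hM _ (h.base.cj_lt _ hj) _ (h.base.cj_lt _ hi), hM i hi j hj, h3 i hi j hj,
      h.los i hi j hj]
  · intro i hi j hj hij
    change dg (s.M + a) (ix i j) = 0
    rw [h1 i hi j hj, h.lo0 i hi j hj hij, h4 i hi j hj hij]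
  · exact h.hi
  · exact h.his
  · exact h.hi0
  · intro i hi hx j hj
    rw [hM i hi j hj]
    have e := h.ex1 i hi hx j hj
    have e2 := h2 i hi j hj
    omega
  · exact h.ex2
  · exact h.exc
  · exact h.ex0
  · exact h.exc0
  · intro i hi
    obtain ⟨f, c, g1, g2, g3, g4, g5⟩ := arep_add hp h hi (δ i)
    refine ⟨f, c, ?_, ?_, g3, ?_, ?_⟩
    · rw [h5 i hi, g1]
    · intro v hv
      have := g2 v hv
      rwa [← sum_congr rfl fun t ht => hM i hi t (mem_range.1 ht)] at this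
    · rwa [← sum_congr rfl fun t ht => hM i hi t (mem_range.1 ht)] at g4
    · rwa [← sum_congr rfl fun t ht => congrArg (· * R.d (val t)) (hM i hi t (mem_range.1 ht))] at g5
  · exact h6

end H39.CN
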