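import Pool.Agent.H39.CN.Ops2

namespace H39.CN

open Finset

universe u

/-- the initial state is right -/
structure InitOK (p : Prm) (s : St) (n : ℕ) : Prop where
  nn : s.nn = n + 1
  nv : s.nv = 0
  vr : s.vr = 0
  ex : s.ex = 0
  exc : s.exc = 0
  c : ∀ i, i < n + 1 → cj s i = n - i
  c_lt : s.c < 2 ^ (8 * (n + 1))
  g : ∀ i, i < n + 1 → gr s i = (n + i) % 3
  g_lt : s.gr < 2 ^ (2 * (n + 1))
  M : ∀ i, i < n + 1 → row s.M i = if i < n then 4 ^ (i + 1) else 0
  M_lt : s.M < 2 ^ (256 * (n + 1))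
  D : ∀ i, i < n + 1 → ∀ j, j < n + 1 → dg s.D (ix i j) =
    if n = 4 ∧ i = 0 ∧ j = 4 then 0 else if j = i + 1 then 2 else 3
  D_row : ∀ i, i < n + 1 → row s.D i < 4 ^ (n + 1)
  D_lt : s.D < 2 ^ (256 * (n + 1))
  A : ∀ i, i < n + 1 → aRow p s i + 3 * dV n i * (2 ^ 48) ^ p.NV =
    p.OFF + (hid n i + if i < n then dV n (i + 1) else 0) * (2 ^ 48) ^ p.NV
  A_lt : s.A < 2 ^ (sa p * (n + 1))

lemma dgt_zero_of_lt {b X k j : ℕ} (h : X < 2 ^ (b * k)) (hk : k ≤ j) : dgt b X j = 0 := by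
  unfold dgt
  rw [Nat.div_eq_of_lt, Nat.zero_mod]
  exact lt_of_lt_of_le h (Nat.pow_le_pow_right (by norm_num) (Nat.mul_le_mul_left _ hk))

lemma dg_pow (k t : ℕ) : dg (4 ^ k) t = if t = k then 1 else 0 := by
  have h := dgt_add (s := 2) (X := 0) (k := k) (δ := 1) (by simp [dgt]) t
  have e : (4:ℕ) ^ k = 0 + 1 * 2 ^ (2 * k) := by rw [pow_mul]; norm_num
  rw [dg_eq, e, h]
  simp [dgt]

lemma hid_le {n b : ℕ} (hn : n ≤ 42) (hb : b ≤ n) : hid n b ≤ 16384 := by
  unfold hid
  apply Nat.div_le_of_le_mul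
  obtain ⟨k, rfl⟩ := Nat.exists_eq_add_of_le hb
  have h1 : b + k + 1 - b = k + 1 := by omega
  rw [h1]
  have h2 : (k + 1) * b ≤ 462 := by nlinarith [sq_nonneg ((k:ℤ) + 1 - b)]
  nlinarith

variable {p : Prm} {n N : ℕ} {s : St}

lemma tb_zero (i : ℕ) : tb 0 i = false := by
  rw [tb_false_iff]; simp [dgt]

theorem holds_init (hp : PrmOK p n N) (hi : InitOK p s n) (R : RG.{u} n N) :
    Holds p R s R.V (fun _ => 1) := by
  have hn42 := hp.n_le
  have hMd : ∀ i, i < n + 1 → ∀ j < 128, dg s.M (ix i j) = if j = i + 1 ∧ i < n then 1 else 0 := by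
    intro i hi1 j hj
    have h1 := dgt_row s.M i j
    rw [if_pos hj] at h1
    rw [← h1, hi.M i hi1]
    split_ifs with h2 h3 h3
    · rw [dg_pow, if_pos h3.1]
    · rw [dg_pow, if_neg (by omega)]
    · omega
    · rw [dg_eq]; simp [dgt]
  have hM0 : ∀ i < 128, ∀ j < 128, (n + 1 ≤ i ∨ n + 1 ≤ j) → dg s.M (ix i j) = 0 := by
    intro i hi1 j hj hij
    by_cases h1 : i < n + 1
    · rw [hMd i h1 j hj, if_neg (by omega)]
    · rw [dg_eq]
      refine dgt_zero_of_lt (k := 128 * (n + 1)) ?_ ?_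
      · rw [← mul_assoc]; exact hi.M_lt
      · rw [ix_eq]; omega
  have hD0 : ∀ i < 128, ∀ j < 128, (n + 1 ≤ i ∨ n + 1 ≤ j) → dg s.D (ix i j) = 0 := by
    intro i hi1 j hj hij
    by_cases h1 : i < n + 1
    · have h2 := dgt_row s.D i j
      rw [if_pos hj] at h2
      rw [← h2, dg_eq]
      refine dgt_zero_of_lt (k := n + 1) ?_ (by omega)
      have h3 := hi.D_row i h1
      rw [pow_mul]; norm_num; exact h3
    · rw [dg_eq]
      refine dgt_zero_of_lt (k := 128 * (n + 1)) ?_ ?_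
      · rw [← mul_assoc]; exact hi.D_lt
      · rw [ix_eq]; omega
  have hcj : ∀ i, i < n + 1 → cj s i = n - i := hi.c
  refine ⟨⟨?_, ?_, ?_, ?_, ?_, ?_, ?_, ?_, ?_, ?_, ?_, ?_, ?_, ?_, ?_⟩,
    ?_, ?_, ?_, ?_, ?_, ?_, ?_, ?_, ?_, ?_, ?_, ?_, ?_⟩
  · rw [hi.nn]; omega
  · rw [hi.nn]; omega
  · rw [hi.nv]; omega
  · rw [hi.nv]; omega
  · rw [hi.nn]
    intro i h1 j h2 e
    exact R.V_inj i (by omega) j (by omega) e
  · intro i _; rfl
  · rw [hi.nn]
    intro i h1
    rw [hcj i h1]; omega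
  · rw [hi.nn]
    intro i h1
    rw [hcj i h1, R.V_c i (by omega)]
  · rw [hi.nn]
    intro i h1
    rw [hi.g i h1, R.V_g i (by omega)]
  · rw [hi.nn]
    intro i h1 h2; omega
  · rw [hi.nn]
    intro i h1 h2; omega
  · intro v; exact le_rfl
  · rw [hi.nn]
    intro i h1
    exact dgt_zero_of_lt hi.c_lt h1
  · rw [hi.vr]
    intro i _
    simp [dgt]
  · rw [hi.nn]
    intro i h1
    exact dgt_zero_of_lt hi.g_lt h1
  · rw [hi.nn]
    intro i h1 j h2
    rw [hMd i h1 j (by omega)]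
    split_ifs with h3
    · rw [R.VV i (by omega) j (by omega) (by omega), if_pos h3.1]
    · exact Nat.zero_le _
  · rw [hi.nn]
    intro i h1 j h2
    rw [hcj i h1, hcj j h2, hMd i h1 j (by omega), hMd (n - j) (by omega) (n - i) (by omega)]
    by_cases h3 : j = i + 1 ∧ i < n
    · rw [if_pos h3, if_pos (by omega)]
    · rw [if_neg h3, if_neg (by omega)]
  · rw [hi.nn]; exact hM0
  · rw [hi.nn]
    intro i h1 j h2
    rw [hi.D i h1 j h2]
    have h3 := R.m_le (R.V i) (R.V j)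
    split_ifs with h4 h5
    · omega
    · rw [R.VV i (by omega) j (by omega) h4, if_pos h5]
    · rw [R.VV i (by omega) j (by omega) h4, if_neg h5]
  · rw [hi.nn]
    intro i h1 j h2
    rw [hcj i h1, hcj j h2, hi.D i h1 j h2, hi.D (n - j) (by omega) (n - i) (by omega)]
    by_cases h3 : n = 4 ∧ i = 0 ∧ j = 4
    · rw [if_pos h3, if_pos (by omega)]
    · rw [if_neg h3, if_neg (by omega)]
      by_cases h4 : j = i + 1
      · rw [if_pos h4, if_pos (by omega)]
      · rw [if_neg h4, if_neg (by omega)]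
  · rw [hi.nn]; exact hD0
  · rw [hi.ex]
    intro i _ h1
    rw [tb_zero] at h1
    exact absurd h1 (by simp)
  · rw [hi.ex]
    intro i _ h1
    rw [tb_zero] at h1
    exact absurd h1 (by simp)
  · rw [hi.exc]
    intro i _ h1
    rw [tb_zero] at h1
    exact absurd h1 (by simp)
  · rw [hi.ex]
    intro i _
    exact tb_zero i
  · rw [hi.exc]
    intro i _
    exact tb_zero i
  · rw [hi.nn]
    intro i h1
    have hA := hi.A i h1
    have hd := dV_le hn42 (show i ≤ n by omega)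
    have hhid := hid_le hn42 (show i ≤ n by omega)
    have hrow : ∀ F : ℕ → ℕ, ∑ t ∈ range s.nn, dg s.M (ix i t) * F t =
        if i < n then F (i + 1) else 0 := by
      intro F
      rw [hi.nn]
      by_cases h2 : i < n
      · rw [if_pos h2, sum_eq_single_of_mem (i + 1) (mem_range.2 (by omega))]
        · rw [hMd i h1 _ (by omega), if_pos ⟨rfl, h2⟩, one_mul]
        · intro t ht hne
          rw [hMd i h1 t (by have := mem_range.1 ht; omega), if_neg (by omega), zero_mul]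
      · rw [if_neg h2]
        refine sum_eq_zero fun t ht => ?_
        rw [hMd i h1 t (by have := mem_range.1 ht; omega), if_neg (by omega), zero_mul]
    have hrow1 : ∑ t ∈ range s.nn, dg s.M (ix i t) = if i < n then 1 else 0 := by
      simpa using hrow (fun _ => 1)
    set y := hid n i + (if i < n then dV n (i + 1) else 0) with hy
    refine ⟨fun _ => 3, 65536 + y - 3 * dV n i, ?_, ?_, ?_, ?_, ?_⟩
    · rw [off_eq hp.good] at hA
      unfold pk at hA ⊢
      have e : 65536 * (2 ^ 48) ^ p.NV + y * (2 ^ 48) ^ p.NV =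
          (65536 + y - 3 * dV n i) * (2 ^ 48) ^ p.NV + 3 * dV n i * (2 ^ 48) ^ p.NV := by
        rw [← add_mul, ← add_mul]
        congr 1
        omega
      omega
    · intro v _; exact Nat.le_add_right _ _
    · intro v _ _; rfl
    · rw [hrow1]
      split_ifs with h2
      · have := dV_le hn42 (show i + 1 ≤ n by omega)
        rw [hy, if_pos h2]
        omega
      · rw [hy, if_neg h2]
        omega
    · rw [hrow, R.hd_V (by omega), R.V_d i (by omega)]
      unfold evO ev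
      by_cases h2 : i < n
      · rw [if_pos h2, R.V_d (i + 1) (by omega)]
        rw [if_pos h2] at hy
        omega
      · rw [if_neg h2]
        rw [if_neg h2] at hy
        omega
  · rw [hi.nn]
    intro i h1
    rw [aRow_eq]
    exact dgt_zero_of_lt hi.A_lt h1

theorem no_RG (hp : PrmOK p n N) (hi : InitOK p s n) (hb : Bad.{u} p n N s) (R : RG.{u} n N) :
    False := hb R R.V (fun _ => 1) (holds_init hp hi R)

end H39.CN
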