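import Pool.Agent.H39.CN.Num

namespace H39.CN

open Finset

/-- packed vector -/
def pk (m : ℕ) (F : ℕ → ℕ) (c : ℕ) : ℕ := ∑ v ∈ range m, F v * (2 ^ 48) ^ v + c * (2 ^ 48) ^ m

/-- evaluation of a vector -/
def ev (m : ℕ) (x F : ℕ → ℕ) (c : ℕ) : ℕ := ∑ v ∈ range m, F v * x v + c

/-- the parameters are consistent -/
def GoodP (p : Prm) : Prop :=
  p.OFF = geo 3 p.NV + 65536 * (2 ^ 48) ^ p.NV ∧ p.HM = geo (2 ^ 47) p.NV

lemma pk_add (m : ℕ) (F G : ℕ → ℕ) (c e : ℕ) :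
    pk m F c + pk m G e = pk m (fun v => F v + G v) (c + e) := by
  simp only [pk, add_mul, sum_add_distrib]; ring

lemma pk_smul (m : ℕ) (F : ℕ → ℕ) (c a : ℕ) : a * pk m F c = pk m (fun v => a * F v) (a * c) := by
  simp only [pk, mul_add, mul_sum, mul_assoc]

lemma ev_add (m : ℕ) (x F G : ℕ → ℕ) (c e : ℕ) :
    ev m x (fun v => F v + G v) (c + e) = ev m x F c + ev m x G e := by
  simp only [ev, add_mul, sum_add_distrib]; ring

lemma ev_smul (m : ℕ) (x F : ℕ → ℕ) (c a : ℕ) :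
    ev m x (fun v => a * F v) (a * c) = a * ev m x F c := by
  simp only [ev, mul_add, mul_sum, mul_assoc]

lemma off_eq {p : Prm} (h : GoodP p) : p.OFF = pk p.NV (fun _ => 3) 65536 := by
  rw [h.1, geo_eq]; rfl

/-- value of the offset -/
def evO (m : ℕ) (x : ℕ → ℕ) : ℕ := ev m x (fun _ => 3) 65536

/-- upper representation -/
def RepLE (m : ℕ) (x : ℕ → ℕ) (P L : ℕ) : Prop :=
  ∃ F c, P = pk m F c ∧ (∀ v < m, F v ≤ 16 * L) ∧ ev m x F c ≤ L * evO m x

/-- lower representation -/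
def RepGE (m : ℕ) (x : ℕ → ℕ) (Q U : ℕ) : Prop :=
  ∃ F c, Q = pk m F c ∧ (∀ v < m, F v ≤ 16 * U) ∧ U * evO m x ≤ ev m x F c

lemma RepLE.add {m : ℕ} {x : ℕ → ℕ} {P L Q U : ℕ} (h1 : RepLE m x P L) (h2 : RepLE m x Q U) :
    RepLE m x (P + Q) (L + U) := by
  obtain ⟨F, c, rfl, hF, hP⟩ := h1
  obtain ⟨G, e, rfl, hG, hQ⟩ := h2
  refine ⟨_, _, pk_add _ _ _ _ _, fun v hv => ?_, ?_⟩
  · have := hF v hv; have := hG v hv; omega
  · rw [ev_add, add_mul]; omega

lemma RepGE.add {m : ℕ} {x : ℕ → ℕ} {P L Q U : ℕ} (h1 : RepGE m x P L) (h2 : RepGE m x Q U) :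
    RepGE m x (P + Q) (L + U) := by
  obtain ⟨F, c, rfl, hF, hP⟩ := h1
  obtain ⟨G, e, rfl, hG, hQ⟩ := h2
  refine ⟨_, _, pk_add _ _ _ _ _, fun v hv => ?_, ?_⟩
  · have := hF v hv; have := hG v hv; omega
  · rw [ev_add, add_mul]; omega

lemma RepLE.smul {m : ℕ} {x : ℕ → ℕ} {P L : ℕ} (h1 : RepLE m x P L) (a : ℕ) :
    RepLE m x (a * P) (a * L) := by
  obtain ⟨F, c, rfl, hF, hP⟩ := h1
  refine ⟨_, _, pk_smul _ _ _ _, fun v hv => ?_, ?_⟩
  · have := Nat.mul_le_mul_left a (hF v hv); linarith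
  · rw [ev_smul, mul_assoc]; exact Nat.mul_le_mul_left a hP

lemma RepGE.smul {m : ℕ} {x : ℕ → ℕ} {P L : ℕ} (h1 : RepGE m x P L) (a : ℕ) :
    RepGE m x (a * P) (a * L) := by
  obtain ⟨F, c, rfl, hF, hP⟩ := h1
  refine ⟨_, _, pk_smul _ _ _ _, fun v hv => ?_, ?_⟩
  · have := Nat.mul_le_mul_left a (hF v hv); linarith
  · rw [ev_smul, mul_assoc]; exact Nat.mul_le_mul_left a hP

lemma bnd_true {a b : Bool} : bnd a b = true ↔ a = true ∧ b = true := by
  cases a <;> cases b <;> decide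

lemma bor_true {a b : Bool} : bor a b = true ↔ a = true ∨ b = true := by
  cases a <;> cases b <;> decide

lemma bno_true {a : Bool} : bno a = true ↔ a = false := by
  cases a <;> decide

lemma lpFin_false {p : Prm} (hp : GoodP p) {x : ℕ → ℕ} (hx : ∀ v, 1 ≤ x v) {P L Q U : ℕ}
    (h : lpFin p P L Q U = true) (h1 : RepLE p.NV x P L) (h2 : RepGE p.NV x Q U) : False := by
  obtain ⟨F, c, rfl, hF, hP⟩ := h1
  obtain ⟨G, e, rfl, hG, hQ⟩ := h2
  unfold lpFin at h
  rw [bnd_true] at h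
  obtain ⟨hb, h⟩ := h
  have hb : 16 * (L + U) ≤ 140737488355327 := Nat.le_of_ble_eq_true hb
  change lpFin1 p (48 * p.NV) (pk p.NV F c + U * p.OFF) (pk p.NV G e + L * p.OFF) = true at h
  rw [off_eq hp, pk_smul, pk_add, pk_smul, pk_add] at h
  set F' : ℕ → ℕ := fun v => F v + U * 3 with hF'
  set G' : ℕ → ℕ := fun v => G v + L * 3 with hG'
  set c' := c + U * 65536 with hc'
  set e' := e + L * 65536 with he'
  have hF'b : ∀ v < p.NV, F' v < 2 ^ 47 := fun v hv => by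
    have := hF v hv; simp only [hF']; norm_num; omega
  have hG'b : ∀ v < p.NV, G' v < 2 ^ 47 := fun v hv => by
    have := hG v hv; simp only [hG']; norm_num; omega
  obtain ⟨hF1, hF2⟩ := pk_top (b := 2 ^ 48) F' p.NV c' fun v hv =>
    lt_trans (hF'b v hv) (by norm_num)
  obtain ⟨hG1, hG2⟩ := pk_top (b := 2 ^ 48) G' p.NV e' fun v hv =>
    lt_trans (hG'b v hv) (by norm_num)
  unfold lpFin1 at h
  have hsh : Nat.shiftLeft 1 (48 * p.NV) = (2 ^ 48) ^ p.NV := by
    show 1 <<< (48 * p.NV) = _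
    rw [Nat.shiftLeft_eq, one_mul, pow_mul]
  have hsr : ∀ X, Nat.shiftRight X (48 * p.NV) = X / (2 ^ 48) ^ p.NV := fun X => by
    show X >>> (48 * p.NV) = _
    rw [Nat.shiftRight_eq_div_pow, pow_mul]
  rw [hsh, hsr, hsr] at h
  change lpFin2 p ((pk p.NV F' c' % (2 ^ 48) ^ p.NV + p.HM) - pk p.NV G' e' % (2 ^ 48) ^ p.NV)
    _ _ = true at h
  unfold pk at h
  rw [hF1, hF2, hG1, hG2] at h
  unfold lpFin2 at h
  rw [bnd_true] at h
  obtain ⟨h3, h4⟩ := h
  have h3 := Nat.eq_of_beq_eq_true h3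
  have h4 := Nat.le_of_ble_eq_true h4
  -- digits of Z
  have hZ : ∑ v ∈ range p.NV, F' v * (2 ^ 48) ^ v + p.HM - ∑ v ∈ range p.NV, G' v * (2 ^ 48) ^ v
      = ∑ v ∈ range p.NV, (F' v + 2 ^ 47 - G' v) * (2 ^ 48) ^ v := by
    rw [hp.2, geo_eq, ← sum_add_distrib]
    apply Nat.sub_eq_of_eq_add
    rw [← sum_add_distrib]
    refine sum_congr rfl fun v hv => ?_
    rw [← add_mul, ← add_mul]
    congr 1
    have := hG'b v (mem_range.1 hv)
    omega
  rw [hZ] at h3 h4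
  set Z : ℕ → ℕ := fun v => F' v + 2 ^ 47 - G' v with hZdef
  have hZb : ∀ v < p.NV, Z v < 2 ^ 48 := fun v hv => by
    have := hF'b v hv
    have e : (2:ℕ) ^ 48 = 2 ^ 47 + 2 ^ 47 := by norm_num
    simp only [hZdef]; omega
  have hge : ∀ v < p.NV, 2 ^ 47 ≤ Z v := fun v hv => by
    have hd := land_digit h3 (k := v) (by
      rw [hp.2, geo_eq]
      exact pk_digit (b := 2 ^ 48) (fun _ => 2 ^ 47) p.NV (fun _ _ => by norm_num) v hv)
    rwa [pk_digit (b := 2 ^ 48) Z p.NV hZb v hv] at hd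
  have hFG : ∀ v < p.NV, G' v ≤ F' v := fun v hv => by
    have := hge v hv
    simp only [hZdef] at this
    have := hG'b v hv
    omega
  have hsub : Nat.sub (∑ v ∈ range p.NV, Z v * (2 ^ 48) ^ v) p.HM
      = ∑ v ∈ range p.NV, (F' v - G' v) * (281474976710655 + 1) ^ v := by
    show (∑ v ∈ range p.NV, Z v * (2 ^ 48) ^ v) - p.HM = _
    rw [hp.2, geo_eq]
    apply Nat.sub_eq_of_eq_add
    rw [← sum_add_distrib]
    refine sum_congr rfl fun v hv => ?_
    have e : (281474976710655 + 1 : ℕ) = 2 ^ 48 := by norm_num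
    rw [e, ← add_mul]
    congr 1
    have := hFG v (mem_range.1 hv)
    simp only [hZdef]
    omega
  rw [hsub] at h4
  have h5 := pk_mod (fun v => F' v - G' v) p.NV 281474976710655
  have h6 : e' + 1 ≤ c' + ∑ v ∈ range p.NV, (F' v - G' v) := le_trans h4 (Nat.add_le_add_left h5 _)
  -- evaluation
  have h7 : ev p.NV x F' c' = ev p.NV x F c + U * evO p.NV x := by
    rw [hF', hc', ev_add]
    congr 1
    exact ev_smul p.NV x (fun _ => 3) 65536 U
  have h8 : ev p.NV x G' e' = ev p.NV x G e + L * evO p.NV x := by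
    rw [hG', he', ev_add]
    congr 1
    exact ev_smul p.NV x (fun _ => 3) 65536 L
  have h9 : ev p.NV x F' c' ≤ ev p.NV x G' e' := by rw [h7, h8]; omega
  have h10 : ∑ v ∈ range p.NV, F' v * x v = ∑ v ∈ range p.NV, G' v * x v
      + ∑ v ∈ range p.NV, (F' v - G' v) * x v := by
    rw [← sum_add_distrib]
    refine sum_congr rfl fun v hv => ?_
    rw [← add_mul]
    congr 1
    have := hFG v (mem_range.1 hv)
    omega
  have h11 : ∑ v ∈ range p.NV, (F' v - G' v) ≤ ∑ v ∈ range p.NV, (F' v - G' v) * x v :=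
    sum_le_sum fun v _ => Nat.le_mul_of_pos_right _ (hx v)
  unfold ev at h9
  omega

/-- row data of the linear programming check -/
structure Rows (p : Prm) (s : St) (x : ℕ → ℕ) : Prop where
  le : ∀ i, RepLE p.NV x (aRow p s i) 1
  ge : ∀ i, tb s.ex i = true → RepGE p.NV x (aRow p s i) 1

lemma lpGE_false {p : Prm} (hp : GoodP p) {s : St} {x : ℕ → ℕ} (hx : ∀ v, 1 ≤ x v)
    (hr : Rows p s x) {b P L k X : ℕ} (h : lpGE p s b P L k X = true)
    (h1 : RepLE p.NV x P L) : False := by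
  unfold lpGE at h
  have key : ∀ (k X Q U : ℕ), (Nat.rec (motive := fun _ => Nat → Nat → Nat → Bool)
    (fun _ Q U => lpFin p P L Q U)
    (fun _ ih X Q U => bnd (tb s.ex (Nat.mod X 128))
      (ih (Nat.shiftRight X b)
        (Nat.add Q (Nat.mul (Nat.shiftRight (Nat.mod X (Nat.shiftLeft 1 b)) 7)
          (aRow p s (Nat.mod X 128))))
        (Nat.add U (Nat.shiftRight (Nat.mod X (Nat.shiftLeft 1 b)) 7)))) k X Q U = true) →
      RepGE p.NV x Q U → False := by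
    intro k
    induction k with
    | zero => intro X Q U h hQ; exact lpFin_false hp hx h h1 hQ
    | succ k ih =>
      intro X Q U h hQ
      simp only at h
      rw [bnd_true] at h
      refine ih _ _ _ h.2 ?_
      have := (hr.ge _ h.1).smul (Nat.shiftRight (Nat.mod X (Nat.shiftLeft 1 b)) 7)
      rw [mul_one] at this
      exact hQ.add this
  exact key k X 0 0 h ⟨fun _ => 0, 0, by simp [pk], by simp, by simp⟩

lemma lpLE_false {p : Prm} (hp : GoodP p) {s : St} {x : ℕ → ℕ} (hx : ∀ v, 1 ≤ x v)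
    (hr : Rows p s x) {b k2 k X P L : ℕ} (h : lpLE p s b k2 k X P L = true)
    (h1 : RepLE p.NV x P L) : False := by
  unfold lpLE at h
  revert h h1
  induction k generalizing X P L with
  | zero => intro h h1; exact lpGE_false hp hx hr h h1
  | succ k ih =>
    intro h h1
    simp only at h
    refine ih h ?_
    have := (hr.le (Nat.mod X 128)).smul (Nat.shiftRight (Nat.mod X (Nat.shiftLeft 1 b)) 7)
    rw [mul_one] at this
    exact h1.add this

lemma repLE_zero (m : ℕ) (x : ℕ → ℕ) : RepLE m x 0 0 :=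
  ⟨fun _ => 0, 0, by simp [pk], by simp, by simp [ev]⟩

end H39.CN
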