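import Pool.Agent.H39.CN.New1

namespace H39.CN

open Finset

/-- the increasing list coded by `X`, starting from `b` -/
def tl : ℕ → ℕ → ℕ → List ℕ
  | 0, _, _ => []
  | k + 1, X, b => (b + X % 128) :: tl k (X >>> 7) (b + X % 128 + 1)

lemma tl_ge {t : ℕ} : ∀ {k X b : ℕ}, t ∈ tl k X b → b ≤ t
  | 0, _, _, h => by simp [tl] at h
  | k + 1, X, b, h => by
    simp only [tl, List.mem_cons] at h
    rcases h with h | h
    · omega
    · have := tl_ge h; omega

lemma tl_nodup : ∀ (k X b : ℕ), (tl k X b).Nodup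
  | 0, _, _ => by simp [tl]
  | k + 1, X, b => by
    simp only [tl, List.nodup_cons]
    refine ⟨fun h => ?_, tl_nodup _ _ _⟩
    have := tl_ge h
    omega

lemma loop_eq (F : ℕ → ℕ) (k : ℕ) : ∀ (X b acc : ℕ),
    Nat.rec (motive := fun _ => Nat → Nat → Nat → Nat) (fun _ _ acc => acc)
    (fun _ ih X b acc =>
      ih (Nat.shiftRight X 7) (Nat.succ (Nat.add b (Nat.mod X 128)))
        (Nat.add acc (F (Nat.add b (Nat.mod X 128))))) k X b acc =
      acc + ((tl k X b).map F).sum := by
  induction k with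
  | zero => intro X b acc; simp [tl]
  | succ k ih =>
    intro X b acc
    simp only [tl, List.map_cons, List.sum_cons]
    rw [ih, ← add_assoc]
    rfl

lemma dotL_eq (rp rq k X : ℕ) :
    dotL rp rq k X = ∑ t ∈ (tl k X 0).toFinset, dg rp t * dg rq t := by
  have h := loop_eq (fun t => dg rp t * dg rq t) k X 0 0
  rw [zero_add, ← List.sum_toFinset _ (tl_nodup k X 0)] at h
  exact h

lemma suppL_eq (rp k X : ℕ) :
    suppL rp k X = ∑ t ∈ (tl k X 0).toFinset, dg rp t * 4 ^ t := by
  have h := loop_eq (fun t => Nat.shiftLeft (dg rp t) (Nat.mul 2 t)) k X 0 0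
  rw [zero_add, ← List.sum_toFinset _ (tl_nodup k X 0)] at h
  refine Eq.trans h (sum_congr rfl fun t _ => ?_)
  rw [nat_shl]
  show _ * 2 ^ (2 * t) = _
  rw [pow_mul]
  norm_num

lemma dotH_eq (h : ℕ → ℕ) (rp k X : ℕ) :
    dotH h rp k X = ∑ t ∈ (tl k X 0).toFinset, dg rp t * h t := by
  have h1 := loop_eq (fun t => dg rp t * h t) k X 0 0
  rw [zero_add, ← List.sum_toFinset _ (tl_nodup k X 0)] at h1
  exact h1

/-- a sum over a set is at most the sum over `range 128` if the terms vanish beyond -/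
lemma sum_le_128 (S : Finset ℕ) (F : ℕ → ℕ) (h : ∀ t, 128 ≤ t → F t = 0) :
    ∑ t ∈ S, F t ≤ ∑ t ∈ range 128, F t := by
  classical
  calc ∑ t ∈ S, F t ≤ ∑ t ∈ S ∪ range 128, F t :=
        sum_le_sum_of_subset subset_union_left
    _ = ∑ t ∈ range 128, F t := by
        symm
        apply sum_subset subset_union_right
        intro t _ ht
        exact h t (by simpa using ht)

/-- full support -/
lemma supp_full {rp k X : ℕ} (hr : rp < 4 ^ 128) (h : suppL rp k X = rp) (t : ℕ) (ht : t < 128)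
    (htS : t ∉ (tl k X 0).toFinset) : dg rp t = 0 := by
  classical
  rw [suppL_eq] at h
  have hs := sum_dg rp 128
  rw [Nat.mod_eq_of_lt hr] at hs
  by_contra h0
  have h1 : 1 ≤ dg rp t := Nat.one_le_iff_ne_zero.2 h0
  have h2 : ∑ u ∈ insert t (tl k X 0).toFinset, dg rp u * 4 ^ u ≤ rp := by
    conv_rhs => rw [← hs]
    apply sum_le_128
    intro u hu
    have : dg rp u = 0 := by
      rw [dg_eq, dgt, Nat.div_eq_of_lt, Nat.zero_mod]
      calc rp < 4 ^ 128 := hr
        _ ≤ 4 ^ u := Nat.pow_le_pow_right (by norm_num) hu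
        _ = 2 ^ (2 * u) := by rw [pow_mul]; norm_num
    rw [this, zero_mul]
  rw [sum_insert htS, h] at h2
  have h3 : 0 < dg rp t * 4 ^ t := Nat.mul_pos h1 (pow_pos (by norm_num) t)
  generalize dg rp t * 4 ^ t = y at *
  omega

lemma full_sum {rp k X : ℕ} (hr : rp < 4 ^ 128) (h : suppL rp k X = rp) (F : ℕ → ℕ) :
    ∑ t ∈ range 128, dg rp t * F t ≤ ∑ t ∈ (tl k X 0).toFinset, dg rp t * F t := by
  classical
  calc ∑ t ∈ range 128, dg rp t * F t
      = ∑ t ∈ (range 128).filter (fun t => t ∈ (tl k X 0).toFinset), dg rp t * F t := by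
        rw [sum_filter]
        refine sum_congr rfl fun t ht => ?_
        split_ifs with h1
        · rfl
        · rw [supp_full hr h t (mem_range.1 ht) h1, zero_mul]
    _ ≤ _ := sum_le_sum_of_subset fun t ht => (mem_filter.1 ht).2

variable {p : Prm} {n N : ℕ} {R : RG n N} {s : St} {val : ℕ → R.E} {x : ℕ → ℕ}

/-- inner product -/
noncomputable def ip (R : RG n N) (u v : R.E) : ℕ := (R.m u).sum fun w k => k * R.m v w

lemma Holds.row_sum (h : Holds p R s val x) {i : ℕ} (hi : i < s.nn) (F : ℕ → ℕ) :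
    ∑ t ∈ range 128, dg (row s.M i) t * F t = ∑ t ∈ range s.nn, dg s.M (ix i t) * F t := by
  have hnn := h.base.nn_le
  have : ∀ t ∈ range 128, dg (row s.M i) t * F t = dg s.M (ix i t) * F t := fun t ht => by
    rw [dgt_row, if_pos (mem_range.1 ht)]
  rw [sum_congr rfl this]
  symm
  apply sum_subset (range_subset_range.2 hnn)
  intro t ht ht2
  rw [h.lo0 i (by omega) t (mem_range.1 ht) (Or.inr (by simpa using ht2)), zero_mul]

lemma dL_le (h : Holds p R s val x) {i j : ℕ} (hi : i < s.nn) (hj : j < s.nn) (k X : ℕ) :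
    dL s i j k X ≤ ip R (val i) (val j) := by
  unfold dL
  rw [dotL_eq]
  refine le_trans (sum_le_128 _ _ fun t ht => ?_) ?_
  · rw [dgt_row, if_neg (by omega), zero_mul]
  rw [h.row_sum hi]
  refine le_trans ?_ (R.sum_le h.base.inj (val i) (R.m (val j)))
  refine sum_le_sum fun t ht => ?_
  have ht := mem_range.1 ht
  rw [dgt_row, if_pos (by have := h.base.nn_le; omega)]
  exact Nat.mul_le_mul (h.lo i hi t ht) (h.lo j hj t ht)

lemma Holds.ip_exact (h : Holds p R s val x) {i : ℕ} (hi : i < s.nn) (hx : tb s.ex i = true)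
    (F : R.E → ℕ) : ((R.m (val i)).sum fun w k => k * F w) =
      ∑ t ∈ range s.nn, dg s.M (ix i t) * F (val t) := by
  rw [← R.sum_eq h.base.inj (val i) F]
  · exact sum_congr rfl fun t ht => by rw [h.ex1 i hi hx t (mem_range.1 ht)]
  · intro w hw
    rw [h.ex2 i hi hx w hw, zero_mul]

lemma hiAt_ge (h : Holds p R s val x) {q t : ℕ} (hq : q < s.nn) (ht : t < s.nn) :
    R.m (val q) (val t) ≤ hiAt (tb s.ex q) s.exc (row s.M q) (row s.D q) t := by
  unfold hiAt
  have hnn := h.base.nn_le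
  rcases hb : bor (tb s.ex q) (tb s.exc t) with _ | _
  · show _ ≤ 3 - dg (row s.D q) t
    rw [dgt_row, if_pos (by omega)]
    have := h.hi q hq t ht
    omega
  · show _ ≤ dg (row s.M q) t
    rw [dgt_row, if_pos (by omega)]
    rcases bor_true.1 hb with h1 | h1
    · rw [h.ex1 q hq h1 t ht]
    · have h2 := h.ex1 _ (h.base.cj_lt t ht) (h.exc t ht h1) _ (h.base.cj_lt q hq)
      rw [h.los q hq t ht, h.base.m_sym hq ht] at h2
      exact h2.le

lemma hi_ge (h : Holds p R s val x) {q t : ℕ} (hq : q < s.nn) (ht : t < s.nn) :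
    R.m (val q) (val t) ≤ hi s q t := by
  unfold hi
  rcases hb : bor (tb s.ex q) (tb s.exc t) with _ | _
  · show _ ≤ 3 - dg s.D (ix q t)
    have := h.hi q hq t ht
    omega
  · show _ ≤ dg s.M (ix q t)
    rcases bor_true.1 hb with h1 | h1
    · rw [h.ex1 q hq h1 t ht]
    · have h2 := h.ex1 _ (h.base.cj_lt t ht) (h.exc t ht h1) _ (h.base.cj_lt q hq)
      rw [h.los q hq t ht, h.base.m_sym hq ht] at h2
      exact h2.le

lemma full_iff {i k X : ℕ} (h : full s i k X = true) : suppL (row s.M i) k X = row s.M i :=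
  Nat.eq_of_beq_eq_true h

lemma dU_ge (h : Holds p R s val x) {i j : ℕ} (hi : i < s.nn) (hj : j < s.nn) {k X : ℕ}
    (hx : tb s.ex i = true) (hf : full s i k X = true) :
    ip R (val i) (val j) ≤ dU s i j k X := by
  unfold dU ip
  rw [dotH_eq, h.ip_exact hi hx]
  refine le_trans ?_ (full_sum (row_lt _ _) (full_iff hf) _)
  rw [h.row_sum hi]
  exact sum_le_sum fun t ht => Nat.mul_le_mul_left _ (hiAt_ge h hj (mem_range.1 ht))

lemma dL_ge (h : Holds p R s val x) {i : ℕ} (hi : i < s.nn) {k X : ℕ}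
    (hx : tb s.ex i = true) (hf : full s i k X = true) :
    ip R (val i) (val i) ≤ dL s i i k X := by
  unfold dL ip
  rw [dotL_eq, h.ip_exact hi hx]
  refine le_trans ?_ (full_sum (row_lt _ _) (full_iff hf) _)
  rw [h.row_sum hi]
  refine sum_le_sum fun t ht => Nat.mul_le_mul_left _ ?_
  have ht := mem_range.1 ht
  rw [dgt_row, if_pos (by have := h.base.nn_le; omega), h.ex1 i hi hx t ht]

lemma uSum_eq (g : ℕ) (h1 h2 : ℕ → ℕ) :
    uSum s g h1 h2 = ∑ t ∈ range s.nn, if gr s t = g then h1 t * h2 t else 0 := by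
  unfold uSum
  induction s.nn with
  | zero => rfl
  | succ k ih =>
    rw [sum_range_succ, ← ih]
    by_cases hg : gr s k = g
    · rw [if_pos hg]
      show Bool.rec (motive := fun _ => Nat) _ _ (Nat.beq (gr s k) g) = _
      rw [beq_true' hg]
      rfl
    · rw [if_neg hg]
      show Bool.rec (motive := fun _ => Nat) _ _ (Nat.beq (gr s k) g) = _
      rw [beq_false hg]
      rfl

lemma closed_iff {g i : ℕ} (h : closed s g i = true) :
    ∀ t < s.nn, gr s t = g → hi s i t ≤ dg s.M (ix i t) := by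
  unfold closed at h
  revert h
  induction s.nn with
  | zero => intro _ t ht; omega
  | succ k ih =>
    intro h t ht hg
    have h := bnd_true.1 h
    rcases Nat.lt_succ_iff_lt_or_eq.1 ht with ht | rfl
    · exact ih h.1 t ht hg
    · have h2 := h.2
      rw [beq_true' hg] at h2
      exact Nat.le_of_ble_eq_true h2

lemma uS_ge (h : Holds p R s val x) {i j g : ℕ} (hi : i < s.nn) (hj : j < s.nn)
    (hg : g = (gr s i + 1) % 3) :
    ∑ t ∈ range s.nn, R.m (val i) (val t) * R.m (val j) (val t) ≤ uS s g i j := by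
  unfold uS
  rw [uSum_eq]
  refine sum_le_sum fun t ht => ?_
  have ht := mem_range.1 ht
  split_ifs with hgt
  · exact Nat.mul_le_mul (hiAt_ge h hi ht) (hiAt_ge h hj ht)
  · have : R.m (val i) (val t) = 0 := by
      by_contra h0
      apply hgt
      rw [← h.base.val_g t ht, R.g_m _ _ h0, h.base.val_g i hi, hg]
    rw [this, zero_mul]

end H39.CN
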