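import Pool.Agent.H39.CN.Upd

namespace H39.CN

open Finset

variable {p : Prm} {n N : ℕ} {R : RG n N} {s : St} {val : ℕ → R.E} {x : ℕ → ℕ}

lemma pair_add {b X k u w : ℕ} (hu : u < 2 ^ b) (hw : w < 2 ^ b) (h0 : dgt b X k = 0)
    (h1 : dgt b X (k + 1) = 0) (j : ℕ) :
    dgt b (X + (u + 2 ^ b * w) * 2 ^ (b * k)) j =
      if j = k then u else if j = k + 1 then w else dgt b X j := by
  have e : X + (u + 2 ^ b * w) * 2 ^ (b * k) = (X + u * 2 ^ (b * k)) + w * 2 ^ (b * (k + 1)) := by
    rw [mul_add b k 1, pow_add]; ring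
  have h2 : ∀ j, dgt b (X + u * 2 ^ (b * k)) j = if j = k then u else dgt b X j := fun j => by
    rw [dgt_add (by omega), h0, zero_add]
  have h3 := dgt_add (s := b) (X := X + u * 2 ^ (b * k)) (k := k + 1) (δ := w)
    (by rw [h2, if_neg (by omega), h1]; omega) j
  rw [e, h3, h2 (k + 1), h2 j, if_neg (show k + 1 ≠ k by omega), h1, zero_add]
  split_ifs <;> first | rfl | omega

lemma single_add {b X k u : ℕ} (hu : u < 2 ^ b) (h0 : dgt b X k = 0) (j : ℕ) :
    dgt b (X + u * 2 ^ (b * k)) j = if j = k then u else dgt b X j := by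
  rw [dgt_add (by omega), h0, zero_add]

lemma newA_eq (hp : PrmOK p n N) {v : ℕ} (hv : v < p.NV) :
    newA p v = pk p.NV (fun u => if u = v then 0 else 3) 65536 := by
  show p.OFF - Nat.shiftLeft 3 (48 * v) = _
  rw [nat_shl, off_eq hp.good, pow_mul]
  apply Nat.sub_eq_of_eq_add
  unfold pk
  rw [← add_sum_erase _ _ (mem_range.2 hv), ← add_sum_erase _ _ (mem_range.2 hv)]
  simp only [if_true, zero_mul, zero_add]
  have : ∑ u ∈ (range p.NV).erase v, (if u = v then 0 else 3) * (2 ^ 48) ^ u =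
      ∑ u ∈ (range p.NV).erase v, 3 * (2 ^ 48) ^ u :=
    sum_congr rfl fun u hu => by rw [if_neg (ne_of_mem_erase hu)]
  rw [this]
  ring

lemma newA_lt (hp : PrmOK p n N) {v : ℕ} (hv : v < p.NV) : newA p v < 2 ^ sa p := by
  rw [newA_eq hp hv]
  apply pk_lt_sa
  · intro u _
    split_ifs <;> norm_num
  · norm_num

lemma ev_upd {m : ℕ} (f : ℕ → ℕ) (c k y : ℕ) (hk : k < m) :
    ev m (Function.update x k y) f c + f k * x k = ev m x f c + f k * y := by
  unfold ev
  rw [← add_sum_erase _ _ (mem_range.2 hk), ← add_sum_erase _ _ (mem_range.2 hk)]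
  have : ∑ u ∈ (range m).erase k, f u * Function.update x k y u =
      ∑ u ∈ (range m).erase k, f u * x u :=
    sum_congr rfl fun u hu => by rw [Function.update_of_ne (ne_of_mem_erase hu)]
  rw [this, Function.update_self]
  ring

/-- the packed row of a new name -/
lemma ev_new {m k y : ℕ} (hk : k < m) (x' : ℕ → ℕ) (hx : x' k = y) :
    ev m x' (fun u => if u = k then 0 else 3) 65536 + 3 * y = evO m x' := by
  unfold evO ev
  rw [← add_sum_erase _ _ (mem_range.2 hk), ← add_sum_erase _ _ (mem_range.2 hk)]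
  have : ∑ u ∈ (range m).erase k, (if u = k then 0 else 3) * x' u =
      ∑ u ∈ (range m).erase k, 3 * x' u :=
    sum_congr rfl fun u hu => by rw [if_neg (ne_of_mem_erase hu)]
  rw [this]
  simp only [if_true, zero_mul, zero_add, hx]
  ring

/-- extension of the naming by a pair -/
def ext2 (R : RG n N) (s : St) (val : ℕ → R.E) (w : R.E) (i : ℕ) : R.E :=
  if i = s.nn then w else if i = s.nn + 1 then R.c w else val i

lemma ext2_old {w : R.E} {i : ℕ} (hi : i < s.nn) : ext2 R s val w i = val i := by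
  unfold ext2
  rw [if_neg (by omega), if_neg (by omega)]

lemma ext2_0 {w : R.E} : ext2 R s val w s.nn = w := by
  unfold ext2
  rw [if_pos rfl]

lemma ext2_1 {w : R.E} : ext2 R s val w (s.nn + 1) = R.c w := by
  unfold ext2
  rw [if_neg (by omega), if_pos rfl]

lemma Base.c_not (h : Base p R s val x) {w : R.E} (hw : ∀ i < s.nn, val i ≠ w) :
    ∀ i < s.nn, val i ≠ R.c w := by
  intro i hi e
  apply hw (cj s i) (h.cj_lt i hi)
  rw [h.val_cj i hi, e, R.c_c]

lemma Base.new_not_V (h : Base p R s val x) {w : R.E} (hw : ∀ i < s.nn, val i ≠ w) :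
    ∀ b ≤ n, w ≠ R.V b := by
  intro b hb e
  apply hw b (by have := h.n_lt; omega)
  rw [h.valV b hb, e]

section new2

variable {g : ℕ} {w : R.E}

lemma cj_new2 (h : Base p R s val x) (hnn : s.nn + 2 ≤ 128) (i : ℕ) :
    cj (new2 p s g) i = if i = s.nn then s.nn + 1 else if i = s.nn + 1 then s.nn else cj s i := by
  rw [cj_eq, cj_eq]
  change dgt 8 (s.c + Nat.shiftLeft ((s.nn + 1) + 256 * s.nn) (8 * s.nn)) i = _
  rw [nat_shl]
  exact pair_add (b := 8) (by norm_num; omega) (by norm_num; omega) (h.c0 _ le_rfl)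
    (h.c0 _ (by omega)) i

lemma vr_new2 (h : Base p R s val x) (hnn : s.nn + 2 ≤ 128) (i : ℕ) :
    vr (new2 p s g) i = if i = s.nn then s.nv else if i = s.nn + 1 then s.nv else vr s i := by
  rw [vr_eq, vr_eq]
  change dgt 8 (s.vr + Nat.shiftLeft (257 * s.nv) (8 * s.nn)) i = _
  rw [nat_shl, show 257 * s.nv = s.nv + 2 ^ 8 * s.nv by ring]
  have := h.nv_le'
  exact pair_add (b := 8) (by norm_num; omega) (by norm_num; omega) (h.vr0 _ le_rfl)
    (h.vr0 _ (by omega)) i

lemma gr_new2 (h : Base p R s val x) (hg : g < 3) (i : ℕ) :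
    gr (new2 p s g) i = if i = s.nn then g else if i = s.nn + 1 then (3 - g) % 3 else gr s i := by
  rw [gr_eq, gr_eq]
  change dgt 2 (s.gr + Nat.shiftLeft (g + 2 ^ 2 * ((3 - g) % 3)) (2 * s.nn)) i = _
  rw [nat_shl]
  exact pair_add (b := 2) (by norm_num; omega) (by norm_num; omega) (h.gr0 _ le_rfl)
    (h.gr0 _ (by omega)) i

lemma aRow_new2 (hp : PrmOK p n N) (h : Holds p R s val x) (hv : s.nv < p.NV) (i : ℕ) :
    aRow p (new2 p s g) i = if i = s.nn then newA p s.nv else if i = s.nn + 1 then newA p s.nv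
      else aRow p s i := by
  rw [aRow_eq, aRow_eq]
  change dgt (sa p) (s.A + (Nat.shiftLeft (newA p s.nv) (sa p * s.nn) +
    Nat.shiftLeft (newA p s.nv) (sa p * (s.nn + 1)))) i = _
  rw [nat_shl, nat_shl]
  have e : s.A + (newA p s.nv * 2 ^ (sa p * s.nn) + newA p s.nv * 2 ^ (sa p * (s.nn + 1))) =
    s.A + (newA p s.nv + 2 ^ sa p * newA p s.nv) * 2 ^ (sa p * s.nn) := by
    rw [mul_add (sa p) s.nn 1, pow_add]; ring
  rw [e]
  have h1 := h.A0 s.nn le_rfl
  have h2 := h.A0 (s.nn + 1) (by omega)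
  rw [aRow_eq] at h1 h2
  exact pair_add (newA_lt hp hv) (newA_lt hp hv) h1 h2 i

lemma base_new2 (h : Base p R s val x) (hw : ∀ i < s.nn, val i ≠ w) (hc : R.c w ≠ w)
    (hnn : s.nn + 2 ≤ 128) (hv : s.nv < p.NV) (hg : R.g w = g) :
    Base p R (new2 p s g) (ext2 R s val w) (Function.update x s.nv (R.d w)) := by
  have hg3 : g < 3 := by rw [← hg]; exact R.g_lt w
  have hcw := h.c_not hw
  have enn : (new2 p s g).nn = s.nn + 2 := rfl
  have env : (new2 p s g).nv = s.nv + 1 := rfl
  have hcj := fun i => cj_new2 (p := p) (g := g) h hnn i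
  have hvr := fun i => vr_new2 (p := p) (g := g) h hnn i
  have hgr := fun i => gr_new2 (p := p) h hg3 i
  have key : ∀ i < s.nn + 2, i < s.nn ∨ i = s.nn ∨ i = s.nn + 1 := fun i hi => by omega
  have n_lt := h.n_lt
  have nv_le' := h.nv_le'
  refine ⟨?_, ?_, ?_, ?_, ?_, ?_, ?_, ?_, ?_, ?_, ?_, ?_, ?_, ?_, ?_⟩
  · rw [enn]; omega
  · rw [enn]; omega
  · rw [env]; omega
  · rw [enn, env]; omega
  · rw [enn]
    intro i hi j hj e
    rcases key i hi with hi | rfl | rfl <;> rcases key j hj with hj | rfl | rfl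
    · rw [ext2_old hi, ext2_old hj] at e; exact h.inj i hi j hj e
    · rw [ext2_old hi, ext2_0] at e; exact absurd e (hw i hi)
    · rw [ext2_old hi, ext2_1] at e; exact absurd e (hcw i hi)
    · rw [ext2_old hj, ext2_0] at e; exact absurd e.symm (hw j hj)
    · rfl
    · rw [ext2_0, ext2_1] at e; exact absurd e.symm hc
    · rw [ext2_old hj, ext2_1] at e; exact absurd e.symm (hcw j hj)
    · rw [ext2_0, ext2_1] at e; exact absurd e hc
    · rfl
  · intro i hi
    rw [ext2_old (by omega), h.valV i hi]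
  · rw [enn]
    intro i hi
    rw [hcj]
    split_ifs
    · omega
    · omega
    · have := h.cj_lt i (by omega); omega
  · rw [enn]
    intro i hi
    rw [hcj]
    rcases key i hi with hi | rfl | rfl
    · rw [if_neg (by omega), if_neg (by omega), ext2_old (h.cj_lt i hi), ext2_old hi,
        h.val_cj i hi]
    · rw [if_pos rfl, ext2_1, ext2_0]
    · rw [if_neg (by omega), if_pos rfl, ext2_1, ext2_0, R.c_c]
  · rw [enn]
    intro i hi
    rw [hgr]
    rcases key i hi with hi | rfl | rfl
    · rw [if_neg (by omega), if_neg (by omega), ext2_old hi, h.val_g i hi]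
    · rw [if_pos rfl, ext2_0, hg]
    · rw [if_neg (by omega), if_pos rfl, ext2_1, R.g_c, hg]
  · rw [enn, env]
    intro i hi hni
    rw [hvr]
    split_ifs
    · omega
    · omega
    · have := h.vr_lt i (by omega) hni; omega
  · rw [enn]
    intro i hi hni
    rw [hvr]
    rcases key i hi with hi | rfl | rfl
    · rw [if_neg (by omega), if_neg (by omega), ext2_old hi, h.val_d i hi hni,
        Function.update_of_ne]
      have := h.vr_lt i hi hni; omega
    · rw [if_pos rfl, ext2_0, Function.update_self]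
    · rw [if_neg (by omega), if_pos rfl, ext2_1, Function.update_self, R.d_c]
  · intro v
    by_cases hvv : v = s.nv
    · rw [hvv, Function.update_self]; exact R.d_pos w
    · rw [Function.update_of_ne hvv]; exact h.x_pos v
  · rw [enn]
    intro i hi
    rw [← cj_eq, hcj, if_neg (by omega), if_neg (by omega), cj_eq]
    exact h.c0 i (by omega)
  · rw [enn]
    intro i hi
    rw [← vr_eq, hvr, if_neg (by omega), if_neg (by omega), vr_eq]
    exact h.vr0 i (by omega)
  · rw [enn]
    intro i hi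
    rw [← gr_eq, hgr, if_neg (by omega), if_neg (by omega), gr_eq]
    exact h.gr0 i (by omega)

lemma holds_new2 (hp : PrmOK p n N) (h : Holds p R s val x) (hw : ∀ i < s.nn, val i ≠ w)
    (hc : R.c w ≠ w) (hnn : s.nn + 2 ≤ 128) (hv : s.nv < p.NV) (hg : R.g w = g) :
    Holds p R (new2 p s g) (ext2 R s val w) (Function.update x s.nv (R.d w)) := by
  have hb := base_new2 h.base hw hc hnn hv hg
  have hcw := h.base.c_not hw
  have enn : (new2 p s g).nn = s.nn + 2 := rfl
  have env : (new2 p s g).nv = s.nv + 1 := rfl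
  have eM : (new2 p s g).M = s.M := rfl
  have eD : (new2 p s g).D = s.D := rfl
  have eex : (new2 p s g).ex = s.ex := rfl
  have eexc : (new2 p s g).exc = s.exc := rfl
  have hcj := fun i => cj_new2 (p := p) (g := g) h.base hnn i
  have key : ∀ i < s.nn + 2, i < s.nn ∨ i = s.nn ∨ i = s.nn + 1 := fun i hi => by omega
  have hcj_ge : ∀ i, s.nn ≤ i → i < s.nn + 2 → s.nn ≤ cj (new2 p s g) i := fun i h1 h2 => by
    rw [hcj]
    split_ifs <;> omega
  have hcj_lt2 : ∀ i < s.nn + 2, cj (new2 p s g) i < 128 := fun i hi => by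
    have := hb.cj_lt i (by rw [enn]; exact hi)
    rw [enn] at this; omega
  have hcj_old : ∀ i < s.nn, cj (new2 p s g) i = cj s i := fun i hi => by
    rw [hcj, if_neg (by omega), if_neg (by omega)]
  have hexlt : ∀ i, tb s.ex i = true → i < s.nn := fun i hi => by
    by_contra hh
    rw [h.ex0 i (by omega)] at hi
    exact absurd hi (by simp)
  have hexclt : ∀ i, tb s.exc i = true → i < s.nn := fun i hi => by
    by_contra hh
    rw [h.exc0 i (by omega)] at hi
    exact absurd hi (by simp)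
  have hsum : ∀ (i : ℕ) (F : ℕ → ℕ), i < 128 → ∑ t ∈ range (s.nn + 2), dg s.M (ix i t) * F t =
      ∑ t ∈ range s.nn, dg s.M (ix i t) * F t := by
    intro i F hi
    rw [sum_range_succ, sum_range_succ, h.lo0 i hi s.nn (by omega) (Or.inr le_rfl),
      h.lo0 i hi (s.nn + 1) (by omega) (Or.inr (by omega))]
    simp
  have hsum1 : ∀ (i : ℕ), i < 128 → ∑ t ∈ range (s.nn + 2), dg s.M (ix i t) =
      ∑ t ∈ range s.nn, dg s.M (ix i t) := by
    intro i hi
    have := hsum i (fun _ => 1) hi
    simpa using this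
  refine ⟨hb, ?_, ?_, ?_, ?_, ?_, ?_, ?_, ?_, ?_, ?_, ?_, ?_, ?_⟩
  · rw [enn, eM]
    intro i hi j hj
    by_cases hij : i < s.nn ∧ j < s.nn
    · rw [ext2_old hij.1, ext2_old hij.2]; exact h.lo i hij.1 j hij.2
    · rw [h.lo0 i (by omega) j (by omega) (by omega)]; exact Nat.zero_le _
  · rw [enn, eM]
    intro i hi j hj
    by_cases hij : i < s.nn ∧ j < s.nn
    · rw [hcj_old i hij.1, hcj_old j hij.2]; exact h.los i hij.1 j hij.2
    · rw [h.lo0 i (by omega) j (by omega) (by omega), h.lo0 _ (hcj_lt2 j hj) _ (hcj_lt2 i hi)]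
      by_cases hj2 : s.nn ≤ j
      · exact Or.inl (hcj_ge j hj2 hj)
      · exact Or.inr (hcj_ge i (by omega) hi)
  · rw [enn, eM]
    intro i hi j hj hij
    exact h.lo0 i hi j hj (by omega)
  · rw [enn, eD]
    intro i hi j hj
    by_cases hij : i < s.nn ∧ j < s.nn
    · rw [ext2_old hij.1, ext2_old hij.2]; exact h.hi i hij.1 j hij.2
    · rw [h.hi0 i (by omega) j (by omega) (by omega)]
      have := R.m_le (ext2 R s val w i) (ext2 R s val w j)
      omega
  · rw [enn, eD]
    intro i hi j hj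
    by_cases hij : i < s.nn ∧ j < s.nn
    · rw [hcj_old i hij.1, hcj_old j hij.2]; exact h.his i hij.1 j hij.2
    · rw [h.hi0 i (by omega) j (by omega) (by omega), h.hi0 _ (hcj_lt2 j hj) _ (hcj_lt2 i hi)]
      by_cases hj2 : s.nn ≤ j
      · exact Or.inl (hcj_ge j hj2 hj)
      · exact Or.inr (hcj_ge i (by omega) hi)
  · rw [enn, eD]
    intro i hi j hj hij
    exact h.hi0 i hi j hj (by omega)
  · rw [enn, eex, eM]
    intro i _ hx j hj
    have hi := hexlt i hx
    rw [ext2_old hi]
    rcases key j hj with hj | rfl | rfl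
    · rw [ext2_old hj]; exact h.ex1 i hi hx j hj
    · rw [ext2_0, h.ex2 i hi hx w hw, h.lo0 i (by omega) _ (by omega) (Or.inr le_rfl)]
    · rw [ext2_1, h.ex2 i hi hx _ hcw, h.lo0 i (by omega) _ (by omega) (Or.inr (by omega))]
  · rw [enn, eex]
    intro i _ hx w' hw'
    have hi := hexlt i hx
    rw [ext2_old hi]
    refine h.ex2 i hi hx w' fun j hj => ?_
    have := hw' j (by omega)
    rwa [ext2_old hj] at this
  · rw [enn, eex, eexc]
    intro j _ hx
    have hj := hexclt j hx
    rw [hcj_old j hj]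
    exact h.exc j hj hx
  · rw [enn, eex]
    intro i hi
    exact h.ex0 i (by omega)
  · rw [enn, eexc]
    intro i hi
    exact h.exc0 i (by omega)
  · rw [enn]
    intro i hi
    have hnew : ∀ u : R.E, R.d u = R.d w → (∀ b ≤ n, u ≠ R.V b) → s.nn ≤ i →
        ext2 R s val w i = u → aRow p (new2 p s g) i = newA p s.nv →
        ARep p R (new2 p s g) (ext2 R s val w) (Function.update x s.nv (R.d w)) i := by
      intro u hdu huV hge hu ha
      have h0 : ∀ t ∈ range (s.nn + 2), dg s.M (ix i t) = 0 := fun t ht =>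
        h.lo0 i (by omega) t (by have := mem_range.1 ht; omega) (Or.inl hge)
      refine ⟨fun u => if u = s.nv then 0 else 3, 65536, ?_, ?_, ?_, by omega, ?_⟩
      · rw [ha, newA_eq hp hv]
      · intro v hv
        show (if v = s.nv then 0 else 3) ≤ _
        split_ifs <;> omega
      · intro v hv hv2
        show (if v = s.nv then 0 else 3) = _
        rw [env] at hv2
        rw [if_neg (by omega)]
      · rw [hu, R.hd_not huV, hdu, ev_new hv _ (Function.update_self _ _ _), enn, eM]
        rw [sum_eq_zero fun t ht => by rw [h0 t ht, zero_mul], add_zero, add_zero]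
    rcases key i hi with hi | rfl | rfl
    · obtain ⟨f, c, g1, g2, g3, g4, g5⟩ := h.A i hi
      refine ⟨f, c, ?_, ?_, ?_, ?_, ?_⟩
      · rw [aRow_new2 hp h hv, if_neg (by omega), if_neg (by omega), g1]
      · rw [enn, eM, hsum1 i (by omega)]; exact g2
      · intro v hv hv2
        rw [env] at hv2
        exact g3 v hv (by omega)
      · rw [enn, eM, hsum1 i (by omega)]; exact g4
      · rw [enn, eM, hsum i _ (by omega), ext2_old hi]
        have e1 : ∑ t ∈ range s.nn, dg s.M (ix i t) * R.d (ext2 R s val w t) =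
            ∑ t ∈ range s.nn, dg s.M (ix i t) * R.d (val t) :=
          sum_congr rfl fun t ht => by rw [ext2_old (mem_range.1 ht)]
        rw [e1]
        have e2 := ev_upd (x := x) f c s.nv (R.d w) hv
        have e3 : evO p.NV (Function.update x s.nv (R.d w)) + 3 * x s.nv =
          evO p.NV x + 3 * R.d w := ev_upd (x := x) (fun _ => 3) 65536 s.nv (R.d w) hv
        rw [g3 s.nv hv le_rfl] at e2
        omega
    · exact hnew w rfl (h.base.new_not_V hw) le_rfl ext2_0
        (by rw [aRow_new2 hp h hv, if_pos rfl])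
    · exact hnew (R.c w) (R.d_c w) (h.base.new_not_V hcw) (by omega) ext2_1
        (by rw [aRow_new2 hp h hv, if_neg (by omega), if_pos rfl])
  · rw [enn]
    intro i hi
    rw [aRow_new2 hp h hv, if_neg (by omega), if_neg (by omega)]
    exact h.A0 i (by omega)

end new2

end H39.CN
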