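import Pool.Agent.H39.CN.New

namespace H39.CN

open Finset

variable {p : Prm} {n N : ℕ} {R : RG n N} {s : St} {val : ℕ → R.E} {x : ℕ → ℕ}

/-- extension of the naming by a real element -/
def ext1 (R : RG n N) (s : St) (val : ℕ → R.E) (w : R.E) (i : ℕ) : R.E :=
  if i = s.nn then w else val i

lemma ext1_old {w : R.E} {i : ℕ} (hi : i < s.nn) : ext1 R s val w i = val i := by
  unfold ext1
  rw [if_neg (by omega)]

lemma ext1_0 {w : R.E} : ext1 R s val w s.nn = w := by
  unfold ext1
  rw [if_pos rfl]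

section new1

variable {w : R.E}

lemma cj_new1 (h : Base p R s val x) (hnn : s.nn + 1 ≤ 128) (i : ℕ) :
    cj (new1 p s) i = if i = s.nn then s.nn else cj s i := by
  rw [cj_eq, cj_eq]
  change dgt 8 (s.c + Nat.shiftLeft s.nn (8 * s.nn)) i = _
  rw [nat_shl]
  exact single_add (b := 8) (by norm_num; omega) (h.c0 _ le_rfl) i

lemma vr_new1 (h : Base p R s val x) (hnn : s.nn + 1 ≤ 128) (i : ℕ) :
    vr (new1 p s) i = if i = s.nn then s.nv else vr s i := by
  rw [vr_eq, vr_eq]
  change dgt 8 (s.vr + Nat.shiftLeft s.nv (8 * s.nn)) i = _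
  rw [nat_shl]
  have := h.nv_le'
  exact single_add (b := 8) (by norm_num; omega) (h.vr0 _ le_rfl) i

lemma aRow_new1 (hp : PrmOK p n N) (h : Holds p R s val x) (hv : s.nv < p.NV) (i : ℕ) :
    aRow p (new1 p s) i = if i = s.nn then newA p s.nv else aRow p s i := by
  rw [aRow_eq, aRow_eq]
  change dgt (sa p) (s.A + Nat.shiftLeft (newA p s.nv) (sa p * s.nn)) i = _
  rw [nat_shl]
  have h1 := h.A0 s.nn le_rfl
  rw [aRow_eq] at h1
  exact single_add (newA_lt hp hv) h1 i

lemma base_new1 (h : Base p R s val x) (hw : ∀ i < s.nn, val i ≠ w) (hc : R.c w = w)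
    (hnn : s.nn + 1 ≤ 128) (hv : s.nv < p.NV) (hg : R.g w = 0) :
    Base p R (new1 p s) (ext1 R s val w) (Function.update x s.nv (R.d w)) := by
  have enn : (new1 p s).nn = s.nn + 1 := rfl
  have env : (new1 p s).nv = s.nv + 1 := rfl
  have hcj := fun i => cj_new1 (p := p) h hnn i
  have hvr := fun i => vr_new1 (p := p) h hnn i
  have hgr : ∀ i, gr (new1 p s) i = gr s i := fun i => rfl
  have key : ∀ i < s.nn + 1, i < s.nn ∨ i = s.nn := fun i hi => by omega
  have n_lt := h.n_lt
  have nv_le' := h.nv_le'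
  refine ⟨?_, ?_, ?_, ?_, ?_, ?_, ?_, ?_, ?_, ?_, ?_, ?_, ?_, ?_, ?_⟩
  · rw [enn]; omega
  · rw [enn]; omega
  · rw [env]; omega
  · rw [enn, env]; omega
  · rw [enn]
    intro i hi j hj e
    rcases key i hi with hi | rfl <;> rcases key j hj with hj | rfl
    · rw [ext1_old hi, ext1_old hj] at e; exact h.inj i hi j hj e
    · rw [ext1_old hi, ext1_0] at e; exact absurd e (hw i hi)
    · rw [ext1_old hj, ext1_0] at e; exact absurd e.symm (hw j hj)
    · rfl
  · intro i hi
    rw [ext1_old (by omega), h.valV i hi]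
  · rw [enn]
    intro i hi
    rw [hcj]
    split_ifs
    · omega
    · have := h.cj_lt i (by omega); omega
  · rw [enn]
    intro i hi
    rw [hcj]
    rcases key i hi with hi | rfl
    · rw [if_neg (by omega), ext1_old (h.cj_lt i hi), ext1_old hi, h.val_cj i hi]
    · rw [if_pos rfl, ext1_0, hc]
  · rw [enn]
    intro i hi
    rw [hgr]
    rcases key i hi with hi | rfl
    · rw [ext1_old hi, h.val_g i hi]
    · rw [ext1_0, hg, gr_eq, h.gr0 _ le_rfl]
  · rw [enn, env]
    intro i hi hni
    rw [hvr]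
    split_ifs
    · omega
    · have := h.vr_lt i (by omega) hni; omega
  · rw [enn]
    intro i hi hni
    rw [hvr]
    rcases key i hi with hi | rfl
    · rw [if_neg (by omega), ext1_old hi, h.val_d i hi hni, Function.update_of_ne]
      have := h.vr_lt i hi hni; omega
    · rw [if_pos rfl, ext1_0, Function.update_self]
  · intro v
    by_cases hvv : v = s.nv
    · rw [hvv, Function.update_self]; exact R.d_pos w
    · rw [Function.update_of_ne hvv]; exact h.x_pos v
  · rw [enn]
    intro i hi
    rw [← cj_eq, hcj, if_neg (by omega), cj_eq]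
    exact h.c0 i (by omega)
  · rw [enn]
    intro i hi
    rw [← vr_eq, hvr, if_neg (by omega), vr_eq]
    exact h.vr0 i (by omega)
  · rw [enn]
    intro i hi
    rw [← gr_eq, hgr, gr_eq]
    exact h.gr0 i (by omega)

lemma holds_new1 (hp : PrmOK p n N) (h : Holds p R s val x) (hw : ∀ i < s.nn, val i ≠ w)
    (hc : R.c w = w) (hnn : s.nn + 1 ≤ 128) (hv : s.nv < p.NV) (hg : R.g w = 0) :
    Holds p R (new1 p s) (ext1 R s val w) (Function.update x s.nv (R.d w)) := by
  have hb := base_new1 h.base hw hc hnn hv hg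
  have enn : (new1 p s).nn = s.nn + 1 := rfl
  have env : (new1 p s).nv = s.nv + 1 := rfl
  have eM : (new1 p s).M = s.M := rfl
  have eD : (new1 p s).D = s.D := rfl
  have eex : (new1 p s).ex = s.ex := rfl
  have eexc : (new1 p s).exc = s.exc := rfl
  have hcj := fun i => cj_new1 (p := p) h.base hnn i
  have key : ∀ i < s.nn + 1, i < s.nn ∨ i = s.nn := fun i hi => by omega
  have hcj_ge : ∀ i, s.nn ≤ i → i < s.nn + 1 → s.nn ≤ cj (new1 p s) i := fun i h1 h2 => by
    rw [hcj]
    split_ifs <;> omega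
  have hcj_lt2 : ∀ i < s.nn + 1, cj (new1 p s) i < 128 := fun i hi => by
    have := hb.cj_lt i (by rw [enn]; exact hi)
    rw [enn] at this; omega
  have hcj_old : ∀ i < s.nn, cj (new1 p s) i = cj s i := fun i hi => by
    rw [hcj, if_neg (by omega)]
  have hexlt : ∀ i, tb s.ex i = true → i < s.nn := fun i hi => by
    by_contra hh
    rw [h.ex0 i (by omega)] at hi
    exact absurd hi (by simp)
  have hexclt : ∀ i, tb s.exc i = true → i < s.nn := fun i hi => by
    by_contra hh
    rw [h.exc0 i (by omega)] at hi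
    exact absurd hi (by simp)
  have hsum : ∀ (i : ℕ) (F : ℕ → ℕ), i < 128 → ∑ t ∈ range (s.nn + 1), dg s.M (ix i t) * F t =
      ∑ t ∈ range s.nn, dg s.M (ix i t) * F t := by
    intro i F hi
    rw [sum_range_succ, h.lo0 i hi s.nn (by omega) (Or.inr le_rfl)]
    simp
  have hsum1 : ∀ (i : ℕ), i < 128 → ∑ t ∈ range (s.nn + 1), dg s.M (ix i t) =
      ∑ t ∈ range s.nn, dg s.M (ix i t) := by
    intro i hi
    have := hsum i (fun _ => 1) hi
    simpa using this
  refine ⟨hb, ?_, ?_, ?_, ?_, ?_, ?_, ?_, ?_, ?_, ?_, ?_, ?_, ?_⟩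
  · rw [enn, eM]
    intro i hi j hj
    by_cases hij : i < s.nn ∧ j < s.nn
    · rw [ext1_old hij.1, ext1_old hij.2]; exact h.lo i hij.1 j hij.2
    · rw [h.lo0 i (by omega) j (by omega) (by omega)]; exact Nat.zero_le _
  · rw [enn, eM]
    intro i hi j hj
    by_cases hij : i < s.nn ∧ j < s.nn
    · rw [hcj_old i hij.1, hcj_old j hij.2]; exact h.los i hij.1 j hij.2
    · rw [h.lo0 i (by omega) j (by omega) (by omega), h.lo0 _ (hcj_lt2 j hj) _ (hcj_lt2 i hi)]
      by_cases hj2 : s.nn ≤ j
      · exact Or.inl (hcj_ge j hj2 hj)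
      · exact Or.inr (hcj_ge i (by omega) hi)
  · rw [enn, eM]
    intro i hi j hj hij
    exact h.lo0 i hi j hj (by omega)
  · rw [enn, eD]
    intro i hi j hj
    by_cases hij : i < s.nn ∧ j < s.nn
    · rw [ext1_old hij.1, ext1_old hij.2]; exact h.hi i hij.1 j hij.2
    · rw [h.hi0 i (by omega) j (by omega) (by omega)]
      have := R.m_le (ext1 R s val w i) (ext1 R s val w j)
      omega
  · rw [enn, eD]
    intro i hi j hj
    by_cases hij : i < s.nn ∧ j < s.nn
    · rw [hcj_old i hij.1, hcj_old j hij.2]; exact h.his i hij.1 j hij.2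
    · rw [h.hi0 i (by omega) j (by omega) (by omega), h.hi0 _ (hcj_lt2 j hj) _ (hcj_lt2 i hi)]
      by_cases hj2 : s.nn ≤ j
      · exact Or.inl (hcj_ge j hj2 hj)
      · exact Or.inr (hcj_ge i (by omega) hi)
  · rw [enn, eD]
    intro i hi j hj hij
    exact h.hi0 i hi j hj (by omega)
  · rw [enn, eex, eM]
    intro i _ hx j hj
    have hi := hexlt i hx
    rw [ext1_old hi]
    rcases key j hj with hj | rfl
    · rw [ext1_old hj]; exact h.ex1 i hi hx j hj
    · rw [ext1_0, h.ex2 i hi hx w hw, h.lo0 i (by omega) _ (by omega) (Or.inr le_rfl)]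
  · rw [enn, eex]
    intro i _ hx w' hw'
    have hi := hexlt i hx
    rw [ext1_old hi]
    refine h.ex2 i hi hx w' fun j hj => ?_
    have := hw' j (by omega)
    rwa [ext1_old hj] at this
  · rw [enn, eex, eexc]
    intro j _ hx
    have hj := hexclt j hx
    rw [hcj_old j hj]
    exact h.exc j hj hx
  · rw [enn, eex]
    intro i hi
    exact h.ex0 i (by omega)
  · rw [enn, eexc]
    intro i hi
    exact h.exc0 i (by omega)
  · rw [enn]
    intro i hi
    rcases key i hi with hi | rfl
    · obtain ⟨f, c, g1, g2, g3, g4, g5⟩ := h.A i hi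
      refine ⟨f, c, ?_, ?_, ?_, ?_, ?_⟩
      · rw [aRow_new1 hp h hv, if_neg (by omega), g1]
      · rw [enn, eM, hsum1 i (by omega)]; exact g2
      · intro v hv hv2
        rw [env] at hv2
        exact g3 v hv (by omega)
      · rw [enn, eM, hsum1 i (by omega)]; exact g4
      · rw [enn, eM, hsum i _ (by omega), ext1_old hi]
        have e1 : ∑ t ∈ range s.nn, dg s.M (ix i t) * R.d (ext1 R s val w t) =
            ∑ t ∈ range s.nn, dg s.M (ix i t) * R.d (val t) :=
          sum_congr rfl fun t ht => by rw [ext1_old (mem_range.1 ht)]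
        rw [e1]
        have e2 := ev_upd (x := x) f c s.nv (R.d w) hv
        have e3 : evO p.NV (Function.update x s.nv (R.d w)) + 3 * x s.nv =
          evO p.NV x + 3 * R.d w := ev_upd (x := x) (fun _ => 3) 65536 s.nv (R.d w) hv
        rw [g3 s.nv hv le_rfl] at e2
        omega
    · have h0 : ∀ t ∈ range (s.nn + 1), dg s.M (ix s.nn t) = 0 := fun t ht =>
        h.lo0 _ (by omega) t (by have := mem_range.1 ht; omega) (Or.inl le_rfl)
      refine ⟨fun u => if u = s.nv then 0 else 3, 65536, ?_, ?_, ?_, by omega, ?_⟩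
      · rw [aRow_new1 hp h hv, if_pos rfl, newA_eq hp hv]
      · intro v hv
        show (if v = s.nv then 0 else 3) ≤ _
        split_ifs <;> omega
      · intro v hv hv2
        show (if v = s.nv then 0 else 3) = _
        rw [env] at hv2
        rw [if_neg (by omega)]
      · rw [ext1_0, R.hd_not (h.base.new_not_V hw), ev_new hv _ (Function.update_self _ _ _),
          enn, eM]
        rw [sum_eq_zero fun t ht => by rw [h0 t ht, zero_mul], add_zero, add_zero]
  · rw [enn]
    intro i hi
    rw [aRow_new1 hp h hv, if_neg (by omega)]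
    exact h.A0 i (by omega)

end new1

end H39.CN
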