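import Mathlib
import Pool.Agent.H39.CN.Check

namespace H39.CN

open Finset

/-- digit in base `b` -/
lemma digit_add {b : ℕ} (hb : 0 < b) (X k δ j : ℕ) (h : X / b ^ k % b + δ < b) :
    (X + δ * b ^ k) / b ^ j % b = if j = k then X / b ^ k % b + δ else X / b ^ j % b := by
  have hbk : 0 < b ^ k := pow_pos hb k
  rcases lt_trichotomy j k with hjk | rfl | hjk
  · rw [if_neg (ne_of_lt hjk)]
    obtain ⟨r, rfl⟩ := Nat.exists_eq_add_of_lt hjk
    have : δ * b ^ (j + r + 1) = (δ * b ^ r * b) * b ^ j := by ring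
    rw [this, Nat.add_mul_div_right _ _ (pow_pos hb j), Nat.add_mul_mod_self_right]
  · rw [if_pos rfl, Nat.add_mul_div_right _ _ hbk, Nat.add_mod,
      Nat.mod_eq_of_lt (show δ < b by omega), Nat.mod_eq_of_lt h]
  · rw [if_neg (ne_of_gt hjk)]
    obtain ⟨r, rfl⟩ := Nat.exists_eq_add_of_lt hjk
    have e : b ^ (k + r + 1) = b ^ k * b * b ^ r := by ring
    rw [e, ← Nat.div_div_eq_div_mul, ← Nat.div_div_eq_div_mul, ← Nat.div_div_eq_div_mul,
      ← Nat.div_div_eq_div_mul, Nat.add_mul_div_right _ _ hbk]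
    congr 2
    have h1 := Nat.div_add_mod (X / b ^ k) b
    rw [Nat.div_eq_of_lt_le (k := X / b ^ k / b)]
    · calc X / b ^ k / b * b ≤ X / b ^ k := Nat.div_mul_le_self _ _
        _ ≤ _ := Nat.le_add_right _ _
    · rw [add_mul, one_mul, mul_comm]
      omega

/-- digit in base `2 ^ s` -/
def dgt (s X k : ℕ) : ℕ := X / 2 ^ (s * k) % 2 ^ s

lemma dgt_lt (s X k : ℕ) : dgt s X k < 2 ^ s := Nat.mod_lt _ (by positivity)

lemma dgt_add {s X k δ : ℕ} (h : dgt s X k + δ < 2 ^ s) (j : ℕ) :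
    dgt s (X + δ * 2 ^ (s * k)) j = if j = k then dgt s X k + δ else dgt s X j := by
  unfold dgt at *
  simp only [pow_mul] at *
  exact digit_add (by positivity) X k δ j h

lemma dg_eq (X k : ℕ) : dg X k = dgt 2 X k := by
  show (X >>> (2 * k)) % 4 = _
  rw [Nat.shiftRight_eq_div_pow]; rfl

lemma tb_iff (X i : ℕ) : tb X i = true ↔ dgt 1 X i = 1 := by
  show Nat.beq ((X >>> i) % 2) 1 = true ↔ _
  rw [Nat.beq_eq, Nat.shiftRight_eq_div_pow]
  simp [dgt]

lemma tb_false_iff (X i : ℕ) : tb X i = false ↔ dgt 1 X i = 0 := by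
  have h1 := tb_iff X i
  have h2 := dgt_lt 1 X i
  rcases h : tb X i with _ | _
  · simp only [true_iff]
    have : ¬ dgt 1 X i = 1 := by rw [← h1, h]; simp
    omega
  · have := h1.1 h
    simp only [Bool.true_eq_false, false_iff]; omega

lemma cj_eq (s : St) (i : ℕ) : cj s i = dgt 8 s.c i := by
  show (s.c >>> (8 * i)) % 256 = _
  rw [Nat.shiftRight_eq_div_pow]; rfl

lemma vr_eq (s : St) (i : ℕ) : vr s i = dgt 8 s.vr i := by
  show (s.vr >>> (8 * i)) % 256 = _
  rw [Nat.shiftRight_eq_div_pow]; rfl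

lemma gr_eq (s : St) (i : ℕ) : gr s i = dgt 2 s.gr i := dg_eq _ _

lemma aRow_eq (p : Prm) (s : St) (i : ℕ) : aRow p s i = dgt (sa p) s.A i := by
  show (s.A >>> (sa p * i)) % 2 ^ (sa p) = _
  rw [Nat.shiftRight_eq_div_pow]; rfl

lemma ix_eq (i j : ℕ) : ix i j = 128 * i + j := rfl

lemma ix_inj {i j i' j' : ℕ} (hj : j < 128) (hj' : j' < 128) (h : ix i j = ix i' j') :
    i = i' ∧ j = j' := by
  rw [ix_eq, ix_eq] at h; omega

lemma mod_pow_div {b : ℕ} (Y m t : ℕ) (h : t < m) :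
    (Y % b ^ m) / b ^ t % b = Y / b ^ t % b := by
  obtain ⟨r, rfl⟩ := Nat.exists_eq_add_of_lt h
  have : b ^ (t + r + 1) = b ^ t * b ^ (r + 1) := by ring
  rw [this, Nat.mod_mul_right_div_self, Nat.mod_mod_of_dvd _ (dvd_pow_self b (by omega))]

lemma dgt_row (X i t : ℕ) : dg (row X i) t = if t < 128 then dg X (ix i t) else 0 := by
  rw [dg_eq, dg_eq]
  have hrow : row X i = X / 4 ^ (128 * i) % 4 ^ 128 := by
    show (X >>> (256 * i)) % 2 ^ 256 = _
    rw [Nat.shiftRight_eq_div_pow, show 256 * i = 2 * (128 * i) by ring, pow_mul]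
    norm_num
  unfold dgt
  simp only [pow_mul]
  norm_num only
  rw [hrow]
  split_ifs with h
  · rw [mod_pow_div _ _ _ h, Nat.div_div_eq_div_mul, ← pow_add, ix_eq]
  · rw [Nat.div_eq_of_lt, Nat.zero_mod]
    exact lt_of_lt_of_le (Nat.mod_lt _ (by positivity))
      (Nat.pow_le_pow_right (by norm_num) (by omega))

lemma row_lt (X i : ℕ) : row X i < 4 ^ 128 := by
  show (X >>> (256 * i)) % 2 ^ 256 < _
  calc _ < 2 ^ 256 := Nat.mod_lt _ (by positivity)
    _ = 4 ^ 128 := by norm_num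

lemma sum_digits {b : ℕ} (X m : ℕ) :
    ∑ t ∈ range m, (X / b ^ t % b) * b ^ t = X % b ^ m := by
  induction m with
  | zero => simp [Nat.mod_one]
  | succ m ih => rw [sum_range_succ, ih, Nat.mod_pow_succ]; ring

lemma sum_dg (X m : ℕ) : ∑ t ∈ range m, dg X t * 4 ^ t = X % 4 ^ m := by
  rw [← sum_digits]
  refine sum_congr rfl fun t _ => ?_
  rw [dg_eq, dgt, pow_mul]; norm_num

/-! ### packed vectors -/

lemma pk_lt {b : ℕ} (f : ℕ → ℕ) (m : ℕ) (hf : ∀ v < m, f v < b) :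
    ∑ v ∈ range m, f v * b ^ v < b ^ m := by
  induction m with
  | zero => simp
  | succ m ih =>
    rw [sum_range_succ]
    have h1 := ih fun v hv => hf v (by omega)
    have h2 : f m + 1 ≤ b := hf m (by omega)
    calc _ < b ^ m + f m * b ^ m := by omega
      _ = (f m + 1) * b ^ m := by ring
      _ ≤ b * b ^ m := Nat.mul_le_mul_right _ h2
      _ = _ := by ring

lemma pk_digit {b : ℕ} (f : ℕ → ℕ) (m : ℕ) (hf : ∀ v < m, f v < b) (k : ℕ) (hk : k < m) :
    (∑ v ∈ range m, f v * b ^ v) / b ^ k % b = f k := by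
  have hb : 0 < b := lt_of_le_of_lt (Nat.zero_le _) (hf k hk)
  induction m with
  | zero => omega
  | succ m ih =>
    rw [sum_range_succ]
    have hlt := pk_lt f m fun v hv => hf v (by omega)
    rcases Nat.lt_or_ge k m with h | h
    · obtain ⟨r, rfl⟩ := Nat.exists_eq_add_of_lt h
      have : f (k + r + 1) * b ^ (k + r + 1) = (f (k + r + 1) * b ^ r * b) * b ^ k := by ring
      rw [this, Nat.add_mul_div_right _ _ (pow_pos hb k), Nat.add_mul_mod_self_right]
      exact ih (fun v hv => hf v (by omega)) h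
    · have : k = m := by omega
      subst this
      rw [Nat.add_mul_div_right _ _ (pow_pos hb k), Nat.div_eq_of_lt hlt, zero_add,
        Nat.mod_eq_of_lt (hf k hk)]

lemma pk_top {b : ℕ} (f : ℕ → ℕ) (m c : ℕ) (hf : ∀ v < m, f v < b) :
    (∑ v ∈ range m, f v * b ^ v + c * b ^ m) % b ^ m = ∑ v ∈ range m, f v * b ^ v ∧
    (∑ v ∈ range m, f v * b ^ v + c * b ^ m) / b ^ m = c := by
  have hlt := pk_lt f m hf
  have hb : 0 < b ^ m := by omega
  constructor
  · rw [Nat.add_mul_mod_self_right, Nat.mod_eq_of_lt hlt]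
  · rw [Nat.add_mul_div_right _ _ hb, Nat.div_eq_of_lt hlt, zero_add]

lemma pk_mod (e : ℕ → ℕ) (m b : ℕ) :
    (∑ v ∈ range m, e v * (b + 1) ^ v) % b ≤ ∑ v ∈ range m, e v := by
  have : (∑ v ∈ range m, e v * (b + 1) ^ v) ≡ ∑ v ∈ range m, e v [MOD b] := by
    induction m with
    | zero => rfl
    | succ m ih =>
      rw [sum_range_succ, sum_range_succ]
      refine ih.add ?_
      have h1 : (b + 1) ^ m ≡ 1 ^ m [MOD b] := Nat.ModEq.pow m (by simp [Nat.ModEq])
      simpa using h1.mul_left (e m)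
  rw [this]
  exact Nat.mod_le _ _

lemma land_digit {X Y k : ℕ} (h : Nat.land X Y = Y)
    (hY : Y / (2 ^ 48) ^ k % 2 ^ 48 = 2 ^ 47) : 2 ^ 47 ≤ X / (2 ^ 48) ^ k % 2 ^ 48 := by
  have h1 : Y.testBit (48 * k + 47) = true := by
    have := Nat.testBit_two_pow_self (n := 47)
    rw [← hY, ← pow_mul, Nat.testBit_mod_two_pow, Nat.testBit_div_two_pow] at this
    simpa [add_comm] using this
  have h2 : X.testBit (48 * k + 47) = true := by
    have h3 : (X &&& Y).testBit (48 * k + 47) = true := by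
      have : X &&& Y = Y := h
      rw [this]; exact h1
    rw [Nat.testBit_and] at h3
    simp only [Bool.and_eq_true] at h3
    exact h3.1
  by_contra hlt
  push Not at hlt
  have h4 := Nat.testBit_lt_two_pow hlt
  rw [← pow_mul, Nat.testBit_mod_two_pow, Nat.testBit_div_two_pow] at h4
  rw [add_comm] at h4
  simp [h2] at h4

/-- repeated digit -/
noncomputable def geo (a m : ℕ) : ℕ :=
  Nat.rec (motive := fun _ => ℕ) 0 (fun v ih => Nat.add ih (Nat.mul a (Nat.pow 2 (Nat.mul 48 v)))) m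

lemma geo_eq (a m : ℕ) : geo a m = ∑ v ∈ range m, a * (2 ^ 48) ^ v := by
  induction m with
  | zero => rfl
  | succ m ih =>
    rw [sum_range_succ, ← ih, ← pow_mul]; rfl

end H39.CN
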