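import Pool.Agent.H39.CN.Loops

namespace H39.CN

open Finset

universe u

/-- no structure is described by the state -/
def Bad (p : Prm) (n N : ℕ) (s : St) : Prop :=
  ∀ (R : RG.{u} n N) (val : ℕ → R.E) (x : ℕ → ℕ), ¬ Holds p R s val x

/-- all states are bad -/
def AllBad (p : Prm) (n N : ℕ) (l : List St) : Prop := ∀ s ∈ l, Bad.{u} p n N s

variable {p : Prm} {n N : ℕ} {s : St} {r : List St}

lemma allBad_cons : AllBad.{u} p n N (s :: r) ↔ Bad.{u} p n N s ∧ AllBad.{u} p n N r := by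
  unfold AllBad
  simp only [List.mem_cons, forall_eq_or_imp]

lemma leaf_sound {b : Bool} (hb : b = true → Bad.{u} p n N s)
    (h : AllBad.{u} p n N (leaf s r b)) : AllBad.{u} p n N (s :: r) := by
  cases b
  · exact h
  · exact allBad_cons.2 ⟨hb rfl, h⟩

lemma ifs_sound {b : Bool} {f : List St}
    (hb : b = true → AllBad.{u} p n N f → AllBad.{u} p n N (s :: r))
    (h : AllBad.{u} p n N (ifs s r b f)) : AllBad.{u} p n N (s :: r) := by
  cases b
  · exact h
  · exact hb rfl h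

lemma ble_iff {a b : ℕ} : Nat.ble a b = true ↔ a ≤ b :=
  ⟨Nat.le_of_ble_eq_true, Nat.ble_eq_true_of_le⟩

lemma opS_sound (hp : PrmOK p n N) {i j k : ℕ} (h : AllBad.{u} p n N (opS p s r i j k)) :
    AllBad.{u} p n N (s :: r) := by
  refine ifs_sound (fun hb hf => ?_) h
  simp only [bnd_true, ble_iff] at hb
  obtain ⟨hi, hj, hk⟩ := hb
  have hf := allBad_cons.1 hf
  have hf2 := allBad_cons.1 hf.2
  refine allBad_cons.2 ⟨fun R val x hh => ?_, hf2.2⟩
  rcases Nat.lt_or_ge (R.m (val i) (val j)) (k + 1) with h1 | h1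
  · refine hf2.1 R val x (holds_setHi hh hi hj ?_)
    show _ + (3 - k) ≤ 3
    omega
  · exact hf.1 R val x (holds_setLo hp hh hi hj h1)

lemma Holds.rows {R : RG.{u} n N} {val : ℕ → R.E} {x : ℕ → ℕ}
    (h : Holds p R s val x) : Rows p s x := by
  have hsum : ∀ i < s.nn, ∑ t ∈ range s.nn, dg s.M (ix i t) * R.d (val t) + R.hd (val i) ≤
      3 * R.d (val i) := fun i hi => by
    rw [← R.degree (val i)]
    refine Nat.add_le_add_right (le_trans ?_ (R.sum_le h.base.inj (val i) R.d)) _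
    exact sum_le_sum fun t ht => Nat.mul_le_mul_right _ (h.lo i hi t (mem_range.1 ht))
  constructor
  · intro i
    by_cases hi : i < s.nn
    · obtain ⟨f, c, g1, g2, -, -, g5⟩ := h.A i hi
      have h9 := h.base.row_sum (i := i) (fun t ht => h.lo i hi t ht)
      refine ⟨f, c, g1, fun v hv => ?_, ?_⟩
      · have := g2 v hv; omega
      · have := hsum i hi; omega
    · rw [h.A0 i (by omega)]
      exact ⟨fun _ => 0, 0, by simp [pk], by simp, by simp [ev]⟩
  · intro i hx
    have hi : i < s.nn := by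
      by_contra hh
      rw [h.ex0 i (by omega)] at hx
      exact absurd hx (by simp)
    obtain ⟨f, c, g1, g2, -, -, g5⟩ := h.A i hi
    have h9 := h.base.row_sum (i := i) (fun t ht => h.lo i hi t ht)
    refine ⟨f, c, g1, fun v hv => ?_, ?_⟩
    · have := g2 v hv; omega
    · have e1 := R.degree (val i)
      rw [h.ip_exact hi hx R.d] at e1
      omega

lemma opL_sound (hp : PrmOK p n N) {w : ℕ} (h : AllBad.{u} p n N (opL p s r w)) :
    AllBad.{u} p n N (s :: r) := by
  refine leaf_sound (fun hb R val x hh => ?_) h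
  exact lpLE_false hp.good hh.base.x_pos hh.rows hb (repLE_zero _ _)

/-- a row that is not exact has an extra constituent -/
lemma Holds.extra {R : RG.{u} n N} {val : ℕ → R.E} {x : ℕ → ℕ}
    (h : Holds p R s val x) {i : ℕ} (hi : i < s.nn)
    (hn : ¬ ((∀ j < s.nn, R.m (val i) (val j) = dg s.M (ix i j)) ∧
      ∀ w, (∀ j < s.nn, val j ≠ w) → R.m (val i) w = 0)) :
    ∃ w, R.m (val i) w ≠ 0 ∧
      ∑ t ∈ range s.nn, dg s.M (ix i t) * R.d (val t) + R.d w + R.hd (val i) ≤
        3 * R.d (val i) := by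
  by_cases h1 : ∀ w, (∀ j < s.nn, val j ≠ w) → R.m (val i) w = 0
  · have h2 : ∃ j < s.nn, R.m (val i) (val j) ≠ dg s.M (ix i j) := by
      by_contra h3
      push Not at h3
      exact hn ⟨h3, h1⟩
    obtain ⟨j, hj, hne⟩ := h2
    have hlt : dg s.M (ix i j) + 1 ≤ R.m (val i) (val j) :=
      lt_of_le_of_ne (h.lo i hi j hj) hne.symm
    refine ⟨val j, by omega, ?_⟩
    rw [← R.degree (val i)]
    refine Nat.add_le_add_right (le_trans ?_ (R.sum_le h.base.inj (val i) R.d)) _
    rw [← add_sum_erase _ _ (mem_range.2 hj), ← add_sum_erase (range s.nn) _ (mem_range.2 hj)]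
    have e1 : ∑ t ∈ (range s.nn).erase j, dg s.M (ix i t) * R.d (val t) ≤
        ∑ t ∈ (range s.nn).erase j, R.m (val i) (val t) * R.d (val t) :=
      sum_le_sum fun t ht => Nat.mul_le_mul_right _
        (h.lo i hi t (mem_range.1 (mem_of_mem_erase ht)))
    have e2 : dg s.M (ix i j) * R.d (val j) + R.d (val j) ≤
        R.m (val i) (val j) * R.d (val j) := by
      calc _ = (dg s.M (ix i j) + 1) * R.d (val j) := by ring
        _ ≤ _ := Nat.mul_le_mul_right _ hlt
    omega
  · push Not at h1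
    obtain ⟨w, hw, hne⟩ := h1
    refine ⟨w, hne, ?_⟩
    rw [← R.degree (val i)]
    refine Nat.add_le_add_right (le_trans ?_ (R.sum_le_extra h.base.inj (val i) R.d w hw)) _
    refine Nat.add_le_add ?_ (Nat.le_mul_of_pos_left _ (Nat.pos_of_ne_zero hne))
    exact sum_le_sum fun t ht => Nat.mul_le_mul_right _ (h.lo i hi t (mem_range.1 ht))

lemma opP_exact (hp : PrmOK p n N) {R : RG.{u} n N} {val : ℕ → R.E} {x : ℕ → ℕ}
    (h : Holds p R s val x) {i b k1 k2 al be X : ℕ} (hi : i < s.nn)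
    (ht : opP2 p s i b k1 k2 al be X = true) :
    (∀ j < s.nn, R.m (val i) (val j) = dg s.M (ix i j)) ∧
      ∀ w, (∀ j < s.nn, val j ≠ w) → R.m (val i) w = 0 := by
  by_contra hn
  obtain ⟨w, hne, hle⟩ := h.extra hi hn
  have hw3 : R.d (val i) ≤ 3 * R.d w :=
    le_trans (Nat.le_mul_of_pos_left _ (Nat.pos_of_ne_zero hne)) (R.term_le' (val i) w)
  have hw1 := R.d_pos w
  obtain ⟨f, c, g1, g2, -, -, g5⟩ := h.A i hi
  have h9 := h.base.row_sum (i := i) (fun t ht => h.lo i hi t ht)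
  obtain ⟨fu, cu, u1, u2, -, -, u5⟩ := unit_rep hp h.base hi
  unfold opP2 at ht
  refine lpLE_false hp.good h.base.x_pos h.rows ht ?_
  show RepLE p.NV x ((3 * al + be) * aRow p s i + (al * unit p s i +
    Nat.shiftLeft be (48 * p.NV))) (3 * al + be)
  have hbe : Nat.shiftLeft be (48 * p.NV) = pk p.NV (fun _ => 0) be := by
    rw [nat_shl, pow_mul]; simp [pk]
  rw [hbe, g1, u1, pk_smul, pk_smul, pk_add, pk_add]
  refine ⟨_, _, rfl, fun v hv => ?_, ?_⟩
  · have e1 := g2 v hv
    have e2 := u2 v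
    have e3 : (3 * al + be) * f v ≤ (3 * al + be) * 12 := Nat.mul_le_mul_left _ (by omega)
    have e4 : al * fu v ≤ al * 1 := Nat.mul_le_mul_left _ e2
    show (3 * al + be) * f v + (al * fu v + 0) ≤ 16 * (3 * al + be)
    omega
  · have e0 : ev p.NV x (fun _ => 0) be = be := by simp [ev]
    rw [ev_add, ev_smul, ev_add, ev_smul, e0, u5]
    have e1 : ev p.NV x f c + R.d w ≤ evO p.NV x := by omega
    have e2 : (3 * al + be) * (ev p.NV x f c + R.d w) ≤ (3 * al + be) * evO p.NV x :=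
      Nat.mul_le_mul_left _ e1
    have e3 : al * R.d (val i) ≤ al * (3 * R.d w) := Nat.mul_le_mul_left _ hw3
    have e4 : be * 1 ≤ be * R.d w := Nat.mul_le_mul_left _ hw1
    have e5 : (3 * al + be) * (ev p.NV x f c + R.d w) =
      (3 * al + be) * ev p.NV x f c + (al * (3 * R.d w) + be * R.d w) := by ring
    omega

lemma opP_sound (hp : PrmOK p n N) {w i : ℕ} (h : AllBad.{u} p n N (opP p s r w i)) :
    AllBad.{u} p n N (s :: r) := by
  refine ifs_sound (fun hb hf => ?_) h
  simp only [bnd_true, ble_iff] at hb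
  have hf := allBad_cons.1 hf
  refine allBad_cons.2 ⟨fun R val x hh => ?_, hf.2⟩
  have := opP_exact hp hh hb.1 hb.2
  exact hf.1 R val x (holds_setEx hh hb.1 this.1 this.2)

lemma Holds.comm {R : RG.{u} n N} {val : ℕ → R.E} {x : ℕ → ℕ}
    (h : Holds p R s val x) {i j : ℕ} (hi : i < s.nn) (hj : j < s.nn) (hij : n < i ∨ i ≠ j) :
    ip R (val i) (val j) = ip R (val (cj s i)) (val (cj s j)) := by
  rw [h.base.val_cj i hi, h.base.val_cj j hj]
  apply R.comm
  rintro ⟨e, b, hb, e2⟩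
  have := h.base.inj i hi j hj e
  rcases hij with h1 | h1
  · exact h.base.not_V hi h1 b hb e2
  · exact h1 this

lemma opE_sound (hp : PrmOK p n N) {i j w : ℕ} (h : AllBad.{u} p n N (opE p s r i j w)) :
    AllBad.{u} p n N (s :: r) := by
  refine leaf_sound (fun hb R val x hh => ?_) h
  unfold eqn at hb
  simp only [bnd_true, bor_true, bno_true, ble_iff] at hb
  obtain ⟨⟨hi, hj⟩, hij, ⟨hx, hf⟩, hlt⟩ := hb
  have hij2 : n < i ∨ i ≠ j := by
    rcases hij with h1 | h1
    · left; rw [← hp.n_eq]; exact h1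
    · right; intro e; rw [beq_true' e] at h1; exact absurd h1 (by simp)
  have h1 := dU_ge hh hi hj hx hf
  have h2 := dL_le hh (hh.base.cj_lt i hi) (hh.base.cj_lt j hj) (f4 w 22)
    (Nat.shiftRight (Nat.shiftRight w 26) (Nat.mul 7 (f4 w 18)))
  rw [← hh.comm hi hj hij2] at h2
  omega

lemma nrm_eq (hp : PrmOK p n N) {i : ℕ} (hi : i ≤ n) (R : RG.{u} n N) :
    ip R (R.V i) (R.V i) = nrm p i := by
  unfold ip nrm
  rw [R.norm i hi, hp.N_eq, hp.n_eq]
  by_cases h : n ≤ i
  · rw [Nat.ble_eq_true_of_le h, if_neg (by omega)]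
    rfl
  · rw [ble_false (by omega), if_pos (by omega)]

/-- exactness from the norm -/
lemma Holds.exact_of_norm {R : RG.{u} n N} {val : ℕ → R.E} {x : ℕ → ℕ}
    (h : Holds p R s val x) {i k X : ℕ} (hi : i < s.nn)
    (hle : ip R (val i) (val i) ≤ dL s i i k X) :
    (∀ j < s.nn, R.m (val i) (val j) = dg s.M (ix i j)) ∧
      ∀ w, (∀ j < s.nn, val j ≠ w) → R.m (val i) w = 0 := by
  have h1 : dL s i i k X ≤ ∑ t ∈ range s.nn, dg s.M (ix i t) * dg s.M (ix i t) := by
    unfold dL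
    rw [dotL_eq]
    refine le_trans (sum_le_128 _ _ fun t ht => ?_) ?_
    · rw [dgt_row, if_neg (by omega), zero_mul]
    · rw [h.row_sum hi]
      refine sum_le_sum fun t ht => ?_
      rw [dgt_row, if_pos (by have := h.base.nn_le; have := mem_range.1 ht; omega)]
  have h2 := R.sum_le h.base.inj (val i) (R.m (val i))
  have h3 : ∑ t ∈ range s.nn, dg s.M (ix i t) * dg s.M (ix i t) ≤
      ∑ t ∈ range s.nn, R.m (val i) (val t) * R.m (val i) (val t) :=
    sum_le_sum fun t ht => Nat.mul_le_mul (h.lo i hi t (mem_range.1 ht))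
      (h.lo i hi t (mem_range.1 ht))
  unfold ip at hle
  constructor
  · intro j hj
    by_contra hne
    have hlt : dg s.M (ix i j) < R.m (val i) (val j) :=
      lt_of_le_of_ne (h.lo i hi j hj) (Ne.symm hne)
    have : ∑ t ∈ range s.nn, dg s.M (ix i t) * dg s.M (ix i t) <
        ∑ t ∈ range s.nn, R.m (val i) (val t) * R.m (val i) (val t) := by
      refine sum_lt_sum (fun t ht => Nat.mul_le_mul (h.lo i hi t (mem_range.1 ht))
        (h.lo i hi t (mem_range.1 ht))) ⟨j, mem_range.2 hj, ?_⟩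
      exact Nat.mul_self_lt_mul_self hlt
    omega
  · intro w hw
    by_contra hne
    have h4 := R.sum_le_extra h.base.inj (val i) (R.m (val i)) w hw
    have h5 : 0 < R.m (val i) w * R.m (val i) w := by positivity
    omega

lemma opN_sound (hp : PrmOK p n N) {i w : ℕ} (h : AllBad.{u} p n N (opN p s r i w)) :
    AllBad.{u} p n N (s :: r) := by
  refine ifs_sound (fun hb hf => ?_) h
  simp only [bnd_true, ble_iff] at hb
  obtain ⟨hi, hb⟩ := hb
  have hf := allBad_cons.1 hf
  refine allBad_cons.2 ⟨fun R val x hh => ?_, hf.2⟩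
  by_cases hin : i ≤ n
  · rw [hp.n_eq, Nat.ble_eq_true_of_le hin] at hb
    change Nat.ble (nrm p i) (dL s i i (f4 w 22) (Nat.shiftRight w 26)) = true at hb
    rw [ble_iff, ← nrm_eq hp hin R, ← hh.base.valV i hin] at hb
    have := hh.exact_of_norm hi hb
    exact hf.1 R val x (holds_setEx hh hi this.1 this.2)
  · have e0 : Nat.ble i n = false := ble_false (by omega)
    rw [hp.n_eq, e0] at hb
    change bnd (bnd (tb s.ex (cj s i)) (full s (cj s i) (f4 w 18) (Nat.shiftRight w 26)))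
      (Nat.ble (dL s (cj s i) (cj s i) (f4 w 18) (Nat.shiftRight w 26))
        (dL s i i (f4 w 22) (Nat.shiftRight w (Nat.add 26 (Nat.mul 7 (f4 w 18)))))) = true at hb
    simp only [bnd_true, ble_iff] at hb
    obtain ⟨⟨hx, hfu⟩, hle⟩ := hb
    have h1 := dL_ge hh (hh.base.cj_lt i hi) hx hfu
    rw [← hh.comm hi hi (Or.inl (by omega))] at h1
    have := hh.exact_of_norm hi (le_trans h1 hle)
    exact hf.1 R val x (holds_setEx hh hi this.1 this.2)

lemma opH_sound (hp : PrmOK p n N) {i w : ℕ} (h : AllBad.{u} p n N (opH p s r i w)) :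
    AllBad.{u} p n N (s :: r) := by
  refine leaf_sound (fun hb R val x hh => ?_) h
  simp only [bnd_true, ble_iff] at hb
  rw [hp.n_eq] at hb
  have hi : i < s.nn := lt_of_le_of_lt hb.1 hh.base.n_lt
  have h1 := dL_le hh hi hi (f4 w 22) (Nat.shiftRight w 26)
  rw [hh.base.valV i hb.1, nrm_eq hp hb.1 R] at h1
  have := hb.2
  omega

lemma opO_sound (hp : PrmOK p n N) {i w : ℕ} (h : AllBad.{u} p n N (opO p s r i w)) :
    AllBad.{u} p n N (s :: r) := by
  refine leaf_sound (fun hb R val x hh => ?_) h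
  simp only [bnd_true, ble_iff] at hb
  rw [hp.n_eq] at hb
  obtain ⟨⟨hin, hx⟩, hf, hlt⟩ := hb
  have hi : i < s.nn := lt_of_le_of_lt hin hh.base.n_lt
  have h1 := dL_ge hh hi hx hf
  rw [hh.base.valV i hin, nrm_eq hp hin R] at h1
  omega

lemma opX_sound {i j : ℕ} (h : AllBad.{u} p n N (opX s r i j)) :
    AllBad.{u} p n N (s :: r) := by
  refine leaf_sound (fun hb R val x hh => ?_) h
  simp only [bnd_true, ble_iff] at hb
  obtain ⟨⟨hi, hj⟩, hlt⟩ := hb
  have h1 := hi_ge hh hi hj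
  have h2 := hh.lo i hi j hj
  omega

lemma opK_sound (hp : PrmOK p n N) {i j : ℕ} (h : AllBad.{u} p n N (opK p s r i j)) :
    AllBad.{u} p n N (s :: r) := by
  refine leaf_sound (fun hb R val x hh => ?_) h
  simp only [bnd_true, ble_iff] at hb
  rw [hp.n_eq] at hb
  obtain ⟨⟨⟨hi1, hin⟩, hnj, hj⟩, hlt⟩ := hb
  have hn := hh.base.n_lt
  have e : Nat.sub (Nat.succ n) i = n + 1 - i := rfl
  rw [e] at hlt
  have h1 := hi_ge hh (q := n + 1 - i) (by omega) (hh.base.cj_lt j hj)
  have h2 := hh.lo i (by omega) j hj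
  rw [hh.base.valV i hin, R.link i hi1 hin (val j) (hh.base.not_V hj hnj),
    ← hh.base.val_cj j hj, ← hh.base.valV (n + 1 - i) (by omega)] at h2
  omega

end H39.CN
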