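import Pool.Agent.H39.CN.Ops

namespace H39.CN

open Finset

universe u

variable {p : Prm} {n N : ℕ} {s : St} {r : List St}

lemma setLo_nn (i j v : ℕ) : (setLo p s i j v).nn = s.nn := by
  unfold setLo
  cases Nat.ble v (dg s.M (ix i j))
  · cases Nat.beq (cj s j) i <;> rfl
  · rfl

lemma room_iff {i j : ℕ} (h : room p s i j = true) :
    i < s.nn ∧ j < s.nn ∧ s.nn + 2 ≤ 128 ∧ s.nv < p.NV := by
  unfold room at h
  simp only [bnd_true, ble_iff] at h
  exact ⟨h.1.1, h.1.2, h.2.1, h.2.2⟩

section join

variable {R : RG.{u} n N} {val : ℕ → R.E} {x : ℕ → ℕ} {w : R.E} {i j : ℕ}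

lemma holds_join2 (hp : PrmOK p n N) (h : Holds p R s val x) (hw : ∀ i < s.nn, val i ≠ w)
    (hc : R.c w ≠ w) {g : ℕ} (hg : R.g w = g) (hr : room p s i j = true)
    (hi : R.m (val i) w ≠ 0) (hj : R.m (val j) w ≠ 0) :
    ∃ val' x', Holds p R (join2 p s g i j) val' x' := by
  obtain ⟨h1, h2, h3, h4⟩ := room_iff hr
  have hn := holds_new2 hp h hw hc h3 h4 hg
  refine ⟨_, _, holds_setLo hp (holds_setLo hp hn (i := i) (j := s.nn) (v := 1) ?_ ?_ ?_)
    (i := j) (j := s.nn) (v := 1) ?_ ?_ ?_⟩
  · show i < s.nn + 2; omega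
  · show s.nn < s.nn + 2; omega
  · rw [ext2_old h1, ext2_0]; omega
  · rw [setLo_nn]; show j < s.nn + 2; omega
  · rw [setLo_nn]; show s.nn < s.nn + 2; omega
  · rw [ext2_old h2, ext2_0]; omega

lemma holds_join1 (hp : PrmOK p n N) (h : Holds p R s val x) (hw : ∀ i < s.nn, val i ≠ w)
    (hc : R.c w = w) (hg : R.g w = 0) (hr : room p s i j = true)
    (hi : R.m (val i) w ≠ 0) (hj : R.m (val j) w ≠ 0) :
    ∃ val' x', Holds p R (join1 p s i j) val' x' := by
  obtain ⟨h1, h2, h3, h4⟩ := room_iff hr
  have hn := holds_new1 hp h hw hc (by omega) h4 hg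
  refine ⟨_, _, holds_setLo hp (holds_setLo hp hn (i := i) (j := s.nn) (v := 1) ?_ ?_ ?_)
    (i := j) (j := s.nn) (v := 1) ?_ ?_ ?_⟩
  · show i < s.nn + 1; omega
  · show s.nn < s.nn + 1; omega
  · rw [ext1_old h1, ext1_0]; omega
  · rw [setLo_nn]; show j < s.nn + 1; omega
  · rw [setLo_nn]; show s.nn < s.nn + 1; omega
  · rw [ext1_old h2, ext1_0]; omega

end join

/-- the list of the children for a new neighbour -/
lemma new_bad (hp : PrmOK p n N) {R : RG.{u} n N} {val : ℕ → R.E} {x : ℕ → ℕ}
    (h : Holds p R s val x) {i j : ℕ} (hr : room p s i j = true) {w : R.E}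
    (hw : ∀ i < s.nn, val i ≠ w) (hi : R.m (val i) w ≠ 0) (hj : R.m (val j) w ≠ 0) {g : ℕ}
    (hg : g = (gr s i + 1) % 3) {f : List St}
    (hb : AllBad.{u} p n N (Bool.rec (motive := fun _ => List St) (List.cons (join2 p s g i j) f)
      (List.cons (join2 p s 0 i j) (List.cons (join1 p s i j) f)) (Nat.beq g 0))) : False := by
  obtain ⟨h1, h2, h3, h4⟩ := room_iff hr
  have hgw : R.g w = g := by rw [R.g_m _ _ hi, h.base.val_g i h1, hg]
  by_cases hg0 : g = 0
  · rw [beq_true' hg0] at hb
    have hb := allBad_cons.1 hb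
    have hb2 := allBad_cons.1 hb.2
    by_cases hc : R.c w = w
    · obtain ⟨v', x', hh⟩ := holds_join1 hp h hw hc (by rw [hgw, hg0]) hr hi hj
      exact hb2.1 R v' x' hh
    · obtain ⟨v', x', hh⟩ := holds_join2 hp h hw hc (g := 0) (by rw [hgw, hg0]) hr hi hj
      exact hb.1 R v' x' hh
  · rw [beq_false hg0] at hb
    have hb := allBad_cons.1 hb
    have hc : R.c w ≠ w := by
      intro e
      have := R.g_c w
      rw [e, hgw] at this
      have := R.g_lt w
      omega
    obtain ⟨v', x', hh⟩ := holds_join2 hp h hw hc hgw hr hi hj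
    exact hb.1 R v' x' hh

lemma new_tail {f : List St} {g i j : ℕ}
    (hb : AllBad.{u} p n N (Bool.rec (motive := fun _ => List St) (List.cons (join2 p s g i j) f)
      (List.cons (join2 p s 0 i j) (List.cons (join1 p s i j) f)) (Nat.beq g 0))) :
    AllBad.{u} p n N f := by
  cases h : Nat.beq g 0
  · rw [h] at hb; exact (allBad_cons.1 hb).2
  · rw [h] at hb; exact (allBad_cons.1 (allBad_cons.1 hb).2).2

lemma tC_iff (hp : PrmOK p n N) {R : RG.{u} n N} {val : ℕ → R.E} {x : ℕ → ℕ}
    (h : Holds p R s val x) {g i j isn w : ℕ} (hi : i < s.nn) (hj : j < s.nn)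
    (ht : tC p s g i j isn w = true) : uS s g i j < ip R (val i) (val j) := by
  unfold tC at ht
  cases hb : Nat.beq isn 1
  · rw [hb] at ht
    change bnd (bor (Nat.ble (Nat.succ p.n) i) (bno (Nat.beq i j)))
      (Nat.ble (Nat.succ (uS s g i j))
        (dL s (cj s i) (cj s j) (f4 w 22) (Nat.shiftRight w 26))) = true at ht
    simp only [bnd_true, bor_true, bno_true, ble_iff] at ht
    obtain ⟨hij, hlt⟩ := ht
    have hij2 : n < i ∨ i ≠ j := by
      rcases hij with h1 | h1
      · left; rw [← hp.n_eq]; exact h1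
      · right; intro e; rw [beq_true' e] at h1; exact absurd h1 (by simp)
    have h2 := dL_le h (h.base.cj_lt i hi) (h.base.cj_lt j hj) (f4 w 22) (Nat.shiftRight w 26)
    rw [← h.comm hi hj hij2] at h2
    omega
  · rw [hb] at ht
    change bnd (bnd (Nat.beq i j) (Nat.ble i p.n)) (Nat.ble (Nat.succ (uS s g i j)) (nrm p i))
      = true at ht
    simp only [bnd_true, ble_iff] at ht
    rw [hp.n_eq] at ht
    obtain ⟨⟨hij, hin⟩, hlt⟩ := ht
    have := Nat.eq_of_beq_eq_true hij
    subst this
    rw [← nrm_eq hp hin R, ← h.base.valV i hin] at hlt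
    exact hlt

lemma opC_sound (hp : PrmOK p n N) {i j isn w : ℕ} (h : AllBad.{u} p n N (opC p s r i j isn w)) :
    AllBad.{u} p n N (s :: r) := by
  refine ifs_sound (fun hb hf => ?_) h
  rw [bnd_true] at hb
  refine allBad_cons.2 ⟨fun R val x hh => ?_, new_tail hf⟩
  obtain ⟨h1, h2, h3, h4⟩ := room_iff hb.1
  have ht := tC_iff hp hh h1 h2 hb.2
  have hs := uS_ge hh h1 h2 (g := Nat.mod (Nat.succ (gr s i)) 3) rfl
  have hex : ∃ w, (∀ t < s.nn, val t ≠ w) ∧ R.m (val i) w * R.m (val j) w ≠ 0 := by
    by_contra hno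
    push Not at hno
    have := R.sum_eq hh.base.inj (val i) (R.m (val j)) hno
    unfold ip at ht
    omega
  obtain ⟨v, hv, hne⟩ := hex
  exact new_bad hp hh hb.1 hv (fun e => hne (by rw [e, zero_mul]))
    (fun e => hne (by rw [e, mul_zero])) rfl hf

lemma opB_sound (hp : PrmOK p n N) {i : ℕ} (h : AllBad.{u} p n N (opB p s r i)) :
    AllBad.{u} p n N (s :: r) := by
  refine ifs_sound (fun hb hf => ?_) h
  rw [bnd_true] at hb
  have hf' : AllBad.{u} p n N (Bool.rec (motive := fun _ => List St)
      (List.cons (join2 p s (Nat.mod (Nat.succ (gr s i)) 3) i i) (List.cons (setEx s i) r))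
      (List.cons (join2 p s 0 i i) (List.cons (join1 p s i i) (List.cons (setEx s i) r)))
      (Nat.beq (Nat.mod (Nat.succ (gr s i)) 3) 0)) := hf
  have htl := allBad_cons.1 (new_tail hf')
  refine allBad_cons.2 ⟨fun R val x hh => ?_, htl.2⟩
  obtain ⟨h1, -, h3, h4⟩ := room_iff hb.1
  by_cases hex : ∃ w, (∀ t < s.nn, val t ≠ w) ∧ R.m (val i) w ≠ 0
  · obtain ⟨v, hv, hne⟩ := hex
    exact new_bad hp hh hb.1 hv hne hne rfl hf'
  · push Not at hex
    have hcl := closed_iff hb.2
    refine htl.1 R val x (holds_setEx hh h1 (fun t ht => ?_) hex)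
    by_cases hg : gr s t = Nat.mod (Nat.succ (gr s i)) 3
    · have e1 := hcl t ht hg
      have e2 := hi_ge hh h1 ht
      have e3 := hh.lo i h1 t ht
      omega
    · have e0 : R.m (val i) (val t) = 0 := by
        by_contra h0
        apply hg
        rw [← hh.base.val_g t ht, R.g_m _ _ h0, hh.base.val_g i h1]
        rfl
      have e3 := hh.lo i h1 t ht
      omega

lemma step1_sound (hp : PrmOK p n N) {w i j : ℕ} : ∀ {o : ℕ},
    AllBad.{u} p n N (step1 p s r w i j o) → AllBad.{u} p n N (s :: r)
  | 0, h => opS_sound hp h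
  | 1, h => opL_sound hp h
  | 2, h => opE_sound hp h
  | 3, h => opP_sound hp h
  | 4, h => opC_sound hp h
  | 5, h => opN_sound hp h
  | 6, h => opK_sound hp h
  | 7, h => opH_sound hp h
  | 8, h => opX_sound h
  | 9, h => opB_sound hp h
  | _ + 10, h => opO_sound hp h

lemma step_sound (hp : PrmOK p n N) {w : ℕ} (h : AllBad.{u} p n N (step p w s r)) :
    AllBad.{u} p n N (s :: r) := step1_sound hp h

lemma execP_sound (hp : PrmOK p n N) (l : List ℕ) : ∀ stk,
    AllBad.{u} p n N (execP p l stk) → AllBad.{u} p n N stk := by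
  induction l with
  | nil => intro stk h; exact h
  | cons w l ih =>
    intro stk h
    cases stk with
    | nil => intro s hs; simp at hs
    | cons s rest => exact step_sound hp (ih _ h)

lemma exec_sound (hp : PrmOK p n N) (l : List ℕ) : ∀ stk,
    exec p l stk = true → AllBad.{u} p n N stk := by
  induction l with
  | nil =>
    intro stk h
    cases stk with
    | nil => intro s hs; simp at hs
    | cons s rest => exact absurd h (by intro h; exact Bool.noConfusion h)
  | cons X l ih => intro stk h; exact execP_sound hp _ _ (ih _ h)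

lemma exec_bad (hp : PrmOK p n N) {l : List ℕ} (h : exec p l [s] = true) : Bad.{u} p n N s :=
  (allBad_cons.1 (exec_sound hp l _ h)).1

/-! ### skeletons -/

lemma eqSt_eq {a b : St} (h : eqSt a b = true) : a = b := by
  unfold eqSt at h
  simp only [bnd_true, Nat.beq_eq] at h
  cases a; cases b
  simp only at h
  simp only [St.mk.injEq]
  tauto

lemma execRP_sound (hp : PrmOK p n N) (l : List ℕ) : ∀ pr,
    (AllBad.{u} p n N pr.2 → AllBad.{u} p n N (execRP p l pr).2) ∧
    (AllBad.{u} p n N pr.2 → AllBad.{u} p n N (execRP p l pr).1 → AllBad.{u} p n N pr.1) := by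
  induction l with
  | nil => intro pr; exact ⟨fun h => h, fun _ h => h⟩
  | cons w l ih =>
    rintro ⟨stk, outs⟩
    cases stk with
    | nil => exact ⟨fun h => h, fun _ _ s hs => by simp at hs⟩
    | cons s r =>
      cases hb : Nat.beq w 15
      · have e : execRP p (w :: l) (s :: r, outs) = execRP p l (step p w s r, outs) := by
          show Bool.rec (motive := fun _ => List St × List St)
            (execRP p l (step p w s r, outs)) _ (Nat.beq w 15) = _
          rw [hb]
        rw [e]
        have h1 := ih (step p w s r, outs)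
        exact ⟨h1.1, fun h2 h3 => step_sound hp (h1.2 h2 h3)⟩
      · cases outs with
        | nil =>
          have e : execRP p (w :: l) (s :: r, []) = (s :: r, []) := by
            show Bool.rec (motive := fun _ => List St × List St) _
              (s :: r, []) (Nat.beq w 15) = _
            rw [hb]
          rw [e]
          exact ⟨fun h => h, fun _ h => h⟩
        | cons o os =>
          cases hq : eqSt s o
          · have e : execRP p (w :: l) (s :: r, o :: os) = (s :: r, o :: os) := by
              show Bool.rec (motive := fun _ => List St × List St) _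
                (Bool.rec (motive := fun _ => List St × List St) (s :: r, o :: os)
                  (execRP p l (r, os)) (eqSt s o)) (Nat.beq w 15) = _
              rw [hb, hq]
            rw [e]
            exact ⟨fun h => h, fun _ h => h⟩
          · have e : execRP p (w :: l) (s :: r, o :: os) = execRP p l (r, os) := by
              show Bool.rec (motive := fun _ => List St × List St) _
                (Bool.rec (motive := fun _ => List St × List St) (s :: r, o :: os)
                  (execRP p l (r, os)) (eqSt s o)) (Nat.beq w 15) = _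
              rw [hb, hq]
            rw [e]
            have h1 := ih (r, os)
            refine ⟨fun h => h1.1 (allBad_cons.1 h).2, fun h2 h3 => ?_⟩
            have h4 := allBad_cons.1 h2
            exact allBad_cons.2 ⟨by rw [eqSt_eq hq]; exact h4.1, h1.2 h4.2 h3⟩

lemma execR_sound (hp : PrmOK p n N) (l : List ℕ) : ∀ stk outs,
    execR p l stk outs = true → AllBad.{u} p n N outs → AllBad.{u} p n N stk := by
  have key : ∀ (l : List ℕ) (pr : List St × List St),
      List.rec (motive := fun _ => List St × List St → Bool)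
      (fun pr => Prod.rec (motive := fun _ => Bool) (fun stk _ =>
        List.rec (motive := fun _ => Bool) true (fun _ _ _ => false) stk) pr)
      (fun X _ ih pr => ih (execRP p (unp 64 X) pr)) l pr = true →
      AllBad.{u} p n N pr.2 → AllBad.{u} p n N pr.1 := by
    intro l
    induction l with
    | nil =>
      rintro ⟨stk, outs⟩ h _
      cases stk with
      | nil => intro s hs; simp at hs
      | cons s rest => exact absurd h (by intro h; exact Bool.noConfusion h)
    | cons X l ih =>
      intro pr h h2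
      have h1 := execRP_sound hp (unp 64 X) pr
      exact h1.2 h2 (ih _ h (h1.1 h2))
  intro stk outs h h2
  exact key l (stk, outs) h h2

lemma execR_bad (hp : PrmOK p n N) {l : List ℕ} {outs : List St}
    (h : execR p l [s] outs = true) (ho : AllBad.{u} p n N outs) : Bad.{u} p n N s :=
  (allBad_cons.1 (execR_sound hp l _ _ h ho)).1

lemma allBad_nil : AllBad.{u} p n N [] := fun s hs => by simp at hs

end H39.CN
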