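import Pool.Agent.H39.CN.LP

namespace H39.CN

open Finset

/-- degree of the hidden neighbour of `V_b` -/
def hid (n b : ℕ) : ℕ := (n + 1 - b) * b * (n + 1) / 2

/-- reduced graded structure -/
structure RG (n N : ℕ) where
  E : Type*
  m : E → E →₀ ℕ
  c : E → E
  d : E → ℕ
  g : E → ℕ
  V : ℕ → E
  c_c : ∀ u, c (c u) = u
  m_c : ∀ u v, m (c v) (c u) = m u v
  d_pos : ∀ u, 1 ≤ d u
  d_c : ∀ u, d (c u) = d u
  g_lt : ∀ u, g u < 3
  g_m : ∀ u v, m u v ≠ 0 → g v = (g u + 1) % 3
  g_c : ∀ u, g (c u) = (3 - g u) % 3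
  V_inj : ∀ b ≤ n, ∀ e ≤ n, V b = V e → b = e
  V_c : ∀ b ≤ n, c (V b) = V (n - b)
  V_d : ∀ b ≤ n, d (V b) = dV n b
  V_g : ∀ b ≤ n, g (V b) = (n + b) % 3
  deg : ∀ u, (∀ b ≤ n, u ≠ V b) → ((m u).sum fun w k => k * d w) = 3 * d u
  degV : ∀ b ≤ n, ((m (V b)).sum fun w k => k * d w) + hid n b = 3 * dV n b
  comm : ∀ u v, ¬ (u = v ∧ ∃ b ≤ n, u = V b) →
    ((m u).sum fun w k => k * m v w) = ((m (c u)).sum fun w k => k * m (c v) w)
  norm : ∀ b ≤ n, ((m (V b)).sum fun w k => k * m (V b) w) = N + if b < n then 1 else 0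
  VV : ∀ b ≤ n, ∀ e ≤ n, ¬ (n = 4 ∧ b = 0 ∧ e = 4) → m (V b) (V e) = if e = b + 1 then 1 else 0
  link : ∀ b, 1 ≤ b → b ≤ n → ∀ v, (∀ e ≤ n, v ≠ V e) → m (V b) v = m (V (n + 1 - b)) (c v)

namespace RG

variable {n N : ℕ} (R : RG n N)

/-- hidden degree -/
noncomputable def hd (u : R.E) : ℕ := by
  classical exact if h : ∃ b, b ≤ n ∧ u = R.V b then hid n h.choose else 0

lemma hd_V {b : ℕ} (hb : b ≤ n) : R.hd (R.V b) = hid n b := by
  unfold hd
  have h : ∃ e, e ≤ n ∧ R.V b = R.V e := ⟨b, hb, rfl⟩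
  rw [dif_pos h]
  have := h.choose_spec
  exact congrArg (hid n) (R.V_inj b hb _ this.1 this.2).symm

lemma hd_not {u : R.E} (h : ∀ b ≤ n, u ≠ R.V b) : R.hd u = 0 := by
  unfold hd
  rw [dif_neg]
  rintro ⟨b, hb, e⟩
  exact h b hb e

lemma degree (u : R.E) : ((R.m u).sum fun w k => k * R.d w) + R.hd u = 3 * R.d u := by
  by_cases h : ∃ b, b ≤ n ∧ u = R.V b
  · obtain ⟨b, hb, rfl⟩ := h
    rw [R.hd_V hb, R.degV b hb, R.V_d b hb]
  · push Not at h
    rw [R.hd_not h, R.deg u h, add_zero]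

lemma c_inj {u v : R.E} (h : R.c u = R.c v) : u = v := by
  rw [← R.c_c u, h, R.c_c]

lemma m_c' (u v : R.E) : R.m (R.c u) v = R.m (R.c v) u := by
  have := R.m_c u (R.c v)
  rw [R.c_c] at this
  have h2 := R.m_c (R.c v) u
  rw [R.c_c] at h2
  exact h2

lemma term_le (u w : R.E) : R.m u w * R.d w ≤ 3 * R.d u := by
  rw [← R.degree u]
  by_cases h : w ∈ (R.m u).support
  · refine le_trans ?_ (Nat.le_add_right _ _)
    exact single_le_sum (f := fun w => R.m u w * R.d w) (fun _ _ => Nat.zero_le _) h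
  · rw [Finsupp.notMem_support_iff.1 h]; simp

lemma term_le' (u w : R.E) : R.m u w * R.d u ≤ 3 * R.d w := by
  have := R.term_le (R.c w) (R.c u)
  rwa [R.m_c, R.d_c, R.d_c] at this

lemma m_le (u w : R.E) : R.m u w ≤ 3 := by
  by_contra h
  push Not at h
  have h1 := R.term_le u w
  have h2 := R.term_le' u w
  have h3 := R.d_pos u
  have h4 := R.d_pos w
  nlinarith

lemma row_le (u : R.E) : (R.m u).sum (fun _ k => k) ≤ 9 := by
  have h1 : ((R.m u).sum fun _ k => k) * R.d u ≤ 9 * R.d u := by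
    have h2 : ((R.m u).sum fun w k => k * R.d w) ≤ 3 * R.d u := by
      rw [← R.degree u]; exact Nat.le_add_right _ _
    have h3 : ((R.m u).sum fun _ k => k) * R.d u ≤ 3 * ((R.m u).sum fun w k => k * R.d w) := by
      unfold Finsupp.sum
      rw [sum_mul, mul_sum]
      refine sum_le_sum fun w hw => ?_
      have h5 := R.term_le' u w
      have h6 : 1 ≤ R.m u w := Nat.one_le_iff_ne_zero.2 (Finsupp.mem_support_iff.1 hw)
      have h7 : R.d u ≤ 3 * R.d w := le_trans (Nat.le_mul_of_pos_left _ h6) h5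
      calc R.m u w * R.d u ≤ R.m u w * (3 * R.d w) := Nat.mul_le_mul_left _ h7
        _ = _ := by ring
    calc _ ≤ _ := h3
      _ ≤ 3 * (3 * R.d u) := Nat.mul_le_mul_left _ h2
      _ = _ := by ring
  exact Nat.le_of_mul_le_mul_right h1 (R.d_pos u)

/-- a sum over an injective family of names is at most the full sum -/
lemma sum_le {k : ℕ} {val : ℕ → R.E} (hinj : ∀ i < k, ∀ j < k, val i = val j → i = j)
    (u : R.E) (F : R.E → ℕ) :
    ∑ t ∈ range k, R.m u (val t) * F (val t) ≤ (R.m u).sum fun w a => a * F w := by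
  classical
  have hI : Set.InjOn val (range k : Set ℕ) := fun i hi j hj e =>
    hinj i (by simpa using hi) j (by simpa using hj) e
  rw [← sum_image (f := fun w => R.m u w * F w) hI]
  unfold Finsupp.sum
  calc ∑ w ∈ image val (range k), R.m u w * F w
      = ∑ w ∈ (image val (range k)).filter (fun w => R.m u w ≠ 0), R.m u w * F w := by
        rw [sum_filter]
        refine sum_congr rfl fun w _ => ?_
        by_cases h : R.m u w = 0 <;> simp [h]
    _ ≤ _ := by
        refine sum_le_sum_of_subset fun w hw => ?_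
        rw [mem_filter] at hw
        exact Finsupp.mem_support_iff.2 hw.2

/-- with an extra element -/
lemma sum_le_extra {k : ℕ} {val : ℕ → R.E} (hinj : ∀ i < k, ∀ j < k, val i = val j → i = j)
    (u : R.E) (F : R.E → ℕ) (w : R.E) (hw : ∀ t < k, val t ≠ w) :
    ∑ t ∈ range k, R.m u (val t) * F (val t) + R.m u w * F w ≤
      (R.m u).sum fun w a => a * F w := by
  have h := R.sum_le (k := k + 1) (val := fun t => if t = k then w else val t) (by
    intro i hi j hj e
    split_ifs at e with h1 h2 h2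
    · omega
    · exact absurd e.symm (hw j (by omega))
    · exact absurd e (hw i (by omega))
    · exact hinj i (by omega) j (by omega) e) u F
  rw [sum_range_succ] at h
  rw [if_pos rfl] at h
  convert h using 2
  refine sum_congr rfl fun t ht => ?_
  rw [if_neg (by have := mem_range.1 ht; omega)]

/-- if the row vanishes outside the names the sum is over the names -/
lemma sum_eq {k : ℕ} {val : ℕ → R.E} (hinj : ∀ i < k, ∀ j < k, val i = val j → i = j)
    (u : R.E) (F : R.E → ℕ) (h0 : ∀ w, (∀ t < k, val t ≠ w) → R.m u w * F w = 0) :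
    ∑ t ∈ range k, R.m u (val t) * F (val t) = (R.m u).sum fun w a => a * F w := by
  classical
  refine le_antisymm (R.sum_le hinj u F) ?_
  have hI : Set.InjOn val (range k : Set ℕ) := fun i hi j hj e =>
    hinj i (by simpa using hi) j (by simpa using hj) e
  rw [← sum_image (f := fun w => R.m u w * F w) hI]
  unfold Finsupp.sum
  calc ∑ w ∈ (R.m u).support, R.m u w * F w
      = ∑ w ∈ ((R.m u).support).filter (fun w => R.m u w * F w ≠ 0), R.m u w * F w := by
        rw [sum_filter]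
        refine sum_congr rfl fun w _ => ?_
        by_cases h : R.m u w * F w = 0 <;> simp [h]
    _ ≤ _ := by
        refine sum_le_sum_of_subset fun w hw => ?_
        rw [mem_filter] at hw
        by_contra hn
        refine hw.2 (h0 w fun t ht e => hn ?_)
        rw [mem_image]
        exact ⟨t, mem_range.2 ht, e⟩

end RG

end H39.CN
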