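import Pool.Agent.H39.CN.Hold

namespace H39.CN

open Finset

variable {p : Prm} {n N : ℕ} {R : RG n N} {s : St} {val : ℕ → R.E} {x : ℕ → ℕ}

lemma dg_lt (X k : ℕ) : dg X k < 4 := by rw [dg_eq]; exact dgt_lt 2 X k

lemma mat1 {X k d : ℕ} (h : dg X k + d < 4) (j : ℕ) :
    dg (X + Nat.shiftLeft d (Nat.mul 2 k)) j = dg X j + if j = k then d else 0 := by
  rw [nat_shl]
  change dg (X + d * 2 ^ (2 * k)) j = _
  rw [dg_eq, dg_eq, dgt_add (by rw [← dg_eq]; exact h)]
  split_ifs with h1
  · rw [h1]
  · rfl

lemma mat2 {X k l d : ℕ} (h : dg X k + d < 4) (h' : dg X l + d < 4) (hkl : k ≠ l) (j : ℕ) :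
    dg (X + Nat.add (Nat.shiftLeft d (Nat.mul 2 k)) (Nat.shiftLeft d (Nat.mul 2 l))) j =
      dg X j + if j = k ∨ j = l then d else 0 := by
  change dg (X + (Nat.shiftLeft d (Nat.mul 2 k) + Nat.shiftLeft d (Nat.mul 2 l))) j = _
  rw [← add_assoc, mat1 (by rw [mat1 h, if_neg hkl.symm]; omega), mat1 h]
  by_cases h1 : j = k <;> by_cases h2 : j = l <;> simp [h1, h2]
  all_goals omega

/-- the increment function -/
noncomputable def inc (d a b i j : ℕ) : ℕ := if ix i j = a ∨ ix i j = b then d else 0

lemma arow_upd1 {X i d sa' : ℕ} (h : dgt sa' X i + d < 2 ^ sa') (k : ℕ) :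
    dgt sa' (X + Nat.shiftLeft d (Nat.mul sa' i)) k = if k = i then dgt sa' X i + d else dgt sa' X k := by
  rw [nat_shl]
  exact dgt_add h k

lemma setLo_ge {i j v : ℕ} (h : v ≤ dg s.M (ix i j)) : setLo p s i j v = s := by
  unfold setLo
  rw [Nat.ble_eq_true_of_le h]

lemma ble_false {a b : ℕ} (h : b < a) : Nat.ble a b = false := by
  rcases hh : Nat.ble a b with _ | _
  · rfl
  · have := Nat.le_of_ble_eq_true hh; omega

lemma beq_false {a b : ℕ} (h : a ≠ b) : Nat.beq a b = false := by
  rcases hh : Nat.beq a b with _ | _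
  · rfl
  · exact absurd (Nat.eq_of_beq_eq_true hh) h

lemma beq_true' {a b : ℕ} (h : a = b) : Nat.beq a b = true := by
  subst h; exact Nat.beq_refl a

/-- raising a lower bound keeps the description -/
lemma holds_setLo (hp : PrmOK p n N) (h : Holds p R s val x) {i j v : ℕ} (hi : i < s.nn)
    (hj : j < s.nn) (hv : v ≤ R.m (val i) (val j)) : Holds p R (setLo p s i j v) val x := by
  rcases Nat.lt_or_ge (dg s.M (ix i j)) v with hlt | hge
  swap
  · rw [setLo_ge hge]; exact h
  have hnn := h.base.nn_le
  have hv3 : v ≤ 3 := le_trans hv (R.m_le _ _)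
  obtain ⟨d, hd⟩ := Nat.exists_eq_add_of_lt hlt
  have hd' : v - dg s.M (ix i j) = d + 1 := by omega
  have hci := h.base.cj_lt i hi
  have hcj := h.base.cj_lt j hj
  have hcci := h.base.cj_cj hi
  have hccj := h.base.cj_cj hj
  have hlos := h.los i hi j hj
  unfold setLo
  rw [ble_false hlt]
  show Holds p R (Bool.rec (motive := fun _ => St)
      (loAdd2 p s i j (cj s i) (cj s j) (v - (dg s.M (ix i j))))
      (loAdd1 p s i j (v - (dg s.M (ix i j))))
      (Nat.beq (cj s j) i)) val x
  rw [hd']
  have hsa : ∀ k, aRow p s k = dgt (sa p) s.A k := aRow_eq p s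
  have hle2 : ∀ i' < s.nn, ∀ j' < s.nn, ∀ a b, a = ix i j → b = ix (cj s j) (cj s i) →
      dg s.M (ix i' j') + inc (d + 1) a b i' j' ≤ R.m (val i') (val j') := by
    rintro i' hi' j' hj' a b rfl rfl
    unfold inc
    split_ifs with h1
    · rcases h1 with h1 | h1
      · obtain ⟨rfl, rfl⟩ := ix_inj (by omega) (by omega) h1
        omega
      · obtain ⟨rfl, rfl⟩ := ix_inj (by omega) (by omega) h1
        rw [h.base.m_sym hi hj]
        omega
    · exact h.lo i' hi' j' hj'
  by_cases hc : cj s j = i
  · -- symmetric entry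
    rw [beq_true' hc]
    show Holds p R (updMA s (Nat.shiftLeft (d + 1) (Nat.mul 2 (ix i j)))
      (Nat.shiftLeft (Nat.mul (d + 1) (unit p s j)) (Nat.mul (sa p) i))) val x
    have hc2 : cj s i = j := by rw [← hc, hccj]
    have hle2 : ∀ i' < s.nn, ∀ j' < s.nn,
      dg s.M (ix i' j') + inc (d + 1) (ix i j) (ix i j) i' j' ≤ R.m (val i') (val j') :=
      fun i' hi' j' hj' => hle2 i' hi' j' hj' _ _ rfl (by rw [hc, hc2])
    have hsum : ∀ i' < s.nn, ∑ t ∈ range s.nn, inc (d + 1) (ix i j) (ix i j) i' t * unit p s t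
        = if i' = i then (d + 1) * unit p s j else 0 := by
      intro i' hi'
      unfold inc
      simp only [or_self]
      split_ifs with hii
      · subst hii
        rw [sum_eq_single_of_mem j (mem_range.2 hj)]
        · rw [if_pos rfl]
        · intro t ht htj
          rw [if_neg, zero_mul]
          intro e
          exact htj (ix_inj (by have := mem_range.1 ht; omega) (by omega) e).2
      · refine sum_eq_zero fun t ht => ?_
        rw [if_neg, zero_mul]
        intro e
        exact hii (ix_inj (by have := mem_range.1 ht; omega) (by omega) e).1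
    have hlt1 := arow_lt hp h hi _ (hle2 i hi)
    rw [hsum i hi, if_pos rfl, hsa] at hlt1
    refine holds_MA hp h _ _ (inc (d + 1) (ix i j) (ix i j)) ?_ hle2 ?_ ?_ ?_ ?_
    · intro i' _ j' _
      rw [mat1 (by omega)]
      unfold inc
      simp only [or_self]
    · intro i' hi' j' hj'
      unfold inc
      simp only [or_self]
      have : (ix (cj s j') (cj s i') = ix i j) ↔ (ix i' j' = ix i j) := by
        constructor
        · intro e
          obtain ⟨e1, e2⟩ := ix_inj (by have := h.base.cj_lt i' hi'; omega) (by omega) e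
          have e3 : j' = j := by rw [← h.base.cj_cj hj', e1, hc2]
          have e4 : i' = i := by rw [← h.base.cj_cj hi', e2, hc]
          rw [e3, e4]
        · intro e
          obtain ⟨rfl, rfl⟩ := ix_inj (by omega) (by omega) e
          rw [hc, hc2]
      simp only [this]
    · intro i' hi' j' hj' hij
      unfold inc
      simp only [or_self]
      rw [if_neg]
      intro e
      obtain ⟨rfl, rfl⟩ := ix_inj (by omega) (by omega) e
      omega
    · intro i' hi'
      rw [hsum i' hi', aRow_eq, updMA_A]
      change dgt (sa p) (s.A + Nat.shiftLeft ((d + 1) * unit p s j) (Nat.mul (sa p) i)) i' = _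
      rw [arow_upd1 hlt1, ← hsa, ← hsa]
      split_ifs with e
      · rw [e]
      · rfl
    · intro i' hi'
      rw [aRow_eq, updMA_A]
      change dgt (sa p) (s.A + Nat.shiftLeft ((d + 1) * unit p s j) (Nat.mul (sa p) i)) i' = _
      rw [arow_upd1 hlt1, if_neg (by omega), ← hsa]
      exact h.A0 i' hi'
  · rw [beq_false hc]
    show Holds p R (updMA s
    (Nat.add (Nat.shiftLeft (d + 1) (Nat.mul 2 (ix i j)))
      (Nat.shiftLeft (d + 1) (Nat.mul 2 (ix (cj s j) (cj s i)))))
    (Nat.add (Nat.shiftLeft (Nat.mul (d + 1) (unit p s j)) (Nat.mul (sa p) i))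
      (Nat.shiftLeft (Nat.mul (d + 1) (unit p s (cj s i))) (Nat.mul (sa p) (cj s j))))) val x
    have hle2 : ∀ i' < s.nn, ∀ j' < s.nn,
      dg s.M (ix i' j') + inc (d + 1) (ix i j) (ix (cj s j) (cj s i)) i' j' ≤
        R.m (val i') (val j') :=
      fun i' hi' j' hj' => hle2 i' hi' j' hj' _ _ rfl rfl
    have hsum : ∀ i' < s.nn, ∑ t ∈ range s.nn,
        inc (d + 1) (ix i j) (ix (cj s j) (cj s i)) i' t * unit p s t
        = if i' = i then (d + 1) * unit p s j else if i' = cj s j then
          (d + 1) * unit p s (cj s i) else 0 := by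
      intro i' hi'
      unfold inc
      split_ifs with hii hij
      · subst hii
        rw [sum_eq_single_of_mem j (mem_range.2 hj)]
        · rw [if_pos (Or.inl rfl)]
        · intro t ht htj
          rw [if_neg, zero_mul]
          rintro (e | e)
          · exact htj (ix_inj (by have := mem_range.1 ht; omega) (by omega) e).2
          · exact hc (ix_inj (by have := mem_range.1 ht; omega) (by omega) e).1.symm
      · subst hij
        rw [sum_eq_single_of_mem (cj s i) (mem_range.2 hci)]
        · rw [if_pos (Or.inr rfl)]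
        · intro t ht htj
          rw [if_neg, zero_mul]
          rintro (e | e)
          · exact hii (ix_inj (by have := mem_range.1 ht; omega) (by omega) e).1
          · exact htj (ix_inj (by have := mem_range.1 ht; omega) (by omega) e).2
      · refine sum_eq_zero fun t ht => ?_
        rw [if_neg, zero_mul]
        rintro (e | e)
        · exact hii (ix_inj (by have := mem_range.1 ht; omega) (by omega) e).1
        · exact hij (ix_inj (by have := mem_range.1 ht; omega) (by omega) e).1
    have hlt1 := arow_lt hp h hi _ (hle2 i hi)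
    rw [hsum i hi, if_pos rfl, hsa] at hlt1
    have hlt2 := arow_lt hp h hcj _ (hle2 (cj s j) hcj)
    rw [hsum _ hcj, if_neg hc, if_pos rfl, hsa] at hlt2
    have hne : ix i j ≠ ix (cj s j) (cj s i) := fun e =>
      hc (ix_inj (by omega) (by omega) e).1.symm
    have hA2 : ∀ k, aRow p (updMA s
      (Nat.add (Nat.shiftLeft (d + 1) (Nat.mul 2 (ix i j)))
        (Nat.shiftLeft (d + 1) (Nat.mul 2 (ix (cj s j) (cj s i)))))
      (Nat.add (Nat.shiftLeft (Nat.mul (d + 1) (unit p s j)) (Nat.mul (sa p) i))
        (Nat.shiftLeft (Nat.mul (d + 1) (unit p s (cj s i))) (Nat.mul (sa p) (cj s j))))) k =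
        aRow p s k + if k = i then (d + 1) * unit p s j else if k = cj s j then
          (d + 1) * unit p s (cj s i) else 0 := by
      intro k
      rw [aRow_eq, updMA_A]
      change dgt (sa p) (s.A + (Nat.shiftLeft ((d + 1) * (unit p s j)) (Nat.mul (sa p) i) +
        Nat.shiftLeft ((d + 1) * (unit p s (cj s i))) (Nat.mul (sa p) (cj s j)))) k = _
      rw [← add_assoc, arow_upd1, arow_upd1 hlt1, arow_upd1 hlt1, hsa]
      · rw [if_neg hc]
        split_ifs with h1 h2 h2
        · exact absurd (h1.symm.trans h2) hc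
        · rw [h1]
        · rw [h2]
        · rfl
      · rw [arow_upd1 hlt1, if_neg hc]
        exact hlt2
    refine holds_MA hp h _ _ (inc (d + 1) (ix i j) (ix (cj s j) (cj s i))) ?_ hle2 ?_ ?_ ?_ ?_
    · intro i' _ j' _
      rw [mat2 (by omega) (by omega) hne]
      rfl
    · intro i' hi' j' hj'
      unfold inc
      have h1 : (ix (cj s j') (cj s i') = ix i j) ↔ (ix i' j' = ix (cj s j) (cj s i)) := by
        constructor
        · intro e
          obtain ⟨e1, e2⟩ := ix_inj (by have := h.base.cj_lt i' hi'; omega) (by omega) e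
          rw [← e1, ← e2, h.base.cj_cj hj', h.base.cj_cj hi']
        · intro e
          obtain ⟨rfl, rfl⟩ := ix_inj (by omega) (by omega) e
          rw [hcci, hccj]
      have h2 : (ix (cj s j') (cj s i') = ix (cj s j) (cj s i)) ↔ (ix i' j' = ix i j) := by
        constructor
        · intro e
          obtain ⟨e1, e2⟩ := ix_inj (by have := h.base.cj_lt i' hi'; omega) (by omega) e
          have e3 : j' = j := by rw [← h.base.cj_cj hj', e1, hccj]
          have e4 : i' = i := by rw [← h.base.cj_cj hi', e2, hcci]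
          rw [e3, e4]
        · intro e
          obtain ⟨rfl, rfl⟩ := ix_inj (by omega) (by omega) e
          rfl
      simp only [h1, h2, or_comm]
    · intro i' hi' j' hj' hij
      unfold inc
      rw [if_neg]
      rintro (e | e)
      · obtain ⟨rfl, rfl⟩ := ix_inj (by omega) (by omega) e
        omega
      · obtain ⟨rfl, rfl⟩ := ix_inj (by omega) (by omega) e
        omega
    · intro i' hi'
      rw [hsum i' hi', hA2]
    · intro i' hi'
      rw [hA2, if_neg (by omega), if_neg (by omega), add_zero]
      exact h.A0 i' hi'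

/-- raising a deficit keeps the description -/
lemma holds_setHi (h : Holds p R s val x) {i j v : ℕ} (hi : i < s.nn)
    (hj : j < s.nn) (hv : R.m (val i) (val j) + v ≤ 3) : Holds p R (setHi s i j v) val x := by
  unfold setHi
  rcases Nat.lt_or_ge (dg s.D (ix i j)) v with hlt | hge
  swap
  · rw [Nat.ble_eq_true_of_le hge]; exact h
  have hnn := h.base.nn_le
  obtain ⟨d, hd⟩ := Nat.exists_eq_add_of_lt hlt
  have hd' : v - dg s.D (ix i j) = d + 1 := by omega
  have hci := h.base.cj_lt i hi
  have hcj := h.base.cj_lt j hj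
  have hcci := h.base.cj_cj hi
  have hccj := h.base.cj_cj hj
  have hhis := h.his i hi j hj
  rw [ble_false hlt]
  show Holds p R (hiAdd s i j (cj s i) (cj s j) (v - (dg s.D (ix i j)))) val x
  rw [hd']
  obtain ⟨dD, hdD, hdig⟩ : ∃ dD, hiAdd s i j (cj s i) (cj s j) (d + 1) = updD s dD ∧
      ∀ k, dg (s.D + dD) k = dg s.D k + if k = ix i j ∨ k = ix (cj s j) (cj s i) then d + 1
        else 0 := by
    refine ⟨_, rfl, fun k => ?_⟩
    by_cases hc : cj s j = i
    · rw [beq_true' hc]
      show dg (s.D + Nat.shiftLeft (d + 1) (Nat.mul 2 (ix i j))) k = _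
      have hc2 : cj s i = j := by rw [← hc, hccj]
      rw [mat1 (by omega), hc, hc2]
      simp only [or_self]
    · rw [beq_false hc]
      show dg (s.D + Nat.add (Nat.shiftLeft (d + 1) (Nat.mul 2 (ix i j)))
        (Nat.shiftLeft (d + 1) (Nat.mul 2 (ix (cj s j) (cj s i))))) k = _
      have hne : ix i j ≠ ix (cj s j) (cj s i) := fun e =>
        hc (ix_inj (by omega) (by omega) e).1.symm
      rw [mat2 (by omega) (by omega) hne]
  rw [hdD]
  constructor
  · exact h.base.congr rfl rfl rfl rfl rfl
  · exact h.lo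
  · exact h.los
  · exact h.lo0
  · intro i' hi' j' hj'
    change R.m (val i') (val j') + dg (s.D + dD) (ix i' j') ≤ 3
    rw [hdig]
    split_ifs with h1
    · rcases h1 with h1 | h1
      · obtain ⟨rfl, rfl⟩ := ix_inj (by change j' < s.nn at hj'; omega) (by omega) h1
        omega
      · obtain ⟨rfl, rfl⟩ := ix_inj (by change j' < s.nn at hj'; omega) (by omega) h1
        rw [h.base.m_sym hi hj]
        omega
    · exact h.hi i' hi' j' hj'
  · intro i' hi' j' hj'
    change dg (s.D + dD) (ix (cj s j') (cj s i')) = dg (s.D + dD) (ix i' j')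
    change i' < s.nn at hi'
    change j' < s.nn at hj'
    rw [hdig, hdig, h.his i' hi' j' hj']
    congr 1
    have h1 : (ix (cj s j') (cj s i') = ix i j) ↔ (ix i' j' = ix (cj s j) (cj s i)) := by
      constructor
      · intro e
        obtain ⟨e1, e2⟩ := ix_inj (by have := h.base.cj_lt i' hi'; omega) (by omega) e
        rw [← e1, ← e2, h.base.cj_cj hj', h.base.cj_cj hi']
      · intro e
        obtain ⟨rfl, rfl⟩ := ix_inj (by omega) (by omega) e
        rw [hcci, hccj]
    have h2 : (ix (cj s j') (cj s i') = ix (cj s j) (cj s i)) ↔ (ix i' j' = ix i j) := by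
      constructor
      · intro e
        obtain ⟨e1, e2⟩ := ix_inj (by have := h.base.cj_lt i' hi'; omega) (by omega) e
        have e3 : j' = j := by rw [← h.base.cj_cj hj', e1, hccj]
        have e4 : i' = i := by rw [← h.base.cj_cj hi', e2, hcci]
        rw [e3, e4]
      · intro e
        obtain ⟨rfl, rfl⟩ := ix_inj (by omega) (by omega) e
        rfl
    simp only [h1, h2, or_comm]
  · intro i' hi' j' hj' hij
    change dg (s.D + dD) (ix i' j') = 0
    change s.nn ≤ i' ∨ s.nn ≤ j' at hij
    rw [hdig, if_neg, add_zero]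
    · exact h.hi0 i' hi' j' hj' hij
    · rintro (e | e)
      · obtain ⟨rfl, rfl⟩ := ix_inj (by omega) (by omega) e
        omega
      · obtain ⟨rfl, rfl⟩ := ix_inj (by omega) (by omega) e
        omega
  · exact h.ex1
  · exact h.ex2
  · exact h.exc
  · exact h.ex0
  · exact h.exc0
  · exact h.A
  · exact h.A0

lemma tb_upd {X k : ℕ} (h : tb X k = false) (i : ℕ) :
    tb (X + Nat.shiftLeft 1 k) i = true ↔ tb X i = true ∨ i = k := by
  rw [tb_iff, tb_iff, nat_shl]
  rw [tb_false_iff] at h
  have := dgt_add (s := 1) (X := X) (k := k) (δ := 1) (by omega) i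
  simp only [one_mul] at this ⊢
  rw [this]
  split_ifs with h1
  · subst h1; simp [h]
  · simp [h1]

/-- marking a row exact keeps the description -/
lemma holds_setEx (h : Holds p R s val x) {i : ℕ} (hi : i < s.nn)
    (h1 : ∀ j < s.nn, R.m (val i) (val j) = dg s.M (ix i j))
    (h2 : ∀ w, (∀ j < s.nn, val j ≠ w) → R.m (val i) w = 0) :
    Holds p R (setEx s i) val x := by
  unfold setEx
  rcases hx : tb s.ex i with _ | _
  swap
  · exact h
  show Holds p R (updE s (Nat.shiftLeft 1 i) (Nat.shiftLeft 1 (cj s i))) val x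
  have hci := h.base.cj_lt i hi
  have hexc : tb s.exc (cj s i) = false := by
    rcases hh : tb s.exc (cj s i) with _ | _
    · rfl
    · have := h.exc _ hci hh
      rw [h.base.cj_cj hi, hx] at this
      exact absurd this (by simp)
  have e1 := tb_upd hx
  have e2 := tb_upd hexc
  constructor
  · exact h.base.congr rfl rfl rfl rfl rfl
  · exact h.lo
  · exact h.los
  · exact h.lo0
  · exact h.hi
  · exact h.his
  · exact h.hi0
  · intro i' hi' hx' j hj
    change tb (s.ex + Nat.shiftLeft 1 i) i' = true at hx'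
    rcases (e1 i').1 hx' with hx' | rfl
    · exact h.ex1 i' hi' hx' j hj
    · exact h1 j hj
  · intro i' hi' hx' w hw
    change tb (s.ex + Nat.shiftLeft 1 i) i' = true at hx'
    rcases (e1 i').1 hx' with hx' | rfl
    · exact h.ex2 i' hi' hx' w hw
    · exact h2 w hw
  · intro j hj hx'
    change tb (s.exc + Nat.shiftLeft 1 (cj s i)) j = true at hx'
    change tb (s.ex + Nat.shiftLeft 1 i) (cj s j) = true
    rw [e1]
    rcases (e2 j).1 hx' with hx' | rfl
    · exact Or.inl (h.exc j hj hx')
    · exact Or.inr (h.base.cj_cj hi)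
  · intro j hj
    change tb (s.ex + Nat.shiftLeft 1 i) j = false
    rcases hh : tb (s.ex + Nat.shiftLeft 1 i) j with _ | _
    · rfl
    · change s.nn ≤ j at hj
      rcases (e1 j).1 hh with hx' | rfl
      · rw [h.ex0 j hj] at hx'; exact hx'.symm
      · omega
  · intro j hj
    change tb (s.exc + Nat.shiftLeft 1 (cj s i)) j = false
    rcases hh : tb (s.exc + Nat.shiftLeft 1 (cj s i)) j with _ | _
    · rfl
    · change s.nn ≤ j at hj
      rcases (e2 j).1 hh with hx' | rfl
      · rw [h.exc0 j hj] at hx'; exact hx'.symm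
      · omega
  · exact h.A
  · exact h.A0

end H39.CN
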