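import Pool.Agent.H39.CN.XM

namespace H39.CN

open Finset Classical

universe u

/-- a graded triangular array -/
structure XM.GArr {E : Type u} (S : XM E) (n : ℕ) (V : ℕ → ℕ → E) (g : E → ZMod 3) : Prop
    extends S.Arr n V where
  n4 : 4 ≤ n
  g_m : ∀ u v, S.m u v ≠ 0 → g v = g u + 1
  g_c : ∀ u, g (S.c u) = - g u
  V_g : ∀ a b, a + b ≤ n → g (V a b) = (a : ZMod 3) - (b : ZMod 3)

/-- there is a further constituent of small degree -/
lemma XM.rest2 {E : Type u} {S : XM E} {u w1 w2 : E} (h12 : w1 ≠ w2) (h1 : S.m u w1 ≠ 0)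
    (h2 : S.m u w2 ≠ 0) (hlt : S.d w1 + S.d w2 < 3 * S.d u) :
    ∃ v, S.m u v ≠ 0 ∧ S.d v + S.d w1 + S.d w2 ≤ 3 * S.d u := by
  set f : E →₀ ℕ := S.m u - (Finsupp.single w1 1 + Finsupp.single w2 1) with hf
  have hle : Finsupp.single w1 1 + Finsupp.single w2 1 ≤ S.m u := by
    intro v
    rw [Finsupp.add_apply, Finsupp.single_apply, Finsupp.single_apply]
    split_ifs with e1 e2 e2
    · exact absurd (e1.trans e2.symm) h12
    · rw [← e1]; omega
    · rw [← e2]; omega
    · exact Nat.zero_le _
  have e : S.m u = f + (Finsupp.single w1 1 + Finsupp.single w2 1) := (tsub_add_cancel_of_le hle).symm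
  have hs := S.deg u
  have hsum : ((S.m u).sum fun w k => k * S.d w) =
      (f.sum fun w k => k * S.d w) + (S.d w1 + S.d w2) := by
    rw [e, Finsupp.sum_add_index' (by simp) (by intros; ring),
      Finsupp.sum_add_index' (by simp) (by intros; ring),
      Finsupp.sum_single_index (by simp), Finsupp.sum_single_index (by simp), one_mul, one_mul]
  rw [hsum] at hs
  have hne : f ≠ 0 := by
    intro h0
    rw [h0, Finsupp.sum_zero_index] at hs
    omega
  obtain ⟨v, hv⟩ := Finsupp.ne_iff.1 hne
  rw [Finsupp.zero_apply] at hv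
  refine ⟨v, ?_, ?_⟩
  · have : S.m u v = f v + ((Finsupp.single w1 1 + Finsupp.single w2 1 : E →₀ ℕ) v) := by
      conv_lhs => rw [e]
      rw [Finsupp.add_apply]
    omega
  · have h3 : S.d v ≤ f.sum fun w k => k * S.d w := by
      calc S.d v ≤ f v * S.d v := Nat.le_mul_of_pos_left _ (Nat.pos_of_ne_zero hv)
        _ ≤ _ := single_le_sum (f := fun w => f w * S.d w) (fun _ _ => Nat.zero_le _)
            (Finsupp.mem_support_iff.2 hv)
    omega

lemma XM.two_le {E : Type u} {S : XM E} {u w1 w2 : E} (h12 : w1 ≠ w2) :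
    S.m u w1 * S.d w1 + S.m u w2 * S.d w2 ≤ 3 * S.d u := by
  rw [← S.deg u]
  have h : ∑ w ∈ {w1, w2}, S.m u w * S.d w ≤ (S.m u).sum fun w k => k * S.d w := by
    unfold Finsupp.sum
    calc ∑ w ∈ {w1, w2}, S.m u w * S.d w
        ≤ ∑ w ∈ {w1, w2} ∪ (S.m u).support, S.m u w * S.d w :=
          sum_le_sum_of_subset subset_union_left
      _ = _ := by
          symm
          apply sum_subset subset_union_right
          intro w _ hw
          simp [Finsupp.notMem_support_iff.1 hw]
  rwa [sum_pair h12] at h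

section garr

variable {E : Type u} {S : XM E} {n : ℕ} {V : ℕ → ℕ → E} {g : E → ZMod 3}
  (h : S.GArr n V g)

include h

lemma XM.GArr.shift {a b a' b' : ℕ} (h1 : a + b + 1 = n) (h2 : a' + b' + 1 = n) (hne : b ≠ b')
    (e : V a (b + 1) = V a' (b' + 1)) : V (a + 1) b = V (a' + 1) b' := by
  by_contra hcon
  have hA := h.toArr
  have hc := S.comm (V a b) (V a' b')
  rw [hA.V_c a b (by omega), hA.V_c a' b' (by omega), hA.sum_rec (by omega),
    hA.sum_rec (by omega)] at hc
  have r1 : 1 ≤ S.m (V b' a') (V (b + 1) a) := by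
    have e1 : V (b + 1) a = V (b' + 1) a' := by
      rw [← hA.V_c a (b + 1) (by omega), e, hA.V_c a' (b' + 1) (by omega)]
    rw [e1, hA.rec_apply (by omega), dl_self]
    omega
  have hz : ∀ p q p' q', p + q ≤ n → p' + q' ≤ n → p + q + (p' + q') < 2 * n →
      ¬ (p = p' ∧ q = q') → dl (V p q) (V p' q') = 0 := fun p q p' q' g1 g2 g3 g4 =>
    dl_ne fun e => g4 (hA.inj_lt g1 g2 g3 e)
  have z1 : S.m (V a' b') (V (a + 1) b) = 0 := by
    rw [hA.rec_apply (by omega), dl_ne hcon]
    split_ifs <;> simp only [zero_add, add_zero]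
    · exact hz _ _ _ _ (by omega) (by omega) (by omega) (by omega)
    · exact hz _ _ _ _ (by omega) (by omega) (by omega) (by omega)
    · rw [hz (a + 1) b (a' - 1) (b' + 1) (by omega) (by omega) (by omega) (by omega),
        hz (a + 1) b a' (b' - 1) (by omega) (by omega) (by omega) (by omega)]
  have z2 : (if a = 0 then 0 else S.m (V a' b') (V (a - 1) (b + 1))) = 0 := by
    split_ifs with ha
    · rfl
    rw [hA.rec_apply (by omega),
      hz (a - 1) (b + 1) (a' + 1) b' (by omega) (by omega) (by omega) (by omega)]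
    split_ifs <;> simp only [zero_add, add_zero]
    · exact hz _ _ _ _ (by omega) (by omega) (by omega) (by omega)
    · exact hz _ _ _ _ (by omega) (by omega) (by omega) (by omega)
    · rw [hz (a - 1) (b + 1) (a' - 1) (b' + 1) (by omega) (by omega) (by omega) (by omega),
        hz (a - 1) (b + 1) a' (b' - 1) (by omega) (by omega) (by omega) (by omega)]
  have z3 : (if b = 0 then 0 else S.m (V a' b') (V a (b - 1))) = 0 := by
    split_ifs with hb
    · rfl
    rw [hA.rec_apply (by omega),
      hz a (b - 1) (a' + 1) b' (by omega) (by omega) (by omega) (by omega)]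
    split_ifs <;> simp only [zero_add, add_zero]
    · exact hz _ _ _ _ (by omega) (by omega) (by omega) (by omega)
    · exact hz _ _ _ _ (by omega) (by omega) (by omega) (by omega)
    · rw [hz a (b - 1) (a' - 1) (b' + 1) (by omega) (by omega) (by omega) (by omega),
        hz a (b - 1) a' (b' - 1) (by omega) (by omega) (by omega) (by omega)]
  rw [z1, z2, z3] at hc
  omega

/-- coincidences on the last level -/
lemma XM.GArr.level_eq {a b a' b' : ℕ} (h1 : a + b = n) (h2 : a' + b' = n) (hlt : b < b')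
    (e : V a b = V a' b') : b = 0 ∧ b' = n := by
  have hA := h.toArr
  have deq : ∀ {a b a' b' : ℕ}, a + b = n → a' + b' = n → b < b' → V a b = V a' b' →
      b + b' = n := by
    intro a b a' b' h1 h2 hlt e
    have d1 := hA.D (a := a) (b := b) (by omega)
    have d2 := hA.D (a := a') (b := b') (by omega)
    rw [e, d2] at d1
    have h3 : (a' + 1) * (b' + 1) = (a + 1) * (b + 1) := by
      have : a' + b' + 2 = a + b + 2 := by omega
      rw [this] at d1
      exact Nat.eq_of_mul_eq_mul_right (by omega) d1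
    obtain ⟨t, rfl⟩ := Nat.exists_eq_add_of_lt hlt
    have ha : a = a' + t + 1 := by omega
    subst ha
    have h4 : (t + 1) * a' = (t + 1) * b := by nlinarith
    have h5 : a' = b := Nat.eq_of_mul_eq_mul_left (by omega) h4
    omega
  have h3 := deq h1 h2 hlt e
  rcases b with _ | b
  · omega
  · obtain ⟨b', rfl⟩ := Nat.exists_eq_succ_of_ne_zero (show b' ≠ 0 by omega)
    have e2 := h.shift (a := a) (b := b) (a' := a') (b' := b') (by omega) (by omega) (by omega) e
    have := deq (by omega) (by omega) (by omega) e2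
    omega

omit h in
lemma zmod3_of {k : ℕ} (hk : (k : ZMod 3) = 0) : 3 ∣ k := (ZMod.natCast_eq_zero_iff k 3).1 hk

/-- the two corners are different -/
lemma XM.GArr.corner : V n 0 ≠ V 0 n := by
  intro e
  have hA := h.toArr
  have hn := h.n4
  have g1 := h.V_g n 0 (by omega)
  have g2 := h.V_g 0 n (by omega)
  rw [e, g2] at g1
  have hdvd : 3 ∣ 2 * n := by
    apply zmod3_of
    push_cast
    have : (0 : ZMod 3) - n = n - 0 := by simpa using g1
    linear_combination -this
  have hn6 : 6 ≤ n := by omega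
  -- a constituent
  have m1 : S.m (V n 0) (V (n - 1) 1) ≠ 0 := by
    have hK := hA.K (a := 1) (b := n - 2) (by omega) (V 0 n)
    have w1 : Wd V 1 (n - 2 + 3) (V 0 n) = 1 := by
      rw [show n - 2 + 3 = n + 1 by omega, show (1:ℕ) = 0 + 1 by rfl, Wd_succ, dl_self]
    have w2 : Wd V (1 + 3) (n - 2) (V 0 n) = 0 := by
      rw [show n - 2 = n - 3 + 1 by omega, Wd_succ]
      apply dl_ne
      intro e2
      have := h.level_eq (a := 3) (b := n - 3) (a' := 0) (b' := n) (by omega) (by omega)
        (by omega) e2.symm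
      omega
    rw [w1, w2] at hK
    rw [← S.m_c, hA.V_c n 0 (by omega), hA.V_c (n - 1) 1 (by omega)]
    rw [show n - 2 + 1 = n - 1 by omega] at hK
    omega
  have m2 : S.m (V n 0) (V 0 (n - 1)) ≠ 0 := by
    rw [e, hA.rec_apply' (by omega), show n - 1 + 1 = n by omega, dl_self]
    omega
  have hne : V (n - 1) 1 ≠ V 0 (n - 1) := fun e2 => by
    have := hA.inj_lt (by omega) (by omega) (by omega) e2
    omega
  have d0 := hA.D (a := n) (b := 0) (by omega)
  have d1 := hA.D (a := n - 1) (b := 1) (by omega)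
  have d2 := hA.D (a := 0) (b := n - 1) (by omega)
  have d3 := hA.D (a := 1) (b := n - 1) (by omega)
  obtain ⟨k, rfl⟩ := Nat.exists_eq_add_of_le' hn6
  have s1 : k + 6 - 1 = k + 5 := by omega
  rw [s1] at d1 d2 d3 m1 m2 hne
  obtain ⟨v, hv, hd⟩ := XM.rest2 hne m1 m2 (by nlinarith)
  have hK := hA.K (a := 0) (b := k + 5) (by omega) v
  rw [Wd_left] at hK
  have hv2 : S.m v (V (0 + 1) (k + 5)) ≠ 0 := by
    rw [e] at hv
    rw [show k + 5 + 1 = k + 6 by omega] at hK
    omega
  have ht := S.term_le v (V (0 + 1) (k + 5))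
  have ht2 : S.d (V (0 + 1) (k + 5)) ≤ 3 * S.d v :=
    le_trans (Nat.le_mul_of_pos_left _ (Nat.pos_of_ne_zero hv2)) ht
  rw [zero_add] at ht2
  nlinarith

/-- all entries are distinct -/
lemma XM.GArr.inj {a b a' b' : ℕ} (h1 : a + b ≤ n) (h2 : a' + b' ≤ n) (e : V a b = V a' b') :
    a = a' ∧ b = b' := by
  have hA := h.toArr
  by_cases hlt : (a + b) + (a' + b') < 2 * n
  · exact hA.inj_lt h1 h2 hlt e
  · rcases lt_trichotomy b b' with hb | hb | hb
    · have := h.level_eq (by omega) (by omega) hb e
      obtain ⟨rfl, rfl⟩ := this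
      have ha : a = b' := by omega
      have ha' : a' = 0 := by omega
      subst ha; subst ha'
      exact absurd e h.corner
    · omega
    · have := h.level_eq (by omega) (by omega) hb e.symm
      obtain ⟨rfl, rfl⟩ := this
      have ha : a = 0 := by omega
      have ha' : a' = b := by omega
      subst ha; subst ha'
      exact absurd e.symm h.corner

end garr

end H39.CN
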