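import Pool.Agent.H39.CN.XG
import Pool.Agent.H39.CN.RG

namespace H39.CN

open Finset Classical

universe u

/-- bilinear form -/
noncomputable def dot {E : Type u} (f g : E →₀ ℕ) : ℕ := f.sum fun w k => k * g w

section dotsec

variable {E : Type u}

lemma dot_add_left (f f' g : E →₀ ℕ) : dot (f + f') g = dot f g + dot f' g := by
  unfold dot
  exact Finsupp.sum_add_index' (by simp) (by intros; ring)

lemma dot_single_left (a : E) (g : E →₀ ℕ) : dot (Finsupp.single a 1) g = g a := by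
  unfold dot
  rw [Finsupp.sum_single_index (by simp), one_mul]

lemma dot_add_right (f g g' : E →₀ ℕ) : dot f (g + g') = dot f g + dot f g' := by
  unfold dot Finsupp.sum
  rw [← sum_add_distrib]
  exact sum_congr rfl fun w _ => by beta_reduce; rw [Finsupp.add_apply]; ring

lemma dot_single_right (f : E →₀ ℕ) (a : E) : dot f (Finsupp.single a 1) = f a := by
  unfold dot Finsupp.sum
  by_cases h : a ∈ f.support
  · rw [sum_eq_single_of_mem a h]
    · simp
    · intro b _ hb
      beta_reduce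
      rw [Finsupp.single_apply, if_neg (Ne.symm hb), mul_zero]
  · rw [Finsupp.notMem_support_iff.1 h]
    apply sum_eq_zero
    intro b hb
    have : a ≠ b := fun e => h (e ▸ hb)
    beta_reduce
    rw [Finsupp.single_apply, if_neg this, mul_zero]

lemma dot_self_add (f : E →₀ ℕ) (a : E) :
    dot (f + Finsupp.single a 1) (f + Finsupp.single a 1) = dot f f + 2 * f a + 1 := by
  rw [dot_add_left, dot_add_right, dot_add_right, dot_single_left, dot_single_right,
    dot_single_right, Finsupp.single_eq_same]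
  ring

lemma exists_sub {f : E →₀ ℕ} {a : E} (h : f a ≠ 0) : ∃ f', f = f' + Finsupp.single a 1 := by
  refine ⟨f - Finsupp.single a 1, (tsub_add_cancel_of_le ?_).symm⟩
  intro v
  rw [Finsupp.single_apply]
  split_ifs with e
  · rw [← e]; omega
  · exact Nat.zero_le _

lemma dot_self_zero {f : E →₀ ℕ} (h : dot f f = 0) : f = 0 := by
  by_contra hf
  obtain ⟨a, ha⟩ := Finsupp.ne_iff.1 hf
  obtain ⟨f', rfl⟩ := exists_sub (f := f) (a := a) (by simpa using ha)
  rw [dot_self_add] at h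
  omega

lemma dot_self_one {f : E →₀ ℕ} (h : dot f f = 1) : ∃ a, f = Finsupp.single a 1 := by
  have hf : f ≠ 0 := by
    rintro rfl
    simp [dot] at h
  obtain ⟨a, ha⟩ := Finsupp.ne_iff.1 hf
  obtain ⟨f', rfl⟩ := exists_sub (f := f) (a := a) (by simpa using ha)
  rw [dot_self_add] at h
  have : f' = 0 := dot_self_zero (by omega)
  exact ⟨a, by rw [this, zero_add]⟩

end dotsec

/-- entry of the last level -/
def vb {E : Type u} (V : ℕ → ℕ → E) (n b : ℕ) : E := V (n - b) b

section garr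

variable {E : Type u} {S : XM E} {n : ℕ} {V : ℕ → ℕ → E} {g : E → ZMod 3}

lemma XM.Arr.K1 (hA : S.Arr n V) {b : ℕ} (hb : b + 1 ≤ n) (v : E) :
    S.m v (vb V n b) + (if b + 2 ≤ n then dl v (vb V n (b + 2)) else 0) =
      S.m (vb V n (b + 1)) v + (if 1 ≤ b then dl v (vb V n (b - 1)) else 0) := by
  have hK := hA.K (a := n - (b + 1)) (b := b) (by omega) v
  unfold vb
  rw [show n - (b + 1) + 1 = n - b by omega] at hK
  have e1 : Wd V (n - (b + 1)) (b + 3) v =
      (if b + 2 ≤ n then dl v (V (n - (b + 2)) (b + 2)) else 0) := by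
    by_cases h : b + 2 ≤ n
    · rw [if_pos h, show n - (b + 1) = n - (b + 2) + 1 by omega, Wd_succ]
    · rw [if_neg h, show n - (b + 1) = 0 by omega, Wd_left]
  have e2 : Wd V (n - (b + 1) + 3) b v =
      (if 1 ≤ b then dl v (V (n - (b - 1)) (b - 1)) else 0) := by
    by_cases h : 1 ≤ b
    · obtain ⟨k, rfl⟩ := Nat.exists_eq_add_of_le' h
      rw [if_pos h, Wd_succ, Nat.add_sub_cancel, show n - (k + 1 + 1) + 2 = n - k by omega]
    · rw [if_neg h, show b = 0 by omega, Wd_right]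
  rw [e1, e2] at hK
  exact hK

lemma XM.Arr.vb_c (hA : S.Arr n V) {b : ℕ} (hb : b ≤ n) : S.c (vb V n b) = vb V n (n - b) := by
  unfold vb
  rw [hA.V_c _ _ (by omega), show n - (n - b) = b by omega]

variable (h : S.GArr n V g)

include h

lemma XM.GArr.vb_inj {b e : ℕ} (hb : b ≤ n) (he : e ≤ n) (heq : vb V n b = vb V n e) : b = e :=
  (h.inj (by omega) (by omega) heq).2

lemma XM.GArr.dl_vb {b e : ℕ} (hb : b ≤ n) (he : e ≤ n) :
    dl (vb V n b) (vb V n e) = if b = e then 1 else 0 := by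
  by_cases hbe : b = e
  · rw [if_pos hbe, hbe, dl_self]
  · rw [if_neg hbe]
    exact dl_ne fun heq => hbe (h.vb_inj hb he heq)

lemma XM.GArr.MK {b e : ℕ} (hb : b + 1 ≤ n) (he : e ≤ n) :
    S.m (vb V n e) (vb V n b) + (if e = b + 2 then 1 else 0) =
      S.m (vb V n (b + 1)) (vb V n e) + (if e + 1 = b then 1 else 0) := by
  have hK := h.toArr.K1 hb (vb V n e)
  have e1 : (if b + 2 ≤ n then dl (vb V n e) (vb V n (b + 2)) else 0) =
      (if e = b + 2 then 1 else 0) := by
    by_cases h1 : b + 2 ≤ n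
    · rw [if_pos h1, h.dl_vb he h1]
    · rw [if_neg h1, if_neg (by omega)]
  have e2 : (if 1 ≤ b then dl (vb V n e) (vb V n (b - 1)) else 0) =
      (if e + 1 = b then 1 else 0) := by
    by_cases h1 : 1 ≤ b
    · rw [if_pos h1, h.dl_vb he (by omega)]
      split_ifs <;> omega
    · rw [if_neg h1, if_neg (by omega)]
  rw [e1, e2] at hK
  exact hK

lemma XM.GArr.Mc {b e : ℕ} (hb : b ≤ n) (he : e ≤ n) :
    S.m (vb V n b) (vb V n e) = S.m (vb V n (n - e)) (vb V n (n - b)) := by
  rw [← S.m_c (vb V n b), h.toArr.vb_c hb, h.toArr.vb_c he]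

lemma XM.GArr.vb_d {b : ℕ} (hb : b ≤ n) : 2 * S.d (vb V n b) = (n + 1 - b) * (b + 1) * (n + 2) := by
  have := h.toArr.D (a := n - b) (b := b) (by omega)
  rw [show n - b + 1 = n + 1 - b by omega, show n - b + b + 2 = n + 2 by omega] at this
  exact this

lemma XM.GArr.vb_g {b : ℕ} (hb : b ≤ n) : g (vb V n b) = (n : ZMod 3) + b := by
  have := h.V_g (n - b) b (by omega)
  unfold vb
  rw [this, Nat.cast_sub hb]
  have h3 : (3 : ZMod 3) = 0 := rfl
  linear_combination -(b : ZMod 3) * h3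

lemma XM.GArr.M00 : S.m (vb V n 0) (vb V n 0) = 0 := by
  by_contra hne
  have := h.g_m _ _ hne
  have h1 : (1 : ZMod 3) = 0 := by linear_combination -this
  exact absurd h1 (by decide)

lemma XM.GArr.M01 : S.m (vb V n 0) (vb V n 1) = 1 := by
  have hn := h.n4
  obtain ⟨k, rfl⟩ := Nat.exists_eq_add_of_le' hn
  have h1 := h.MK (b := k + 2) (e := k + 4) (by omega) (by omega)
  rw [if_pos (by omega), if_neg (by omega)] at h1
  have h2 := h.Mc (b := k + 3) (e := k + 4) (by omega) (by omega)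
  rw [show k + 4 - (k + 4) = 0 by omega, show k + 4 - (k + 3) = 1 by omega] at h2
  have h3 := S.term_le (vb V (k + 4) 0) (vb V (k + 4) 1)
  have d0 := h.vb_d (b := 0) (by omega)
  have d1 := h.vb_d (b := 1) (by omega)
  rw [show k + 4 + 1 - 0 = k + 5 by omega] at d0
  rw [show k + 4 + 1 - 1 = k + 4 by omega] at d1
  have h4 : 1 ≤ S.m (vb V (k + 4) 0) (vb V (k + 4) 1) := by
    rw [show k + 2 + 1 = k + 3 by omega] at h1
    omega
  by_contra hne
  have h5 : 2 ≤ S.m (vb V (k + 4) 0) (vb V (k + 4) 1) := by omega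
  have h6 : 2 * S.d (vb V (k + 4) 1) ≤ 3 * S.d (vb V (k + 4) 0) :=
    le_trans (Nat.mul_le_mul_right _ h5) h3
  nlinarith

lemma XM.GArr.M0e {e : ℕ} (h2 : 2 ≤ e) (he : e + 1 ≤ n) : S.m (vb V n 0) (vb V n e) = 0 := by
  by_contra hne
  have hn := h.n4
  have h12 : vb V n 1 ≠ vb V n e := fun e2 => by
    have := h.vb_inj (by omega) (by omega) e2
    omega
  have h3 := XM.two_le (S := S) (u := vb V n 0) h12
  rw [h.M01] at h3
  have d0 := h.vb_d (b := 0) (by omega)
  have d1 := h.vb_d (b := 1) (by omega)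
  have d2 := h.vb_d (b := e) (by omega)
  have h4 : S.d (vb V n e) ≤ S.m (vb V n 0) (vb V n e) * S.d (vb V n e) :=
    Nat.le_mul_of_pos_left _ (Nat.pos_of_ne_zero hne)
  have h5 : 2 * (S.d (vb V n 1) + S.d (vb V n e)) ≤ 3 * (2 * S.d (vb V n 0)) := by linarith
  obtain ⟨t, rfl⟩ := Nat.exists_eq_add_of_le' he
  obtain ⟨s, rfl⟩ := Nat.exists_eq_add_of_le' h2
  rw [d0, mul_add, d1, d2] at h5
  rw [show t + (s + 2 + 1) + 1 - 1 = t + s + 3 by omega,
    show t + (s + 2 + 1) + 1 - (s + 2) = t + 2 by omega,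
    show t + (s + 2 + 1) + 1 - 0 = t + s + 4 by omega] at h5
  have h6 : (t + s + 3) * 2 + (t + 2) * (s + 3) ≤ 3 * (t + s + 4) := by
    have h7 : ((t + s + 3) * 2 + (t + 2) * (s + 3)) * (t + s + 5) ≤
        (3 * (t + s + 4)) * (t + s + 5) := by
      have e1 : ((t + s + 3) * 2 + (t + 2) * (s + 3)) * (t + s + 5) =
        (t + s + 3) * (1 + 1) * (t + (s + 2 + 1) + 2) +
          (t + 2) * (s + 2 + 1) * (t + (s + 2 + 1) + 2) := by ring
      have e2 : (3 * (t + s + 4)) * (t + s + 5) =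
        3 * ((t + s + 4) * (0 + 1) * (t + (s + 2 + 1) + 2)) := by ring
      rw [e1, e2]
      exact h5
    exact Nat.le_of_mul_le_mul_right h7 (by omega)
  have h8 : t + s ≥ 1 := by omega
  nlinarith

lemma XM.GArr.Mb0 {b : ℕ} (hb : b ≤ n) : S.m (vb V n b) (vb V n 0) = 0 := by
  rcases b with _ | b
  · exact h.M00
  · have h1 := h.MK (b := b) (e := 0) hb (by omega)
    rw [if_neg (by omega)] at h1
    rcases b with _ | b
    · rw [h.M00] at h1; omega
    · rcases b with _ | b
      · rw [h.M01, if_pos (by omega)] at h1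
        omega
      · rw [h.M0e (e := b + 2) (by omega) (by omega)] at h1
        omega

lemma XM.GArr.Mshift {b e : ℕ} (hb : b + 1 ≤ n) (he : e + 1 ≤ n) :
    S.m (vb V n (b + 1)) (vb V n (e + 1)) = S.m (vb V n b) (vb V n e) := by
  have h1 := h.MK (b := b) (e := e + 1) hb he
  have h2 := h.MK (b := e) (e := b) he (by omega)
  split_ifs at h1 h2 <;> omega

lemma XM.GArr.Mge : ∀ e b, e ≤ b → b ≤ n → S.m (vb V n b) (vb V n e) = 0 := by
  intro e
  induction e with
  | zero => intro b _ hb; exact h.Mb0 hb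
  | succ e ih =>
    intro b h1 hb
    obtain ⟨b, rfl⟩ := Nat.exists_eq_succ_of_ne_zero (show b ≠ 0 by omega)
    rw [h.Mshift hb (by omega)]
    exact ih b (by omega) (by omega)

lemma XM.GArr.Mlt : ∀ b e, b < e → e ≤ n → ¬ (b = 0 ∧ e = n) →
    S.m (vb V n b) (vb V n e) = if e = b + 1 then 1 else 0 := by
  intro b
  induction b with
  | zero =>
    intro e h1 he hne
    by_cases h2 : e = 1
    · rw [h2, h.M01]; rfl
    · rw [if_neg (by omega), h.M0e (by omega) (by omega)]
  | succ b ih =>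
    intro e h1 he hne
    obtain ⟨e, rfl⟩ := Nat.exists_eq_succ_of_ne_zero (show e ≠ 0 by omega)
    rw [h.Mshift (by omega) (by omega), ih e (by omega) (by omega) (by omega)]
    split_ifs <;> omega

lemma XM.GArr.M0n (h5 : n ≠ 4) : S.m (vb V n 0) (vb V n n) = 0 := by
  by_contra hne
  have hn := h.n4
  have g1 := h.g_m _ _ hne
  rw [h.vb_g (by omega), h.vb_g (by omega)] at g1
  have hdvd : 3 ∣ n + 2 := by
    apply zmod3_of
    push_cast
    have h3 : (3 : ZMod 3) = 0 := rfl
    push_cast at g1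
    linear_combination g1 + h3
  have hn7 : 7 ≤ n := by omega
  obtain ⟨k, rfl⟩ := Nat.exists_eq_add_of_le' hn7
  have h12 : vb V (k + 7) 1 ≠ vb V (k + 7) (k + 7) := fun e2 => by
    have := h.vb_inj (by omega) (by omega) e2
    omega
  have d0 := h.vb_d (b := 0) (by omega)
  have d1 := h.vb_d (b := 1) (by omega)
  have d2 := h.vb_d (b := k + 7) (by omega)
  rw [show k + 7 + 1 - 0 = k + 8 by omega] at d0
  rw [show k + 7 + 1 - 1 = k + 7 by omega] at d1
  rw [show k + 7 + 1 - (k + 7) = 1 by omega] at d2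
  obtain ⟨v, hv, hd⟩ := XM.rest2 h12 (by rw [h.M01]; omega) hne (by nlinarith)
  have ht := S.term_le' (vb V (k + 7) 0) v
  have ht2 : S.d (vb V (k + 7) 0) ≤ 3 * S.d v :=
    le_trans (Nat.le_mul_of_pos_left _ (Nat.pos_of_ne_zero hv)) ht
  nlinarith

/-- multiplicities between the entries of the last level -/
lemma XM.GArr.M {b e : ℕ} (hb : b ≤ n) (he : e ≤ n) (hne : ¬ (n = 4 ∧ b = 0 ∧ e = 4)) :
    S.m (vb V n b) (vb V n e) = if e = b + 1 then 1 else 0 := by
  have hn := h.n4
  by_cases h1 : e ≤ b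
  · rw [h.Mge e b h1 hb, if_neg (by omega)]
  · by_cases h2 : b = 0 ∧ e = n
    · obtain ⟨rfl, rfl⟩ := h2
      rw [if_neg (by omega), h.M0n (by omega)]
    · exact h.Mlt b e (by omega) he h2

end garr

end H39.CN
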