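import Mathlib

namespace H39.CN

open Finset Classical

universe u

/-- multiplication by a fixed element of a basis: abstract data -/
structure XM (E : Type u) where
  m : E → E →₀ ℕ
  c : E → E
  d : E → ℕ
  c_c : ∀ u, c (c u) = u
  m_c : ∀ u v, m (c v) (c u) = m u v
  d_pos : ∀ u, 1 ≤ d u
  d_c : ∀ u, d (c u) = d u
  deg : ∀ u, ((m u).sum fun w k => k * d w) = 3 * d u
  comm : ∀ u v, ((m u).sum fun w k => k * m v w) = ((m (c u)).sum fun w k => k * m (c v) w)

/-- a triangular array of level `n` -/
structure XM.Arr {E : Type u} (S : XM E) (n : ℕ) (V : ℕ → ℕ → E) : Prop where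
  V_d : S.d (V 0 0) = 1
  V_c : ∀ a b, a + b ≤ n → S.c (V a b) = V b a
  V_rec : ∀ a b, a + b < n → S.m (V a b) = Finsupp.single (V (a + 1) b) 1 +
    (if a = 0 then 0 else Finsupp.single (V (a - 1) (b + 1)) 1) +
    (if b = 0 then 0 else Finsupp.single (V a (b - 1)) 1)

/-- indicator -/
noncomputable def dl {E : Type u} (u v : E) : ℕ := if u = v then 1 else 0

lemma dl_self {E : Type u} (u : E) : dl u u = 1 := if_pos rfl

lemma dl_ne {E : Type u} {u v : E} (h : u ≠ v) : dl u v = 0 := if_neg h

lemma dl_pos {E : Type u} {u v : E} (h : dl u v ≠ 0) : u = v := by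
  unfold dl at h; by_contra h2; exact h (if_neg h2)

lemma dl_le {E : Type u} (u v : E) : dl u v ≤ 1 := by unfold dl; split_ifs <;> omega

namespace XM

variable {E : Type u} (S : XM E)

lemma c_inj {u v : E} (h : S.c u = S.c v) : u = v := by rw [← S.c_c u, h, S.c_c]

lemma m_c' (u v : E) : S.m u (S.c v) = S.m v (S.c u) := by
  have := S.m_c u (S.c v)
  rw [S.c_c] at this
  exact this.symm

lemma term_le (u w : E) : S.m u w * S.d w ≤ 3 * S.d u := by
  rw [← S.deg u]
  by_cases h : w ∈ (S.m u).support
  · exact single_le_sum (f := fun w => S.m u w * S.d w) (fun _ _ => Nat.zero_le _) h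
  · rw [Finsupp.notMem_support_iff.1 h]; simp

lemma term_le' (u w : E) : S.m u w * S.d u ≤ 3 * S.d w := by
  have := S.term_le (S.c w) (S.c u)
  rwa [S.m_c, S.d_c, S.d_c] at this

end XM

section arr

variable {E : Type u} {S : XM E} {n : ℕ} {V : ℕ → ℕ → E} (h : S.Arr n V)

include h

lemma XM.Arr.rec_apply {a b : ℕ} (hab : a + b < n) (v : E) : S.m (V a b) v =
    dl v (V (a + 1) b) + (if a = 0 then 0 else dl v (V (a - 1) (b + 1))) +
    (if b = 0 then 0 else dl v (V a (b - 1))) := by
  rw [h.V_rec a b hab, Finsupp.add_apply, Finsupp.add_apply]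
  congr 1
  · congr 1
    · rw [Finsupp.single_apply]; unfold dl; simp only [eq_comm]
    · split_ifs
      · rfl
      · rw [Finsupp.single_apply]; unfold dl; simp only [eq_comm]
  · split_ifs
    · rfl
    · rw [Finsupp.single_apply]; unfold dl; simp only [eq_comm]

lemma XM.Arr.dl_c {u : E} {a b : ℕ} (hab : a + b ≤ n) : dl (S.c u) (V a b) = dl u (V b a) := by
  unfold dl
  have : (S.c u = V a b) ↔ (u = V b a) := by
    constructor
    · intro e; apply S.c_inj; rw [e, h.V_c b a (by omega)]
    · intro e; rw [e, h.V_c b a (by omega)]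
  simp only [this]

lemma XM.Arr.rec_apply' {a b : ℕ} (hab : a + b < n) (u : E) : S.m u (V a b) =
    dl u (V a (b + 1)) + (if b = 0 then 0 else dl u (V (a + 1) (b - 1))) +
    (if a = 0 then 0 else dl u (V (a - 1) b)) := by
  rw [← S.m_c, h.V_c a b (by omega), h.rec_apply (by omega), h.dl_c (by omega)]
  congr 1
  · congr 1
    by_cases hb : b = 0
    · rw [if_pos hb, if_pos hb]
    · rw [if_neg hb, if_neg hb, h.dl_c (by omega)]
  · by_cases ha : a = 0
    · rw [if_pos ha, if_pos ha]
    · rw [if_neg ha, if_neg ha, h.dl_c (by omega)]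

lemma XM.Arr.sum_rec {a b : ℕ} (hab : a + b < n) (F : E → ℕ) :
    ((S.m (V a b)).sum fun w k => k * F w) = F (V (a + 1) b) +
    (if a = 0 then 0 else F (V (a - 1) (b + 1))) + (if b = 0 then 0 else F (V a (b - 1))) := by
  rw [h.V_rec a b hab, Finsupp.sum_add_index' (by simp) (by intros; ring),
    Finsupp.sum_add_index' (by simp) (by intros; ring), Finsupp.sum_single_index (by simp), one_mul]
  congr 1
  · congr 1
    split_ifs
    · rfl
    · rw [Finsupp.sum_single_index (by simp), one_mul]
  · split_ifs
    · rfl
    · rw [Finsupp.sum_single_index (by simp), one_mul]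

/-- degrees -/
lemma XM.Arr.degree : ∀ L, L ≤ n → ∀ a b, a + b = L →
    2 * S.d (V a b) = (a + 1) * (b + 1) * (a + b + 2) := by
  intro L
  induction L using Nat.strong_induction_on with
  | _ L ih =>
    intro hL
    have key : ∀ a b, (a + 1) + b = L →
        2 * S.d (V (a + 1) b) = (a + 1 + 1) * (b + 1) * (a + 1 + b + 2) := by
      intro a b hab
      have h1 := S.deg (V a b)
      rw [h.sum_rec (by omega)] at h1
      have h2 := ih (a + b) (by omega) (by omega) a b rfl
      rcases a with _ | a <;> rcases b with _ | b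
      · simp only [if_true, add_zero] at h1
        linarith
      · have h3 := ih (0 + b) (by omega) (by omega) 0 b rfl
        simp only [if_true, add_zero, Nat.add_sub_cancel, if_neg (Nat.succ_ne_zero b)] at h1
        nlinarith
      · have h3 := ih (a + 1) (by omega) (by omega) a 1 rfl
        simp only [if_true, add_zero, Nat.add_sub_cancel, if_neg (Nat.succ_ne_zero a),
          zero_add] at h1
        nlinarith
      · have h3 := ih (a + (b + 1 + 1)) (by omega) (by omega) a (b + 1 + 1) rfl
        have h4 := ih (a + 1 + b) (by omega) (by omega) (a + 1) b rfl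
        simp only [Nat.add_sub_cancel, if_neg (Nat.succ_ne_zero a),
          if_neg (Nat.succ_ne_zero b)] at h1
        nlinarith
    intro a b hab
    rcases a with _ | a
    · rcases b with _ | b
      · rw [h.V_d]
      · have h1 := key b 0 (by omega)
        rw [← h.V_c (b + 1) 0 (by omega), S.d_c, h1]
        ring
    · exact key a b hab

lemma XM.Arr.D {a b : ℕ} (hab : a + b ≤ n) :
    2 * S.d (V a b) = (a + 1) * (b + 1) * (a + b + 2) := h.degree (a + b) hab a b rfl

/-- distinctness if not both entries are on the last level -/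
lemma XM.Arr.inj1 : ∀ T, T < 2 * n → ∀ a b a' b', (a + b) + (a' + b') = T → a + b ≤ n →
    a' + b' ≤ n → V a b = V a' b' → a = a' ∧ b = b' := by
  intro T
  induction T using Nat.strong_induction_on with
  | _ T ih =>
    intro hT
    -- main case
    have key : ∀ a b a' b', (a + 1 + b) + (a' + b') = T → a + 1 + b ≤ n → a' + b' < n →
        V (a + 1) b = V a' b' → a + 1 = a' ∧ b = b' := by
      intro a b a' b' hs h1 h2 e
      have m1 := h.rec_apply (a := a) (b := b) (by omega) (V a' b')
      have m2 := h.rec_apply' (a := a') (b := b') h2 (V a b)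
      have n1 : V a b ≠ V a' (b' + 1) := by
        intro e2
        have d1 := h.D (a := a) (b := b) (by omega)
        have d2 := h.D (a := a + 1) (b := b) (by omega)
        have d3 := h.D (a := a') (b := b') (by omega)
        have d4 := h.D (a := a') (b := b' + 1) (by omega)
        rw [e2, d4] at d1
        rw [e, d3] at d2
        nlinarith
      rw [dl_ne n1] at m2
      by_cases h3 : b' ≠ 0 ∧ V a b = V (a' + 1) (b' - 1)
      · have h4 := ih (T - 1) (by omega) (by omega) a b (a' + 1) (b' - 1) (by omega) (by omega)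
          (by omega) h3.2
        have e1 : dl (V a' b') (V (a + 1) b) = 1 := by rw [e]; exact dl_self _
        have e2 : dl (V a' b') (V (a - 1) (b + 1)) = 1 := by
          have : a - 1 = a' := by omega
          rw [this, show b + 1 = b' by omega]; exact dl_self _
        rw [e1, if_neg (by omega), e2] at m1
        rw [if_neg h3.1, h3.2, dl_self] at m2
        rw [h3.2] at m1
        have h5 : (if a' = 0 then 0 else dl (V (a' + 1) (b' - 1)) (V (a' - 1) b')) = 0 := by
          by_cases ha : a' = 0
          · rw [if_pos ha]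
          · rw [if_neg ha]
            apply dl_ne
            intro e3
            have := ih (T - 2) (by omega) (by omega) (a' + 1) (b' - 1) (a' - 1) b' (by omega)
              (by omega) (by omega) e3
            omega
        rw [h5] at m2
        omega
      · have h3' : (if b' = 0 then 0 else dl (V a b) (V (a' + 1) (b' - 1))) = 0 := by
          by_cases hb : b' = 0
          · rw [if_pos hb]
          · rw [if_neg hb]
            apply dl_ne
            intro e3
            exact h3 ⟨hb, e3⟩
        rw [h3'] at m2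
        have e1 : dl (V a' b') (V (a + 1) b) = 1 := by rw [e]; exact dl_self _
        rw [e1, m2] at m1
        have h4 : (if a' = 0 then 0 else dl (V a b) (V (a' - 1) b')) ≠ 0 := by omega
        have ha : a' ≠ 0 := by
          intro ha; rw [if_pos ha] at h4; exact h4 rfl
        rw [if_neg ha] at h4
        have e4 := dl_pos h4
        have := ih (T - 2) (by omega) (by omega) a b (a' - 1) b' (by omega)
              (by omega) (by omega) e4
        omega
    have key2 : ∀ a b a' b', (a + b) + (a' + b') = T → a + b ≤ n → a' + b' < n → a' + b' ≤ a + b →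
        V a b = V a' b' → a = a' ∧ b = b' := by
      intro a b a' b' hs h1 h2 h3 e
      rcases a with _ | a
      · rcases b with _ | b
        · omega
        · have e2 : V (b + 1) 0 = V b' a' := by
            rw [← h.V_c 0 (b + 1) (by omega), ← h.V_c a' b' (by omega), e]
          have := key b 0 b' a' (by omega) (by omega) (by omega) e2
          omega
      · exact key a b a' b' hs h1 h2 e
    intro a b a' b' hs h1 h2 e
    by_cases h3 : a' + b' ≤ a + b
    · exact key2 a b a' b' hs h1 (by omega) h3 e
    · have := key2 a' b' a b (by omega) h2 (by omega) (by omega) e.symm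
      omega

/-- distinctness if not both entries are on the last level -/
lemma XM.Arr.inj_lt {a b a' b' : ℕ} (h1 : a + b ≤ n) (h2 : a' + b' ≤ n)
    (hlt : (a + b) + (a' + b') < 2 * n) (e : V a b = V a' b') : a = a' ∧ b = b' :=
  h.inj1 _ hlt a b a' b' rfl h1 h2 e

omit h in
/-- shifted indicator, zero on the walls -/
noncomputable def Wd (V : ℕ → ℕ → E) (p q : ℕ) (v : E) : ℕ :=
  if p = 0 ∨ q = 0 then 0 else dl v (V (p - 1) (q - 1))

omit h in
lemma Wd_left (q : ℕ) (v : E) : Wd V 0 q v = 0 := if_pos (Or.inl rfl)

omit h in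
lemma Wd_right (p : ℕ) (v : E) : Wd V p 0 v = 0 := if_pos (Or.inr rfl)

omit h in
lemma Wd_succ (p q : ℕ) (v : E) : Wd V (p + 1) (q + 1) v = dl v (V p q) := by
  unfold Wd
  rw [if_neg (by omega)]; rfl

lemma XM.Arr.recW {a b : ℕ} (hab : a + b < n) (v : E) : S.m (V a b) v =
    Wd V (a + 2) (b + 1) v + Wd V a (b + 2) v + Wd V (a + 1) b v := by
  rw [h.rec_apply hab, Wd_succ]
  congr 1
  · congr 1
    rcases a with _ | a
    · rw [if_pos rfl, Wd_left]
    · rw [if_neg (by omega), Wd_succ]; rfl
  · rcases b with _ | b
    · rw [if_pos rfl, Wd_right]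
    · rw [if_neg (by omega), Wd_succ]; rfl

lemma XM.Arr.recW' {a b : ℕ} (hab : a + b < n) (v : E) : S.m v (V a b) =
    Wd V (a + 1) (b + 2) v + Wd V (a + 2) b v + Wd V a (b + 1) v := by
  rw [h.rec_apply' hab, Wd_succ]
  congr 1
  · congr 1
    rcases b with _ | b
    · rw [if_pos rfl, Wd_right]
    · rw [if_neg (by omega), Wd_succ]; rfl
  · rcases a with _ | a
    · rw [if_pos rfl, Wd_left]
    · rw [if_neg (by omega), Wd_succ]; rfl

/-- the key identity -/
lemma XM.Arr.K {a b : ℕ} (hab : a + b + 1 = n) (v : E) :
    S.m v (V (a + 1) b) + Wd V a (b + 3) v = S.m (V a (b + 1)) v + Wd V (a + 3) b v := by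
  have hc := S.comm (V a b) v
  rw [h.V_c a b (by omega), h.sum_rec (by omega), h.sum_rec (by omega)] at hc
  have hm : ∀ a' b', a' + b' ≤ n → S.m (S.c v) (V a' b') = S.m (V b' a') v := by
    intro a' b' h1
    rw [← h.V_c b' a' (by omega), S.m_c]
  rw [hm (b + 1) a (by omega)] at hc
  rcases a with _ | a <;> rcases b with _ | b
  · simp only [Wd_left, Wd_right, if_true, add_zero] at hc ⊢
    omega
  · rw [if_pos rfl, if_pos rfl, if_neg (by omega), if_neg (by omega), Nat.add_sub_cancel,
      hm b (0 + 1) (by omega), h.recW' (a := 0) (b := b) (by omega),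
      h.recW (a := 0 + 1) (b := b) (by omega)] at hc
    simp only [Wd_left, zero_add, Nat.reduceAdd] at hc ⊢
    omega
  · rw [if_pos rfl, if_pos rfl, if_neg (by omega), if_neg (by omega), Nat.add_sub_cancel,
      hm 0 a (by omega), h.recW' (a := a) (b := 0 + 1) (by omega),
      h.recW (a := a) (b := 0) (by omega)] at hc
    simp only [Wd_right, zero_add, Nat.reduceAdd] at hc ⊢
    omega
  · rw [if_neg (by omega), if_neg (by omega), if_neg (by omega), if_neg (by omega),
      Nat.add_sub_cancel, Nat.add_sub_cancel,
      hm b (a + 1 + 1) (by omega), hm (b + 1) a (by omega),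
      h.recW' (a := a) (b := b + 1 + 1) (by omega),
      h.recW' (a := a + 1) (b := b) (by omega),
      h.recW (a := a + 1 + 1) (b := b) (by omega),
      h.recW (a := a) (b := b + 1) (by omega)] at hc
    simp only [add_assoc, Nat.reduceAdd] at hc ⊢
    omega

end arr

end H39.CN
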