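import Pool.Agent.H39.CN.XL

namespace H39.CN

open Finset Classical

universe u

section norms

variable {E : Type u} {S : XM E} {n : ℕ} {V : ℕ → ℕ → E} {g : E → ZMod 3}

/-- norm of an entry of the last level -/
noncomputable def XM.nm (S : XM E) (V : ℕ → ℕ → E) (n b : ℕ) : ℕ :=
  dot (S.m (vb V n b)) (S.m (vb V n b))

/-- the involution as an equivalence -/
def XM.ce (S : XM E) : E ≃ E := ⟨S.c, S.c, S.c_c, S.c_c⟩

lemma XM.dot_c (S : XM E) (f g : E →₀ ℕ) :
    dot (f.equivMapDomain S.ce) (g.equivMapDomain S.ce) = dot f g := by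
  unfold dot
  rw [Finsupp.equivMapDomain_eq_mapDomain S.ce f,
    Finsupp.sum_mapDomain_index_inj S.ce.injective]
  apply Finsupp.sum_congr
  intro x _
  rw [Finsupp.equivMapDomain_apply, Equiv.symm_apply_apply]

variable (h : S.GArr n V g)

include h

lemma XM.GArr.nm_symm {b : ℕ} (hb : b ≤ n) : S.nm V n b = S.nm V n (n - b) := by
  unfold XM.nm dot
  rw [S.comm, h.toArr.vb_c hb]

lemma XM.GArr.nm_rec {b : ℕ} (hb : b + 1 ≤ n) :
    S.nm V n (b + 1) + (if 1 ≤ b then 1 else 0) = S.nm V n b + (if b + 2 ≤ n then 1 else 0) := by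
  set F : E →₀ ℕ := (S.m (vb V n (n - b))).equivMapDomain S.ce with hF
  have hFv : ∀ v, F v = S.m v (vb V n b) := by
    intro v
    rw [hF, Finsupp.equivMapDomain_apply]
    change S.m (vb V n (n - b)) (S.c v) = _
    rw [← h.toArr.vb_c (by omega), S.m_c]
  have hFF : dot F F = S.nm V n b := by
    rw [hF, S.dot_c, h.nm_symm (by omega)]
    rfl
  have key : F + (if b + 2 ≤ n then Finsupp.single (vb V n (b + 2)) 1 else 0) =
      S.m (vb V n (b + 1)) + (if 1 ≤ b then Finsupp.single (vb V n (b - 1)) 1 else 0) := by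
    ext v
    have hK := h.toArr.K1 hb v
    rw [Finsupp.add_apply, Finsupp.add_apply, hFv]
    have e : ∀ (p : Prop) [Decidable p] (w : E), ((if p then Finsupp.single w 1 else 0 : E →₀ ℕ) v) =
        if p then dl v w else 0 := by
      intro p _ w
      split_ifs with hp
      · rw [Finsupp.single_apply]; unfold dl; simp only [eq_comm]
      · rfl
    rw [e, e]
    exact hK
  have nrm : ∀ (p : Prop) [Decidable p] (f : E →₀ ℕ) (w : E), (p → f w = 0) →
      dot (f + (if p then Finsupp.single w 1 else 0)) (f + (if p then Finsupp.single w 1 else 0)) =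
      dot f f + (if p then 1 else 0) := by
    intro p _ f w hw
    split_ifs with hp
    · rw [dot_self_add, hw hp]
    · rw [add_zero, add_zero]
  have h1 := nrm (b + 2 ≤ n) F (vb V n (b + 2)) (fun hp => by
    rw [hFv]
    exact h.Mge b (b + 2) (by omega) hp)
  have h2 := nrm (1 ≤ b) (S.m (vb V n (b + 1))) (vb V n (b - 1)) (fun hp =>
    h.Mge (b - 1) (b + 1) (by omega) hb)
  rw [key, h2, hFF] at h1
  exact h1

/-- the hidden neighbour of an entry of the last level has multiplicity one -/
lemma XM.GArr.m_hid {b : ℕ} (h1 : 1 ≤ b) (hb : b ≤ n) : S.m (vb V n b) (V (n - b) (b - 1)) = 1 := by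
  rw [h.rec_apply' (by omega), show b - 1 + 1 = b by omega]
  have e1 : dl (vb V n b) (V (n - b) b) = 1 := dl_self _
  rw [e1]
  have hz : ∀ p q, p + q < n → dl (vb V n b) (V p q) = 0 := fun p q g1 => dl_ne fun e => by
    have := h.toArr.inj_lt (by omega) (by omega) (by omega) e
    omega
  have e2 : (if b - 1 = 0 then 0 else dl (vb V n b) (V (n - b + 1) (b - 1 - 1))) = 0 := by
    split_ifs
    · rfl
    · exact hz _ _ (by omega)
  have e3 : (if n - b = 0 then 0 else dl (vb V n b) (V (n - b - 1) (b - 1))) = 0 := by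
    split_ifs
    · rfl
    · exact hz _ _ (by omega)
  rw [e2, e3]

lemma XM.GArr.nm0 : ∃ N, S.nm V n 0 = N + 1 := by
  have h1 : S.m (vb V n 0) (vb V n 1) ≠ 0 := by rw [h.M01]; omega
  obtain ⟨f, hf⟩ := exists_sub h1
  refine ⟨dot f f + 2 * f (vb V n 1), ?_⟩
  unfold XM.nm
  rw [hf, dot_self_add]

lemma XM.GArr.nm_eq {N : ℕ} (hN : S.nm V n 0 = N + 1) : ∀ b, b ≤ n →
    S.nm V n b = N + (if b < n then 1 else 0) + (if 1 ≤ b then 1 else 0) := by
  intro b
  induction b with
  | zero =>
    intro _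
    have := h.n4
    rw [hN, if_pos (by omega), if_neg (by omega)]
  | succ b ih =>
    intro hb
    have h1 := h.nm_rec hb
    have h2 := ih (by omega)
    rw [h2, if_pos (show b < n by omega)] at h1
    rw [if_pos (show 1 ≤ b + 1 by omega)]
    split_ifs at h1 ⊢ <;> omega

/-- the shape of a row -/
lemma XM.GArr.row {N : ℕ} (hN : S.nm V n 0 = N + 1) {b : ℕ} (hb : b ≤ n) :
    ∃ f : E →₀ ℕ, S.m (vb V n b) = f + (if b < n then Finsupp.single (vb V n (b + 1)) 1 else 0) +
      (if 1 ≤ b then Finsupp.single (V (n - b) (b - 1)) 1 else 0) ∧ dot f f = N ∧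
      (b < n → f (vb V n (b + 1)) = 0) ∧ (1 ≤ b → f (V (n - b) (b - 1)) = 0) ∧
      (1 ≤ b → ∀ e ≤ n, f (vb V n e) = 0) := by
  have h4 := h.n4
  have hnm := h.nm_eq hN b hb
  obtain ⟨f1, hf1, hf1n, hf1z⟩ : ∃ f1 : E →₀ ℕ, S.m (vb V n b) = f1 +
      (if 1 ≤ b then Finsupp.single (V (n - b) (b - 1)) 1 else 0) ∧
      dot f1 f1 = N + (if b < n then 1 else 0) ∧ (1 ≤ b → f1 (V (n - b) (b - 1)) = 0) := by
    by_cases hb1 : 1 ≤ b
    · have h1 := h.m_hid hb1 hb
      obtain ⟨f1, hf1⟩ := exists_sub (f := S.m (vb V n b)) (a := V (n - b) (b - 1)) (by omega)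
      have h2 : f1 (V (n - b) (b - 1)) = 0 := by
        rw [hf1, Finsupp.add_apply, Finsupp.single_eq_same] at h1
        omega
      refine ⟨f1, ?_, ?_, fun _ => h2⟩
      · rw [if_pos hb1]; exact hf1
      · unfold XM.nm at hnm
        rw [hf1, dot_self_add, h2, if_pos hb1] at hnm
        omega
    · refine ⟨S.m (vb V n b), ?_, ?_, fun h' => absurd h' hb1⟩
      · rw [if_neg hb1, add_zero]
      · unfold XM.nm at hnm
        rw [hnm, if_neg hb1, add_zero]
  have hne : ∀ e ≤ n, 1 ≤ b → vb V n e ≠ V (n - b) (b - 1) := fun e he hb1 e2 => by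
    have := h.toArr.inj_lt (by omega) (by omega) (by omega) e2
    omega
  have hf1e : ∀ e ≤ n, f1 (vb V n e) = S.m (vb V n b) (vb V n e) := by
    intro e he
    rw [hf1, Finsupp.add_apply]
    by_cases hb1 : 1 ≤ b
    · rw [if_pos hb1, Finsupp.single_apply, if_neg (hne e he hb1).symm]
      rfl
    · rw [if_neg hb1]; rfl
  by_cases hbn : b < n
  · have h1 : f1 (vb V n (b + 1)) = 1 := by
      rw [hf1e _ (by omega), h.M hb (by omega) (by omega), if_pos rfl]
    obtain ⟨f, hf⟩ := exists_sub (f := f1) (a := vb V n (b + 1)) (by omega)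
    have h2 : f (vb V n (b + 1)) = 0 := by
      rw [hf, Finsupp.add_apply, Finsupp.single_eq_same] at h1
      omega
    refine ⟨f, ?_, ?_, fun _ => h2, ?_, ?_⟩
    · rw [hf1, hf, if_pos hbn]
    · rw [hf, dot_self_add, h2, if_pos hbn] at hf1n
      omega
    · intro hb1
      have h3 := hf1z hb1
      rw [hf, Finsupp.add_apply] at h3
      omega
    · intro hb1 e he
      have h3 := hf1e e he
      rw [h.M hb he (by omega), hf, Finsupp.add_apply, Finsupp.single_apply] at h3
      by_cases heb : e = b + 1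
      · rw [heb]; exact h2
      · rw [if_neg heb] at h3
        omega
  · refine ⟨f1, ?_, ?_, fun h' => absurd h' hbn, hf1z, ?_⟩
    · rw [if_neg hbn, add_zero]; exact hf1
    · rw [hf1n, if_neg hbn, add_zero]
    · intro hb1 e he
      rw [hf1e e he, h.M hb he (by omega), if_neg (by omega)]

lemma XM.GArr.N_deg {N : ℕ} (hN : S.nm V n 0 = N + 1) : ∃ f : E →₀ ℕ, dot f f = N ∧
    2 * (f.sum fun w k => k * S.d w) = (n + 2) * (n + 3) ∧
    ∀ v, f v * S.d (vb V n 0) ≤ 3 * S.d v := by
  have h4 := h.n4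
  obtain ⟨f, hf, hff, -, -, -⟩ := h.row hN (b := 0) (by omega)
  rw [if_pos (by omega), if_neg (by omega), add_zero] at hf
  refine ⟨f, hff, ?_, ?_⟩
  · have h1 := S.deg (vb V n 0)
    rw [hf, Finsupp.sum_add_index' (by simp) (by intros; ring),
      Finsupp.sum_single_index (by simp), one_mul] at h1
    have d0 := h.vb_d (b := 0) (by omega)
    have d1 := h.vb_d (b := 1) (by omega)
    rw [show n + 1 - 0 = n + 1 by omega] at d0
    rw [show n + 1 - 1 = n by omega] at d1
    rw [zero_add] at h1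
    nlinarith
  · intro v
    have h1 := S.term_le' (vb V n 0) v
    rw [hf, Finsupp.add_apply] at h1
    exact le_trans (Nat.mul_le_mul_right _ (Nat.le_add_right _ _)) h1

lemma XM.GArr.N_le {N : ℕ} (hN : S.nm V n 0 = N + 1) : N * (n + 1) ≤ 3 * (n + 3) := by
  obtain ⟨f, hff, hs, ht⟩ := h.N_deg hN
  have h1 : dot f f * S.d (vb V n 0) ≤ 3 * (f.sum fun w k => k * S.d w) := by
    unfold dot Finsupp.sum
    rw [sum_mul, mul_sum]
    refine sum_le_sum fun w _ => ?_
    calc f w * f w * S.d (vb V n 0) = f w * (f w * S.d (vb V n 0)) := by ring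
      _ ≤ f w * (3 * S.d w) := Nat.mul_le_mul_left _ (ht w)
      _ = _ := by ring
  rw [hff] at h1
  have d0 := h.vb_d (b := 0) (by omega)
  rw [show n + 1 - 0 = n + 1 by omega] at d0
  have h2 : N * (n + 1) * (n + 2) ≤ 3 * (n + 3) * (n + 2) := by
    calc N * (n + 1) * (n + 2) = N * ((n + 1) * (0 + 1) * (n + 2)) := by ring
      _ = N * (2 * S.d (vb V n 0)) := by rw [d0]
      _ = 2 * (N * S.d (vb V n 0)) := by ring
      _ ≤ 2 * (3 * (f.sum fun w k => k * S.d w)) := Nat.mul_le_mul_left _ h1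
      _ = 3 * (2 * (f.sum fun w k => k * S.d w)) := by ring
      _ = _ := by rw [hs]; ring
  exact Nat.le_of_mul_le_mul_right h2 (by omega)

lemma XM.GArr.N_ne_zero {N : ℕ} (hN : S.nm V n 0 = N + 1) : N ≠ 0 := by
  rintro rfl
  obtain ⟨f, hff, hs, -⟩ := h.N_deg hN
  have := dot_self_zero hff
  rw [this, Finsupp.sum_zero_index] at hs
  nlinarith

/-- norm one produces the next level -/
lemma XM.GArr.next (hN : S.nm V n 0 = 2) : ∃ V' : ℕ → ℕ → E, S.Arr (n + 1) V' ∧
    ∀ a b, a + b ≤ n → V' a b = V a b := by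
  have hA := h.toArr
  have hY : ∀ b, ∃ y : E, b ≤ n → S.m (vb V n b) = Finsupp.single y 1 +
      (if b < n then Finsupp.single (vb V n (b + 1)) 1 else 0) +
      (if 1 ≤ b then Finsupp.single (V (n - b) (b - 1)) 1 else 0) ∧
      (1 ≤ b → y ≠ V (n - b) (b - 1)) ∧ (1 ≤ b → ∀ e ≤ n, y ≠ vb V n e) := by
    intro b
    by_cases hb : b ≤ n
    · obtain ⟨f, hf, hff, -, hf2, hf3⟩ := h.row (N := 1) hN hb
      obtain ⟨y, rfl⟩ := dot_self_one hff
      refine ⟨y, fun _ => ⟨hf, ?_, ?_⟩⟩
      · intro h1 e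
        have := hf2 h1
        rw [← e, Finsupp.single_eq_same] at this
        omega
      · intro h1 e he heq
        have := hf3 h1 e he
        rw [← heq, Finsupp.single_eq_same] at this
        omega
    · exact ⟨V 0 0, fun h' => absurd h' hb⟩
  choose Y hY using hY
  have hYc : ∀ b, 1 ≤ b → b ≤ n → S.c (Y b) = Y (n + 1 - b) := by
    intro b h1 hb
    obtain ⟨r1, r2, r3⟩ := hY b hb
    have m1 : S.m (vb V n b) (Y b) ≠ 0 := by
      rw [r1, Finsupp.add_apply, Finsupp.add_apply, Finsupp.single_eq_same]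
      omega
    obtain ⟨b, rfl⟩ := Nat.exists_eq_add_of_le' h1
    have hK := hA.K1 hb (Y (b + 1))
    have e1 : (if b + 2 ≤ n then dl (Y (b + 1)) (vb V n (b + 2)) else 0) = 0 := by
      split_ifs with hp
      · exact dl_ne (r3 h1 _ hp)
      · rfl
    have e2 : (if 1 ≤ b then dl (Y (b + 1)) (vb V n (b - 1)) else 0) = 0 := by
      split_ifs with hp
      · exact dl_ne (r3 h1 _ (by omega))
      · rfl
    rw [e1, e2] at hK
    rw [← S.m_c, hA.vb_c (by omega)] at hK
    obtain ⟨s1, -, -⟩ := hY (n - b) (by omega)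
    have hcv : S.m (vb V n (n - b)) (S.c (Y (b + 1))) ≠ 0 := by omega
    rw [s1, Finsupp.add_apply, Finsupp.add_apply, Finsupp.single_apply] at hcv
    have z1 : ((if n - b < n then Finsupp.single (vb V n (n - b + 1)) 1 else 0 : E →₀ ℕ)
        (S.c (Y (b + 1)))) = 0 := by
      split_ifs with hp
      · rw [Finsupp.single_apply, if_neg]
        intro e
        have e3 := congrArg S.c e
        rw [S.c_c, hA.vb_c (by omega)] at e3
        exact r3 h1 _ (by omega) e3.symm
      · rfl
    have z2 : ((if 1 ≤ n - b then Finsupp.single (V (n - (n - b)) (n - b - 1)) 1 else 0 : E →₀ ℕ)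
        (S.c (Y (b + 1)))) = 0 := by
      split_ifs with hp
      · rw [Finsupp.single_apply, if_neg]
        intro e
        have e3 := congrArg S.c e
        rw [S.c_c, hA.V_c _ _ (by omega)] at e3
        apply r2 h1
        rw [← e3, show n - b - 1 = n - (b + 1) by omega,
          show n - (n - b) = b + 1 - 1 by omega]
      · rfl
    rw [z1, z2] at hcv
    by_contra hcon
    rw [show n + 1 - (b + 1) = n - b by omega] at hcon
    rw [if_neg (Ne.symm hcon)] at hcv
    exact hcv rfl
  refine ⟨fun a b => if a + b ≤ n then V a b else if a = 0 then S.c (Y 0) else Y b,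
    ⟨?_, ?_, ?_⟩, fun a b hab => if_pos hab⟩
  · rw [if_pos (by omega)]
    exact hA.V_d
  · intro a b hab
    by_cases h1 : a + b ≤ n
    · rw [if_pos h1, if_pos (by omega)]
      exact hA.V_c a b h1
    · rw [if_neg h1, if_neg (show ¬ b + a ≤ n by omega)]
      by_cases ha : a = 0
      · rw [if_pos ha, if_neg (show ¬ b = 0 by omega), S.c_c, ha]
      · rw [if_neg ha]
        by_cases hb : b = 0
        · rw [if_pos hb, hb]
        · rw [if_neg hb, hYc b (by omega) (by omega), show n + 1 - b = a by omega]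
  · intro a b hab
    by_cases h1 : a + b < n
    · rw [if_pos (by omega), if_pos (by omega), hA.V_rec a b h1]
      congr 1
      · congr 1
        split_ifs with h2 h3 <;> first | rfl | omega
      · split_ifs with h2 h3 <;> first | rfl | omega
    · obtain ⟨r1, -, -⟩ := hY b (by omega)
      rw [if_pos (by omega), if_neg (by omega), if_neg (by omega)]
      have e0 : vb V n b = V a b := by unfold vb; rw [show n - b = a by omega]
      rw [e0] at r1
      rw [r1]
      congr 1
      · congr 1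
        by_cases ha : a = 0
        · rw [if_pos ha, if_neg (by omega)]
        · rw [if_neg ha, if_pos (by omega), if_pos (by omega)]
          unfold vb
          rw [show n - (b + 1) = a - 1 by omega]
      · by_cases hb : b = 0
        · rw [if_pos hb, if_neg (by omega)]
        · rw [if_neg hb, if_pos (by omega), if_pos (by omega), show n - b = a by omega]

end norms

end H39.CN
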