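import Pool.Agent.H39.CN.XN

namespace H39.CN

open Finset Classical

universe u

/-- splitting a sum along a predicate -/
lemma sum_sub {E : Type u} (p : E → Prop) (f : E →₀ ℕ) (F : E → ℕ) :
    (f.sum fun w k => k * F w) = ((f.subtypeDomain p).sum fun w k => k * F w.1) +
      ((f.filter (fun w => ¬ p w)).sum fun w k => k * F w) := by
  have h1 : f = f.filter p + f.filter (fun w => ¬ p w) :=
    (Finsupp.filter_add_filter_not f p).symm
  have h2 : f.subtypeDomain p = (f.filter p).subtypeDomain p := by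
    ext x
    rw [Finsupp.subtypeDomain_apply, Finsupp.subtypeDomain_apply,
      Finsupp.filter_apply_pos p f x.2]
  have h3 : ((f.subtypeDomain p).sum fun w k => k * F w.1) =
      ((f.filter p).sum fun w k => k * F w) := by
    rw [h2]
    apply Finsupp.sum_subtypeDomain_index (h := fun w k => k * F w)
    intro x hx
    rw [Finsupp.support_filter, mem_filter] at hx
    exact hx.2
  rw [h3]
  conv_lhs => rw [h1]
  rw [Finsupp.sum_add_index' (by simp) (by intros; ring)]

/-- not a hidden entry -/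
def nh {E : Type u} (V : ℕ → ℕ → E) (n : ℕ) (u : E) : Prop := ∀ a b, a + b < n → u ≠ V a b

section reduce

variable {E : Type u} {S : XM E} {n : ℕ} {V : ℕ → ℕ → E} {g : E → ZMod 3}
  (h : S.GArr n V g)

include h

lemma XM.GArr.nh_c {u : E} (hu : nh V n u) : nh V n (S.c u) := by
  intro a b hab e
  apply hu b a (by omega)
  apply S.c_inj
  rw [e, h.V_c b a (by omega)]

lemma XM.GArr.nh_V {a b : ℕ} (hab : a + b = n) : nh V n (V a b) := by
  intro a' b' hab' e
  have := h.toArr.inj_lt (by omega) (by omega) (by omega) e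
  omega

lemma XM.GArr.nh_vb {b : ℕ} (hb : b ≤ n) : nh V n (vb V n b) := h.nh_V (by omega)

lemma XM.GArr.nh_apply {u : E} (hu : nh V n u) {a b : ℕ} (hab : a + b < n) :
    S.m u (V a b) = dl u (V a (b + 1)) := by
  rw [h.toArr.rec_apply' hab]
  have e2 : (if b = 0 then 0 else dl u (V (a + 1) (b - 1))) = 0 := by
    split_ifs
    · rfl
    · exact dl_ne (hu _ _ (by omega))
  have e3 : (if a = 0 then 0 else dl u (V (a - 1) b)) = 0 := by
    split_ifs
    · rfl
    · exact dl_ne (hu _ _ (by omega))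
  rw [e2, e3, add_zero, add_zero]

/-- rows outside the last level do not meet hidden entries -/
lemma XM.GArr.filter_zero {u : E} (hu : nh V n u) (hu2 : ∀ b, 1 ≤ b → b ≤ n → u ≠ vb V n b) :
    (S.m u).filter (fun w => ¬ nh V n w) = 0 := by
  ext w
  by_cases hw : nh V n w
  · rw [Finsupp.filter_apply_neg _ _ (by simpa using hw)]
    rfl
  · rw [Finsupp.filter_apply_pos (fun w => ¬ nh V n w) _ hw]
    unfold nh at hw
    push Not at hw
    obtain ⟨a, b, hab, rfl⟩ := hw
    rw [h.nh_apply hu hab]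
    apply dl_ne
    intro e
    by_cases h1 : a + (b + 1) < n
    · exact hu _ _ h1 e
    · apply hu2 (b + 1) (by omega) (by omega)
      rw [e]
      unfold vb
      rw [show n - (b + 1) = a by omega]

lemma XM.GArr.filter_V {b : ℕ} (h1 : 1 ≤ b) (hb : b ≤ n) :
    (S.m (vb V n b)).filter (fun w => ¬ nh V n w) = Finsupp.single (V (n - b) (b - 1)) 1 := by
  ext w
  by_cases hw : nh V n w
  · rw [Finsupp.filter_apply_neg _ _ (by simpa using hw), Finsupp.single_apply, if_neg]
    intro e
    exact hw _ _ (by omega) e.symm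
  · rw [Finsupp.filter_apply_pos (fun w => ¬ nh V n w) _ hw]
    unfold nh at hw
    push Not at hw
    obtain ⟨a, e, hab, rfl⟩ := hw
    rw [h.nh_apply (h.nh_vb hb) hab, Finsupp.single_apply]
    by_cases h2 : n - b = a ∧ b = e + 1
    · obtain ⟨h3, h4⟩ := h2
      unfold vb
      rw [h3, h4, dl_self, Nat.add_sub_cancel, if_pos rfl]
    · rw [if_neg, dl_ne]
      · intro e2
        unfold vb at e2
        have := h.inj (by omega) (by omega) e2
        omega
      · intro e2
        have := h.toArr.inj_lt (by omega) (by omega) (by omega) e2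
        omega

/-- contribution of the hidden entries to a sum -/
lemma XM.GArr.hsum0 {u : E} (hu : nh V n u) (hu2 : ∀ b, 1 ≤ b → b ≤ n → u ≠ vb V n b)
    (F : E → ℕ) : ((S.m u).sum fun w k => k * F w) =
      (((S.m u).subtypeDomain (nh V n)).sum fun w k => k * F w.1) := by
  rw [sum_sub (nh V n), h.filter_zero hu hu2, Finsupp.sum_zero_index, add_zero]

lemma XM.GArr.hsumV {b : ℕ} (h1 : 1 ≤ b) (hb : b ≤ n) (F : E → ℕ) :
    ((S.m (vb V n b)).sum fun w k => k * F w) =
      (((S.m (vb V n b)).subtypeDomain (nh V n)).sum fun w k => k * F w.1) +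
        F (V (n - b) (b - 1)) := by
  rw [sum_sub (nh V n), h.filter_V h1 hb, Finsupp.sum_single_index (by simp), one_mul]

lemma XM.GArr.vb0_ne : ∀ b, 1 ≤ b → b ≤ n → vb V n 0 ≠ vb V n b := fun b h1 hb e => by
  have := h.vb_inj (by omega) hb e
  omega

/-- reduced sums of two different rows -/
lemma XM.GArr.hcomm {u v : E} (hu : nh V n u) (hv : nh V n v)
    (huv : ¬ (u = v ∧ ∃ b ≤ n, u = vb V n b)) :
    ((S.m u).sum fun w k => k * S.m v w) =
      (((S.m u).subtypeDomain (nh V n)).sum fun w k => k * S.m v w.1) := by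
  by_cases hu2 : ∀ b, 1 ≤ b → b ≤ n → u ≠ vb V n b
  · exact h.hsum0 hu hu2 _
  · push Not at hu2
    obtain ⟨b, h1, hb, rfl⟩ := hu2
    rw [h.hsumV h1 hb]
    have : S.m v (V (n - b) (b - 1)) = 0 := by
      rw [h.nh_apply hv (by omega)]
      apply dl_ne
      intro e
      apply huv
      refine ⟨?_, b, hb, rfl⟩
      rw [e]
      unfold vb
      rw [show b - 1 + 1 = b by omega]
    rw [this, add_zero]

/-- entry of the last level in the reduced structure -/
def XM.GArr.vs (b : ℕ) : {u : E // nh V n u} := ⟨V (n - b) (n - (n - b)), h.nh_V (by omega)⟩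

lemma XM.GArr.vs_val {b : ℕ} (hb : b ≤ n) : (h.vs b).1 = vb V n b := by
  unfold XM.GArr.vs vb
  change V (n - b) (n - (n - b)) = V (n - b) b
  rw [show n - (n - b) = b by omega]

omit h in
lemma dV_val (n b : ℕ) : dV n b = (n + 1 - b) * (b + 1) * (n + 2) / 2 := rfl

lemma XM.GArr.vb_d' {b : ℕ} (hb : b ≤ n) : S.d (vb V n b) = dV n b := by
  have h1 := h.vb_d hb
  rw [dV_val, ← h1, Nat.mul_div_cancel_left _ (by omega)]

/-- the reduced structure -/
noncomputable def XM.GArr.toRG {N : ℕ} (hN : S.nm V n 0 = N + 1) : RG.{u} n N where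
  E := {u : E // nh V n u}
  m u := (S.m u.1).subtypeDomain (nh V n)
  c u := ⟨S.c u.1, h.nh_c u.2⟩
  d u := S.d u.1
  g u := (g u.1).val
  V b := h.vs b
  c_c u := Subtype.ext (S.c_c u.1)
  m_c u v := by
    rw [Finsupp.subtypeDomain_apply, Finsupp.subtypeDomain_apply]
    exact S.m_c u.1 v.1
  d_pos u := S.d_pos u.1
  d_c u := S.d_c u.1
  g_lt u := ZMod.val_lt _
  g_m u v huv := by
    rw [Finsupp.subtypeDomain_apply] at huv
    rw [h.g_m _ _ huv, ZMod.val_add]
    rfl
  g_c u := by
    change (g (S.c u.1)).val = _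
    rw [h.g_c, ZMod.neg_val']
  V_inj b hb e he hbe := by
    have h1 := congrArg Subtype.val hbe
    rw [h.vs_val hb, h.vs_val he] at h1
    exact h.vb_inj hb he h1
  V_c b hb := by
    apply Subtype.ext
    change S.c (h.vs b).1 = (h.vs (n - b)).1
    rw [h.vs_val hb, h.vs_val (by omega), h.vb_c hb]
  V_d b hb := by
    rw [h.vs_val hb, h.vb_d' hb]
  V_g b hb := by
    rw [h.vs_val hb, h.vb_g hb, ← Nat.cast_add, ZMod.val_natCast]
  deg u hu := by
    rw [← h.hsum0 u.2 _ S.d]
    · exact S.deg u.1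
    · intro b _ hb e
      apply hu b hb
      apply Subtype.ext
      rw [e, h.vs_val hb]
  degV b hb := by
    rw [h.vs_val hb, ← h.vb_d' hb, ← S.deg (vb V n b)]
    rcases b with _ | b
    · rw [h.hsum0 (h.nh_vb hb) h.vb0_ne S.d]
      unfold hid
      rw [mul_zero, zero_mul, Nat.zero_div, add_zero]
    · rw [h.hsumV (by omega) hb S.d]
      have h4 := h.D (a := n - (b + 1)) (b := b + 1 - 1) (by omega)
      rw [show n - (b + 1) + 1 = n + 1 - (b + 1) by omega,
        show n - (b + 1) + (b + 1 - 1) + 2 = n + 1 by omega, Nat.sub_add_cancel (by omega)] at h4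
      unfold hid
      rw [← h4, Nat.mul_div_cancel_left _ (by omega)]
  comm u v huv := by
    have h1 : ¬ (u.1 = v.1 ∧ ∃ b ≤ n, u.1 = vb V n b) := by
      rintro ⟨e, b, hb, e2⟩
      apply huv
      refine ⟨Subtype.ext e, b, hb, Subtype.ext ?_⟩
      rw [e2, h.vs_val hb]
    have h2 : ¬ (S.c u.1 = S.c v.1 ∧ ∃ b ≤ n, S.c u.1 = vb V n b) := by
      rintro ⟨e, b, hb, e2⟩
      apply h1
      refine ⟨S.c_inj e, n - b, by omega, ?_⟩
      rw [← h.toArr.vb_c hb, ← e2, S.c_c]
    have h3 := h.hcomm u.2 v.2 h1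
    have h4 := h.hcomm (h.nh_c u.2) (h.nh_c v.2) h2
    have h5 := S.comm u.1 v.1
    rw [h3, h4] at h5
    exact h5
  norm b hb := by
    rw [h.vs_val hb]
    have h1 := h.nm_eq hN b hb
    unfold XM.nm dot at h1
    rcases b with _ | b
    · rw [if_neg (show ¬ 1 ≤ 0 by omega), add_zero, h.hsum0 (h.nh_vb hb) h.vb0_ne] at h1
      exact h1
    · rw [h.hsumV (by omega) hb, if_pos (show 1 ≤ b + 1 by omega), h.m_hid (by omega) hb] at h1
      exact Nat.add_right_cancel h1
  VV b hb e he hne := by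
    rw [Finsupp.subtypeDomain_apply, h.vs_val hb, h.vs_val he]
    exact h.M hb he hne
  link b h1 hb v hv := by
    rw [Finsupp.subtypeDomain_apply, Finsupp.subtypeDomain_apply, h.vs_val hb,
      h.vs_val (show n + 1 - b ≤ n by omega)]
    obtain ⟨b, rfl⟩ := Nat.exists_eq_add_of_le' h1
    have hv' : ∀ e ≤ n, v.1 ≠ vb V n e := by
      intro e he e2
      apply hv e he
      apply Subtype.ext
      rw [e2, h.vs_val he]
    have hK := h.K1 hb v.1
    have e1 : (if b + 2 ≤ n then dl v.1 (vb V n (b + 2)) else 0) = 0 := by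
      split_ifs with hp
      · exact dl_ne (hv' _ hp)
      · rfl
    have e2 : (if 1 ≤ b then dl v.1 (vb V n (b - 1)) else 0) = 0 := by
      split_ifs with hp
      · exact dl_ne (hv' _ (by omega))
      · rfl
    rw [e1, e2, ← S.m_c, h.vb_c (by omega)] at hK
    rw [show n + 1 - (b + 1) = n - b by omega]
    exact hK.symm

/-- the main alternative -/
theorem XM.GArr.main (hne : ¬ ∃ V' : ℕ → ℕ → E, S.Arr (n + 1) V' ∧
    ∀ a b, a + b ≤ n → V' a b = V a b) :
    ∃ N, 2 ≤ N ∧ N * (n + 1) ≤ 3 * (n + 3) ∧ Nonempty (RG.{u} n N) := by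
  obtain ⟨N, hN⟩ := h.nm0
  have h0 := h.N_ne_zero hN
  have h1 : N ≠ 1 := by
    rintro rfl
    exact hne (h.next hN)
  exact ⟨N, by omega, h.N_le hN, ⟨h.toRG hN⟩⟩

end reduce

end H39.CN
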